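import Mathlib

/-!
# Number of solutions of one equation (package T16 of MP_f688e9_co, Thresholds)

PROOF. The additive homomorphism `f : (Fin m → ZMod n) →+ ZMod n`, `f a = ∑ (x i : ZMod n) * a i`.
`card ker * card range = n^m` (`AddSubgroup.card_mul_index`, `AddSubgroup.index_ker`). The quotient
of `ZMod n` by the range is cyclic, generated by the class of `1`, which is of order `d`, the index
of the range. All `x i` are in the range (`f` of the unit vectors), so `d ∣ x i` for all `i`, so
`d ∣ gcd x` and `d ≤ |gcd x|`. So `card ker * n = card ker * card range * d ≤ n^m |gcd x|`.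
-/

namespace Pool.Agent.SBhAs

theorem card_sol {m : ℕ} (n : ℕ) (hn : 0 < n) (x : Fin m → ℤ) (hx : x ≠ 0) :
    Nat.card {a : Fin m → ZMod n // ∑ i, (x i : ZMod n) * a i = 0} * n ≤
      n ^ m * (Finset.univ.gcd x).natAbs := by
  set f : (Fin m → ZMod n) →+ ZMod n :=
    { toFun := fun a => ∑ i, (x i : ZMod n) * a i
      map_zero' := by simp
      map_add' := fun a b => by simp [mul_add, Finset.sum_add_distrib] } with hf
  have h1 : Nat.card {a : Fin m → ZMod n // ∑ i, (x i : ZMod n) * a i = 0} =
      Nat.card f.ker := rfl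
  have h2 := f.ker.card_mul_index
  rw [AddSubgroup.index_ker, Nat.card_fun, Nat.card_zmod, Nat.card_fin] at h2
  have h3 := f.range.card_mul_index
  rw [Nat.card_zmod] at h3
  -- the index of the range divides all `x i`
  have h4 : addOrderOf (QuotientAddGroup.mk' f.range 1) = f.range.index := by
    refine addOrderOf_eq_card_of_forall_mem_zmultiples fun q => ?_
    obtain ⟨z, rfl⟩ := QuotientAddGroup.mk'_surjective f.range q
    refine ⟨z.cast, ?_⟩
    change (z.cast : ℤ) • QuotientAddGroup.mk' f.range 1 = _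
    rw [← map_zsmul, zsmul_one, ZMod.intCast_zmod_cast]
  have h5 : ∀ i, (f.range.index : ℤ) ∣ x i := by
    intro i
    rw [← h4, addOrderOf_dvd_iff_zsmul_eq_zero, ← map_zsmul, zsmul_one]
    refine (QuotientAddGroup.eq_zero_iff _).2 ⟨Pi.single i 1, ?_⟩
    change ∑ j, (x j : ZMod n) * (Pi.single i 1 : Fin m → ZMod n) j = _
    simp [Pi.single_apply]
  have h6 : (f.range.index : ℤ) ∣ Finset.univ.gcd x := Finset.dvd_gcd fun i _ => h5 i
  have h7 : Finset.univ.gcd x ≠ 0 := by
    intro h
    apply hx
    funext i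
    exact (Finset.gcd_eq_zero_iff.1 h) i (Finset.mem_univ i)
  have h8 : f.range.index ≤ (Finset.univ.gcd x).natAbs :=
    Nat.le_of_dvd (Int.natAbs_pos.2 h7) (Int.natCast_dvd.1 h6)
  rw [h1, ← h2]
  calc Nat.card f.ker * n = Nat.card f.ker * (Nat.card f.range * f.range.index) := by
        conv_rhs => rw [h3]
    _ = Nat.card f.ker * Nat.card f.range * f.range.index := (mul_assoc _ _ _).symm
    _ ≤ _ := Nat.mul_le_mul_left _ h8

end Pool.Agent.SBhAs
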