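import Mathlib

/-!
# Number of points of the `ℓ₁`-ball (package T17 of MP_f688e9_co, Thresholds)

PROOF (induction on `m`, all `r`). `m = 0`: one vector, `0! = 1 ≤ 1`.
`m → m+1`: split off the first coordinate `j ∈ [-r, r]` (`Fin.consEquiv`/`Fin.cons`), the others
lie in the ball of radius `r - |j|`:
`(m+1)! V_{m+1}(r) = (m+1) ∑_{|j| ≤ r} m! V_m(r - |j|) ≤ (m+1) S(r)`,
`S(r) = ∑_{|j| ≤ r} (2(r-|j|) + m)^m = (2r+m)^m + 2 ∑_{s<r} (2s+m)^m`. Claim
`(m+1) S(r) ≤ (2r+m+1)^(m+1)` by induction on `r`: `r = 0`: `(m+1) m^m ≤ (m+1)^(m+1)`. Step: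
`S(r+1) - S(r) = (2r+2+m)^m + (2r+m)^m`, and with `a = 2r+m+2`:
`(a+1)^(m+1) - (a-1)^(m+1) = [(a+1)^(m+1) - a^(m+1)] + [a^(m+1) - (a-1)^(m+1)]
≥ (m+1) a^m + (m+1) (a-1)^m ≥ (m+1) (a^m + (a-2)^m)`
(`x^(m+1) - y^(m+1) ≥ (m+1) y^m (x - y)` for `x ≥ y ≥ 0`).
-/

namespace Pool.Agent.SBhAs

/-- The `l1` ball. -/
private abbrev Bl (m r : ℕ) : Type := {v : Fin m → ℤ // ∑ i, |v i| ≤ (r : ℤ)}

private theorem abs_coord_le {m r : ℕ} (v : Bl m r) (i : Fin m) : |v.1 i| ≤ (r : ℤ) :=
  (Finset.single_le_sum (f := fun i => |v.1 i|) (fun _ _ => abs_nonneg _)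
    (Finset.mem_univ i)).trans v.2

private instance finite_bl (m r : ℕ) : Finite (Bl m r) := by
  have h : ({v : Fin m → ℤ | ∑ i, |v i| ≤ (r : ℤ)}).Finite := by
    refine (Set.finite_Icc (fun _ : Fin m => -(r : ℤ)) (fun _ => (r : ℤ))).subset ?_
    intro v hv
    have h1 : ∀ i, |v i| ≤ (r : ℤ) := fun i => abs_coord_le ⟨v, hv⟩ i
    exact ⟨fun i => (abs_le.1 (h1 i)).1, fun i => (abs_le.1 (h1 i)).2⟩
  exact h

private theorem cons_sum {m : ℕ} (j : ℤ) (w : Fin m → ℤ) :
    ∑ i, |(Fin.cons j w : Fin (m + 1) → ℤ) i| = |j| + ∑ i, |w i| := by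
  rw [Fin.sum_univ_succ]
  simp only [Fin.cons_zero, Fin.cons_succ]

private theorem tail_sum {m : ℕ} (v : Fin (m + 1) → ℤ) :
    ∑ i, |v i| = |v 0| + ∑ i, |Fin.tail v i| := by
  rw [Fin.sum_univ_succ]
  rfl

/-- Every point of the bigger ball comes from a point of one of three smaller balls. -/
private def up {m r : ℕ} : Bl (m + 1) r ⊕ (Bl m (r + 1) ⊕ Bl m r) → Bl (m + 1) (r + 1)
  | Sum.inl u => ⟨Fin.cons (if 0 ≤ u.1 0 then u.1 0 + 1 else u.1 0 - 1) (Fin.tail u.1), by
      have h1 := u.2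
      rw [tail_sum] at h1
      rw [cons_sum]
      have h2 : |if 0 ≤ u.1 0 then u.1 0 + 1 else u.1 0 - 1| ≤ |u.1 0| + 1 := by
        split_ifs with h
        · rw [abs_of_nonneg h, abs_of_nonneg (by omega)]
        · rw [abs_of_neg (by omega), abs_of_neg (by omega)]
          omega
      push_cast
      linarith⟩
  | Sum.inr (Sum.inl w) => ⟨Fin.cons 0 w.1, by
      rw [cons_sum, abs_zero, zero_add]
      exact w.2⟩
  | Sum.inr (Sum.inr w) => ⟨Fin.cons (-1) w.1, by
      have h1 := w.2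
      rw [cons_sum]
      push_cast
      norm_num
      linarith⟩

private theorem up_surj {m r : ℕ} : Function.Surjective (up (m := m) (r := r)) := by
  rintro ⟨v, hv⟩
  have h0 := hv
  rw [tail_sum] at h0
  push_cast at h0
  have hc : Fin.cons (v 0) (Fin.tail v) = v := Fin.cons_self_tail v
  rcases lt_trichotomy (v 0) 0 with h | h | h
  · rw [abs_of_neg h] at h0
    by_cases h1 : v 0 = -1
    · refine ⟨Sum.inr (Sum.inr ⟨Fin.tail v, by linarith⟩), Subtype.ext ?_⟩
      change Fin.cons (-1) (Fin.tail v) = v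
      rw [← h1]
      exact hc
    · refine ⟨Sum.inl ⟨Fin.cons (v 0 + 1) (Fin.tail v), ?_⟩, Subtype.ext ?_⟩
      · rw [cons_sum, abs_of_neg (by omega)]
        linarith
      · change Fin.cons (if 0 ≤ v 0 + 1 then v 0 + 1 + 1 else v 0 + 1 - 1) (Fin.tail v) = v
        rw [if_neg (by omega), add_sub_cancel_right]
        exact hc
  · rw [h, abs_zero, zero_add] at h0
    refine ⟨Sum.inr (Sum.inl ⟨Fin.tail v, by push_cast; exact h0⟩), Subtype.ext ?_⟩
    change Fin.cons 0 (Fin.tail v) = v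
    rw [← h]
    exact hc
  · rw [abs_of_pos h] at h0
    refine ⟨Sum.inl ⟨Fin.cons (v 0 - 1) (Fin.tail v), ?_⟩, Subtype.ext ?_⟩
    · rw [cons_sum, abs_of_nonneg (by omega)]
      linarith
    · change Fin.cons (if 0 ≤ v 0 - 1 then v 0 - 1 + 1 else v 0 - 1 - 1) (Fin.tail v) = v
      rw [if_pos (by omega), sub_add_cancel]
      exact hc

private theorem card_up (m r : ℕ) : Nat.card (Bl (m + 1) (r + 1)) ≤
    Nat.card (Bl (m + 1) r) + (Nat.card (Bl m (r + 1)) + Nat.card (Bl m r)) := by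
  have h := Nat.card_le_card_of_surjective _ (up_surj (m := m) (r := r))
  rwa [Nat.card_sum, Nat.card_sum] at h

private theorem pow_step (a m : ℕ) : a ^ (m + 1) + (m + 1) * a ^ m ≤ (a + 1) ^ (m + 1) := by
  induction m with
  | zero => simp
  | succ m ih =>
    calc a ^ (m + 1 + 1) + (m + 1 + 1) * a ^ (m + 1)
        ≤ (a ^ (m + 1) + (m + 1) * a ^ m) * (a + 1) := by
          have : (a ^ (m + 1) + (m + 1) * a ^ m) * (a + 1) =
            a ^ (m + 1 + 1) + (m + 1 + 1) * a ^ (m + 1) + (m + 1) * a ^ m := by ring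
          rw [this]
          exact Nat.le_add_right _ _
      _ ≤ (a + 1) ^ (m + 1) * (a + 1) := Nat.mul_le_mul_right _ ih
      _ = (a + 1) ^ (m + 1 + 1) := by ring

theorem card_ball (m : ℕ) : ∀ r : ℕ,
    Nat.card {v : Fin m → ℤ // ∑ i, |v i| ≤ r} * m.factorial ≤ (2 * r + m) ^ m := by
  induction m with
  | zero =>
    intro r
    simp
  | succ m ihm =>
    intro r
    induction r with
    | zero =>
      have h1 : Nat.card {v : Fin (m + 1) → ℤ // ∑ i, |v i| ≤ ((0 : ℕ) : ℤ)} ≤ 1 := by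
        have : Subsingleton (Bl (m + 1) 0) := ⟨fun a b => Subtype.ext (funext fun i => by
          have h1 := abs_coord_le a i
          have h2 := abs_coord_le b i
          simp only [Nat.cast_zero, abs_nonpos_iff] at h1 h2
          rw [h1, h2])⟩
        exact Finite.card_le_one_iff_subsingleton.2 this
      calc _ ≤ 1 * (m + 1).factorial := Nat.mul_le_mul_right _ h1
        _ = (m + 1).factorial := one_mul _
        _ ≤ (m + 1) ^ (m + 1) := Nat.factorial_le_pow _
        _ = _ := by norm_num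
    | succ r ihr =>
      have h1 := card_up m r
      have h2 := ihm (r + 1)
      have h3 := ihm r
      change Nat.card (Bl (m + 1) (r + 1)) * _ ≤ _
      change Nat.card (Bl (m + 1) r) * _ ≤ _ at ihr
      change Nat.card (Bl m (r + 1)) * _ ≤ _ at h2
      change Nat.card (Bl m r) * _ ≤ _ at h3
      have h4 := pow_step (2 * r + (m + 1)) m
      have h5 := pow_step (2 * r + (m + 1) + 1) m
      have h6 : (2 * r + m) ^ m ≤ (2 * r + (m + 1)) ^ m := Nat.pow_le_pow_left (by omega) _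
      have h7 : 2 * (r + 1) + m = 2 * r + (m + 1) + 1 := by ring
      have h8 : 2 * (r + 1) + (m + 1) = 2 * r + (m + 1) + 1 + 1 := by ring
      rw [h7] at h2
      rw [h8]
      calc Nat.card (Bl (m + 1) (r + 1)) * (m + 1).factorial
          ≤ (Nat.card (Bl (m + 1) r) + (Nat.card (Bl m (r + 1)) + Nat.card (Bl m r))) *
            (m + 1).factorial := Nat.mul_le_mul_right _ h1
        _ = Nat.card (Bl (m + 1) r) * (m + 1).factorial + (m + 1) *
            (Nat.card (Bl m (r + 1)) * m.factorial + Nat.card (Bl m r) * m.factorial) := by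
          rw [Nat.factorial_succ]
          ring
        _ ≤ (2 * r + (m + 1)) ^ (m + 1) + (m + 1) *
            ((2 * r + (m + 1) + 1) ^ m + (2 * r + (m + 1)) ^ m) := by
          gcongr
          exact h3.trans h6
        _ ≤ (2 * r + (m + 1) + 1 + 1) ^ (m + 1) := by
          rw [mul_add]
          omega

end Pool.Agent.SBhAs
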