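import Mathlib
import Pool.Agent.SBhAs.Ball

/-!
# The sum of the greatest common divisors (package T18 of MP_f688e9_co, Thresholds)

PROOF. Let `B` be the set of the nonzero `x : Fin m → ℤ` with `∑ |x i| ≤ 2h` (finite). For `x ∈ B`
let `g = gcd x ∈ [1, 2h]`, `x = g y`, `y ≠ 0`, `∑ |y i| ≤ 2h/g` (natural division). So
`∑_{x ∈ B} gcd x ≤ ∑_{g=1}^{2h} g * V_m(2h/g)` (fibrewise over `g`,
`Finset.sum_fiberwise_of_maps_to`; `x ↦ y` is injective on the fibre).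
By `card_ball` and `m^m / m! ≤ e^m ≤ 3^m` (`Real.pow_div_factorial_le_exp`; `exp 1 < 3`)
`V_m(2h/g) ≤ (4h/g + m)^m / m! ≤ (3 (4h/(g m) + 1))^m`. If `g m ≤ 4h`: `≤ (24 h/(g m))^m`; as
`m ≥ 3`, `∑_g g (24h/(gm))^m ≤ (24h/m)^m ∑_{g ≥ 1} 1/g^2 ≤ 2 (24h/m)^m`
(`∑_{g=1}^N 1/g² ≤ 2 - 1/N`). If `g m > 4h`: `≤ 6^m`, and `∑_{g ≤ 2h} g 6^m = h (2h+1) 6^m ≤
3 h² 6^m`. Total `≤ 2 (24h/m)^m + 3 h² 6^m`. With `x = h/m ≥ 1`:
`2 (24x)^m ≤ (2·27/512) (64x)^m < (1/8) (64 x)^m` (`(3/8)^m ≤ 27/512`) and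
`3 m² x² 6^m ≤ (1/8) (64x)^m`: `(64/6)^m x^m ≥ 10^m x² ≥ 24 m² x²` (`10^m ≥ 24 m²` for `m ≥ 3`).
-/

namespace Pool.Agent.SBhAs

private theorem gs_ball_finite (m r : ℕ) : {v : Fin m → ℤ | ∑ i, |v i| ≤ (r : ℤ)}.Finite := by
  refine (Set.finite_Icc (fun _ : Fin m => -(r : ℤ)) (fun _ => (r : ℤ))).subset ?_
  intro v hv
  have h : ∀ i, |v i| ≤ (r : ℤ) := fun i =>
    (Finset.single_le_sum (f := fun i => |v i|) (fun j _ => abs_nonneg _)
      (Finset.mem_univ i)).trans hv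
  exact ⟨fun i => (abs_le.1 (h i)).1, fun i => (abs_le.1 (h i)).2⟩

private theorem gs_gcd_dvd {m g : ℕ} {x : Fin m → ℤ} (hx : (Finset.univ.gcd x).natAbs = g)
    (i : Fin m) : (g : ℤ) ∣ x i := by
  rw [← hx, Int.natAbs_dvd]
  exact Finset.gcd_dvd (Finset.mem_univ i)

open Classical in
private theorem gs_fib {m h g : ℕ} (hg : 1 ≤ g) (B : Finset (Fin m → ℤ))
    (hB : ∀ x ∈ B, ∑ i, |x i| ≤ 2 * (h : ℤ)) :
    (B.filter fun x => (Finset.univ.gcd x).natAbs = g).card ≤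
      Nat.card {v : Fin m → ℤ // ∑ i, |v i| ≤ ((2 * h / g : ℕ) : ℤ)} := by
  have hfin := gs_ball_finite m (2 * h / g)
  have hcard : Nat.card {v : Fin m → ℤ // ∑ i, |v i| ≤ ((2 * h / g : ℕ) : ℤ)} =
      hfin.toFinset.card := by
    rw [← Set.ncard_eq_toFinset_card _ hfin]
    exact Nat.card_coe_set_eq _
  have hg0 : (0 : ℤ) < g := by exact_mod_cast hg
  rw [hcard]
  refine Finset.card_le_card_of_injOn (fun x i => x i / (g : ℤ)) ?_ ?_
  · intro x hx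
    rw [Finset.mem_coe, Finset.mem_filter] at hx
    have hd := gs_gcd_dvd hx.2
    rw [Finset.mem_coe, Set.Finite.mem_toFinset]
    change ∑ i, |x i / (g : ℤ)| ≤ ((2 * h / g : ℕ) : ℤ)
    rw [Int.natCast_div]
    apply Int.le_ediv_of_mul_le hg0
    rw [Finset.sum_mul]
    calc ∑ i, |x i / (g : ℤ)| * (g : ℤ) = ∑ i, |x i| := by
          refine Finset.sum_congr rfl fun i _ => ?_
          have h1 : |x i / (g : ℤ)| * (g : ℤ) = |x i / (g : ℤ) * (g : ℤ)| := by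
            rw [abs_mul, abs_of_pos hg0]
          rw [h1, Int.ediv_mul_cancel (hd i)]
      _ ≤ 2 * (h : ℤ) := hB x hx.1
      _ = ((2 * h : ℕ) : ℤ) := by push_cast; ring
  · intro x hx y hy hxy
    rw [Finset.mem_coe, Finset.mem_filter] at hx hy
    funext i
    have h1 : x i / (g : ℤ) = y i / (g : ℤ) := congrFun hxy i
    rw [← Int.ediv_mul_cancel (gs_gcd_dvd hx.2 i), ← Int.ediv_mul_cancel (gs_gcd_dvd hy.2 i), h1]

private theorem gs_vol {m h g : ℕ} (hm : 1 ≤ m) (hg : 1 ≤ g) :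
    (Nat.card {v : Fin m → ℤ // ∑ i, |v i| ≤ ((2 * h / g : ℕ) : ℤ)} : ℝ) ≤
      (3 * (4 * (h : ℝ) / (g * m) + 1)) ^ m := by
  have h1 := card_ball m (2 * h / g)
  set V := Nat.card {v : Fin m → ℤ // ∑ i, |v i| ≤ ((2 * h / g : ℕ) : ℤ)} with hV
  have hm0 : (0 : ℝ) < m := by exact_mod_cast hm
  have hg0 : (0 : ℝ) < g := by exact_mod_cast hg
  have hf0 : (0 : ℝ) < m.factorial := by exact_mod_cast m.factorial_pos
  have h2 : (V : ℝ) * m.factorial ≤ (2 * ((2 * h / g : ℕ) : ℝ) + m) ^ m := by exact_mod_cast h1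
  have h3 : 2 * ((2 * h / g : ℕ) : ℝ) + m ≤ m * (4 * (h : ℝ) / (g * m) + 1) := by
    have h4 : ((2 * h / g : ℕ) : ℝ) ≤ ((2 * h : ℕ) : ℝ) / g := Nat.cast_div_le
    have h5 : (m : ℝ) * (4 * (h : ℝ) / (g * m) + 1) = 2 * (((2 * h : ℕ) : ℝ) / g) + m := by
      push_cast
      field_simp
      ring
    rw [h5]
    linarith
  have h6 : (m : ℝ) ^ m / m.factorial ≤ 3 ^ m := by
    refine (Real.pow_div_factorial_le_exp (m : ℝ) hm0.le m).trans ?_
    rw [← mul_one (m : ℝ), Real.exp_nat_mul]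
    exact pow_le_pow_left₀ (Real.exp_pos 1).le (by linarith [Real.exp_one_lt_d9]) m
  have h7 : (V : ℝ) ≤ (m * (4 * (h : ℝ) / (g * m) + 1)) ^ m / m.factorial := by
    rw [le_div_iff₀ hf0]
    exact h2.trans (pow_le_pow_left₀ (by positivity) h3 m)
  calc (V : ℝ) ≤ (m * (4 * (h : ℝ) / (g * m) + 1)) ^ m / m.factorial := h7
    _ = (m : ℝ) ^ m / m.factorial * (4 * (h : ℝ) / (g * m) + 1) ^ m := by
        rw [mul_pow]
        ring
    _ ≤ 3 ^ m * (4 * (h : ℝ) / (g * m) + 1) ^ m :=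
        mul_le_mul_of_nonneg_right h6 (by positivity)
    _ = (3 * (4 * (h : ℝ) / (g * m) + 1)) ^ m := (mul_pow _ _ _).symm

private theorem gs_term {m h g : ℕ} (hm : 3 ≤ m) (hg : 1 ≤ g) :
    (g : ℝ) * (3 * (4 * (h : ℝ) / (g * m) + 1)) ^ m ≤
      (24 * ((h : ℝ) / m)) ^ m * (1 / (g : ℝ) ^ 2) + 6 ^ m * g := by
  have hm0 : (0 : ℝ) < m := by
    have : 0 < m := by omega
    exact_mod_cast this
  have hg1 : (1 : ℝ) ≤ g := by exact_mod_cast hg
  have hg0 : (0 : ℝ) < g := by linarith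
  have hx : (0 : ℝ) ≤ (h : ℝ) / m := by positivity
  have hu : 4 * (h : ℝ) / (g * m) = 4 * ((h : ℝ) / m) / g := by
    field_simp
  rw [hu]
  set x := (h : ℝ) / m with hxd
  rcases le_or_gt 1 (4 * x / g) with h1 | h1
  · have h2 : 3 * (4 * x / g + 1) ≤ 24 * x / g := by
      have : 24 * x / g = 6 * (4 * x / g) := by ring
      rw [this]
      linarith
    have h3 : (3 * (4 * x / g + 1)) ^ m ≤ (24 * x / g) ^ m :=
      pow_le_pow_left₀ (by positivity) h2 m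
    have h4 : (g : ℝ) * (24 * x / g) ^ m ≤ (24 * x) ^ m * (1 / (g : ℝ) ^ 2) := by
      rw [div_pow]
      have h5 : (g : ℝ) ^ 3 ≤ (g : ℝ) ^ m := pow_le_pow_right₀ hg1 hm
      have h6 : (g : ℝ) / (g : ℝ) ^ m ≤ 1 / (g : ℝ) ^ 2 := by
        rw [div_le_div_iff₀ (by positivity) (by positivity)]
        calc (g : ℝ) * (g : ℝ) ^ 2 = (g : ℝ) ^ 3 := by ring
          _ ≤ (g : ℝ) ^ m := h5
          _ = 1 * (g : ℝ) ^ m := (one_mul _).symm
      calc (g : ℝ) * ((24 * x) ^ m / (g : ℝ) ^ m) = (24 * x) ^ m * ((g : ℝ) / (g : ℝ) ^ m) := by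
            ring
        _ ≤ (24 * x) ^ m * (1 / (g : ℝ) ^ 2) := mul_le_mul_of_nonneg_left h6 (by positivity)
    have h7 : (0 : ℝ) ≤ 6 ^ m * g := by positivity
    have h8 := mul_le_mul_of_nonneg_left h3 hg0.le
    linarith
  · have h2 : 3 * (4 * x / g + 1) ≤ 6 := by linarith
    have h3 : (3 * (4 * x / g + 1)) ^ m ≤ 6 ^ m := pow_le_pow_left₀ (by positivity) h2 m
    have h4 : (0 : ℝ) ≤ (24 * x) ^ m * (1 / (g : ℝ) ^ 2) := by positivity
    have h5 := mul_le_mul_of_nonneg_left h3 hg0.le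
    linarith

private theorem gs_sq (N : ℕ) : 1 ≤ N →
    ∑ g ∈ Finset.Icc 1 N, 1 / (g : ℝ) ^ 2 ≤ 2 - 1 / (N : ℝ) := by
  intro h
  induction N, h using Nat.le_induction with
  | base => norm_num
  | succ n hn ih =>
    rw [Finset.sum_Icc_succ_top (by omega)]
    have hn0 : (0 : ℝ) < n := by exact_mod_cast hn
    have h1 : 1 / (((n + 1 : ℕ) : ℝ)) ^ 2 ≤ 1 / (n : ℝ) - 1 / ((n + 1 : ℕ) : ℝ) := by
      push_cast
      rw [div_sub_div _ _ hn0.ne' (by positivity), div_le_div_iff₀ (by positivity) (by positivity)]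
      nlinarith
    linarith

private theorem gs_lin (N : ℕ) : ∑ g ∈ Finset.Icc 1 N, (g : ℝ) = N * (N + 1) / 2 := by
  induction N with
  | zero => simp
  | succ n ih =>
    rw [Finset.sum_Icc_succ_top (by omega), ih]
    push_cast
    ring

private theorem gs_pow (m : ℕ) (hm : 3 ≤ m) : 24 * (m : ℝ) ^ 2 ≤ (10 : ℝ) ^ m := by
  induction m, hm using Nat.le_induction with
  | base => norm_num
  | succ n hn ih =>
    have hn0 : (3 : ℝ) ≤ n := by exact_mod_cast hn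
    have h1 : (10 : ℝ) ^ (n + 1) = 10 * 10 ^ n := by ring
    rw [h1]
    push_cast
    nlinarith

open Classical in
theorem gcd_sum {m h : ℕ} (hm : 3 ≤ m) (hh : m ≤ h) (B : Finset (Fin m → ℤ))
    (hB : ∀ x ∈ B, x ≠ 0 ∧ ∑ i, |x i| ≤ 2 * h) :
    ∑ x ∈ B, ((Finset.univ.gcd x).natAbs : ℝ) < (64 * (h : ℝ) / m) ^ m := by
  have hm0 : (0 : ℝ) < m := by
    have : 0 < m := by omega
    exact_mod_cast this
  have hx1 : (1 : ℝ) ≤ (h : ℝ) / m := by
    rw [le_div_iff₀ hm0, one_mul]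
    exact_mod_cast hh
  have hmaps : ∀ x ∈ B, (Finset.univ.gcd x).natAbs ∈ Finset.Icc 1 (2 * h) := by
    intro x hx
    obtain ⟨hx0, hxs⟩ := hB x hx
    obtain ⟨i, hi⟩ : ∃ i, x i ≠ 0 := by
      by_contra hcon
      push Not at hcon
      exact hx0 (funext hcon)
    have hd := gs_gcd_dvd (g := (Finset.univ.gcd x).natAbs) (x := x) rfl i
    rw [Finset.mem_Icc]
    constructor
    · rw [Nat.one_le_iff_ne_zero]
      intro h0
      rw [h0] at hd
      exact hi (by simpa using hd)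
    · have h1 : (((Finset.univ.gcd x).natAbs : ℕ) : ℤ) ≤ |x i| :=
        Int.le_of_dvd (abs_pos.2 hi) ((dvd_abs _ _).2 hd)
      have h2 : |x i| ≤ ∑ i, |x i| :=
        Finset.single_le_sum (f := fun i => |x i|) (fun j _ => abs_nonneg _) (Finset.mem_univ i)
      have h3 := h1.trans (h2.trans hxs)
      exact_mod_cast h3
  have hstep : ∑ x ∈ B, ((Finset.univ.gcd x).natAbs : ℝ) ≤ ∑ g ∈ Finset.Icc 1 (2 * h),
      ((24 * ((h : ℝ) / m)) ^ m * (1 / (g : ℝ) ^ 2) + 6 ^ m * g) := by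
    rw [← Finset.sum_fiberwise_of_maps_to hmaps]
    refine Finset.sum_le_sum fun g hg => ?_
    have hg1 : 1 ≤ g := (Finset.mem_Icc.1 hg).1
    have h1 : ∑ x ∈ B with (Finset.univ.gcd x).natAbs = g, ((Finset.univ.gcd x).natAbs : ℝ) =
        ((B.filter fun x => (Finset.univ.gcd x).natAbs = g).card : ℝ) * g := by
      rw [Finset.sum_congr rfl (g := fun _ => (g : ℝ)) fun x hx => by
        rw [(Finset.mem_filter.1 hx).2], Finset.sum_const, nsmul_eq_mul]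
    rw [h1]
    have h2 : ((B.filter fun x => (Finset.univ.gcd x).natAbs = g).card : ℝ) ≤
        (Nat.card {v : Fin m → ℤ // ∑ i, |v i| ≤ ((2 * h / g : ℕ) : ℤ)} : ℝ) := by
      exact_mod_cast gs_fib hg1 B fun x hx => (hB x hx).2
    have h3 := h2.trans (gs_vol (m := m) (h := h) (by omega) hg1)
    calc ((B.filter fun x => (Finset.univ.gcd x).natAbs = g).card : ℝ) * g
        ≤ (3 * (4 * (h : ℝ) / (g * m) + 1)) ^ m * g :=
          mul_le_mul_of_nonneg_right h3 (by positivity)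
      _ = (g : ℝ) * (3 * (4 * (h : ℝ) / (g * m) + 1)) ^ m := mul_comm _ _
      _ ≤ _ := gs_term hm hg1
  refine lt_of_le_of_lt hstep ?_
  rw [Finset.sum_add_distrib, ← Finset.mul_sum, ← Finset.mul_sum, gs_lin]
  have hh0 : 1 ≤ 2 * h := by omega
  have hsq : ∑ g ∈ Finset.Icc 1 (2 * h), 1 / (g : ℝ) ^ 2 ≤ 2 := by
    refine (gs_sq _ hh0).trans ?_
    have : (0 : ℝ) ≤ 1 / ((2 * h : ℕ) : ℝ) := by positivity
    linarith
  have h64 : 64 * (h : ℝ) / m = 64 * ((h : ℝ) / m) := by ring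
  have hhx : (h : ℝ) = m * ((h : ℝ) / m) := by field_simp
  rw [h64]
  set x := (h : ℝ) / m with hxd
  have hx0 : (0 : ℝ) < x := by linarith
  set P : ℝ := (64 * x) ^ m with hP
  have hP0 : 0 < P := by positivity
  have h1 : (24 * x) ^ m * ∑ g ∈ Finset.Icc 1 (2 * h), 1 / (g : ℝ) ^ 2 ≤ P / 8 := by
    have h2 : (24 * x) ^ m = (3 / 8) ^ m * P := by
      rw [hP, ← mul_pow]
      congr 1
      ring
    have h3 : ((3 : ℝ) / 8) ^ m ≤ (3 / 8) ^ 3 :=
      pow_le_pow_of_le_one (by norm_num) (by norm_num) hm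
    have h4 : (24 * x) ^ m ≤ (3 / 8) ^ 3 * P := by
      rw [h2]
      exact mul_le_mul_of_nonneg_right h3 hP0.le
    calc (24 * x) ^ m * ∑ g ∈ Finset.Icc 1 (2 * h), 1 / (g : ℝ) ^ 2
        ≤ (24 * x) ^ m * 2 := mul_le_mul_of_nonneg_left hsq (by positivity)
      _ ≤ (3 / 8) ^ 3 * P * 2 := mul_le_mul_of_nonneg_right h4 (by norm_num)
      _ ≤ P / 8 := by
          norm_num
          linarith
  have h5 : (6 : ℝ) ^ m * (((2 * h : ℕ) : ℝ) * (((2 * h : ℕ) : ℝ) + 1) / 2) ≤ P / 8 := by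
    have hh1 : (1 : ℝ) ≤ h := by
      have : 1 ≤ h := by omega
      exact_mod_cast this
    have h6 : ((2 * h : ℕ) : ℝ) * (((2 * h : ℕ) : ℝ) + 1) / 2 ≤ 3 * (h : ℝ) ^ 2 := by
      push_cast
      nlinarith
    have h7 : 3 * (h : ℝ) ^ 2 = 3 * (m : ℝ) ^ 2 * x ^ 2 := by
      rw [hhx]
      ring
    have h8 : x ^ 2 ≤ x ^ m := pow_le_pow_right₀ hx1 (by omega)
    have h9 := gs_pow m hm
    have h10 : (60 : ℝ) ^ m ≤ 64 ^ m := pow_le_pow_left₀ (by norm_num) (by norm_num) m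
    have h11 : (60 : ℝ) ^ m = 6 ^ m * 10 ^ m := by
      rw [← mul_pow]
      norm_num
    have h12 : P = 64 ^ m * x ^ m := mul_pow _ _ _
    calc (6 : ℝ) ^ m * (((2 * h : ℕ) : ℝ) * (((2 * h : ℕ) : ℝ) + 1) / 2)
        ≤ 6 ^ m * (3 * (m : ℝ) ^ 2 * x ^ 2) := by
          rw [← h7]
          exact mul_le_mul_of_nonneg_left h6 (by positivity)
      _ = (6 ^ m * (24 * (m : ℝ) ^ 2)) * x ^ 2 / 8 := by ring
      _ ≤ (6 ^ m * 10 ^ m) * x ^ 2 / 8 := by
          have := mul_le_mul_of_nonneg_left h9 (show (0 : ℝ) ≤ 6 ^ m by positivity)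
          have := mul_le_mul_of_nonneg_right this (show (0 : ℝ) ≤ x ^ 2 by positivity)
          linarith
      _ ≤ 64 ^ m * x ^ m / 8 := by
          rw [← h11]
          have := mul_le_mul h10 h8 (by positivity) (by positivity)
          linarith
      _ = P / 8 := by rw [h12]
  linarith

end Pool.Agent.SBhAs
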