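import Mathlib
import Pool.Agent.SignedBh.Two
import Pool.Agent.SignedBh.Three
import Pool.Agent.SBhAs.Count
import Pool.Agent.SBhAs.GcdSum

/-!
# Signed systems by counting (package T19 of MP_f688e9_co, Thresholds)

PROOF. `m ≥ 3`: let `B` be the finite set of all `x ≠ 0` in `ℤ^m` with `∑ |x i| ≤ 2h` (a subset of
the box `|x i| ≤ 2h`, `Fintype.piFinset fun _ => Finset.Icc (-2h) (2h)` filtered). For `x ∈ B` the
number of `a : Fin m → ZMod n` with `∑ x i a i = 0` is at most `n^(m-1) gcd x` (`card_sol`), so the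
number of the `a` for which some `x ∈ B` is a relation is at most `(n^m / n) ∑_{x ∈ B} gcd x <
(n^m / n) (64h/m)^m ≤ n^m` (`gcd_sum`). So some `a` has no relation in `B`: `Lat n h a`
(`Pool.Agent.SignedBh.Lat`; evenness is not used), and `Lat.le_sigmaPM` gives `m ≤ sigmaPM n h`.
`n > 0` because `n ≥ (64h/m)^m > 0`.
`m = 1`: `n ≥ 64 h > 2h`, `one_le_iff` (`n ∤ 2h`). `m = 2`: `n ≥ 1024 h² ≥ (h+1)(h+2)`,
`two_le_iff` and `Cond` in `Pool/Agent/SignedBh/Two.lean`.
-/

namespace Pool.Agent.SBhAs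

open Pool.Agent.SignedBh

private theorem upp_three {m n h : ℕ} (hm : 3 ≤ m) (hh : m ≤ h) (hn0 : 0 < n)
    (hn : (64 * (h : ℝ) / m) ^ m ≤ n) : m ≤ sigmaPM n h := by
  classical
  have : NeZero n := ⟨hn0.ne'⟩
  let B : Finset (Fin m → ℤ) :=
    (Fintype.piFinset fun _ : Fin m => Finset.Icc (-(2 * (h : ℤ))) (2 * h)).filter
      fun x => x ≠ 0 ∧ ∑ i, |x i| ≤ 2 * h
  have hB : ∀ x ∈ B, x ≠ 0 ∧ ∑ i, |x i| ≤ 2 * h := fun x hx => (Finset.mem_filter.1 hx).2
  have hsum := gcd_sum hm hh B hB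
  let Sol : (Fin m → ℤ) → Finset (Fin m → ZMod n) := fun x =>
    Finset.univ.filter fun a => ∑ i, (x i : ZMod n) * a i = 0
  have hSol : ∀ x ∈ B, (Sol x).card * n ≤ n ^ m * (Finset.univ.gcd x).natAbs := by
    intro x hx
    have h1 := card_sol n hn0 x (hB x hx).1
    rw [Nat.card_eq_fintype_card, Fintype.card_subtype] at h1
    exact h1
  have hex : ∃ a : Fin m → ZMod n, ∀ x ∈ B, a ∉ Sol x := by
    by_contra hcon
    push Not at hcon
    have h1 : (Finset.univ : Finset (Fin m → ZMod n)) ⊆ B.biUnion Sol := by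
      intro a _
      obtain ⟨x, hx, hax⟩ := hcon a
      exact Finset.mem_biUnion.2 ⟨x, hx, hax⟩
    have h2 : n ^ m ≤ ∑ x ∈ B, (Sol x).card := by
      have h3 := (Finset.card_le_card h1).trans Finset.card_biUnion_le
      rw [Finset.card_univ, Fintype.card_fun, ZMod.card, Fintype.card_fin] at h3
      exact h3
    have h3 : n ^ m * n ≤ n ^ m * ∑ x ∈ B, (Finset.univ.gcd x).natAbs := by
      calc n ^ m * n ≤ (∑ x ∈ B, (Sol x).card) * n := Nat.mul_le_mul_right n h2
        _ = ∑ x ∈ B, (Sol x).card * n := Finset.sum_mul _ _ _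
        _ ≤ ∑ x ∈ B, n ^ m * (Finset.univ.gcd x).natAbs := Finset.sum_le_sum hSol
        _ = _ := (Finset.mul_sum _ _ _).symm
    have h4 : n ≤ ∑ x ∈ B, (Finset.univ.gcd x).natAbs :=
      Nat.le_of_mul_le_mul_left h3 (pow_pos hn0 m)
    have h5 : (n : ℝ) ≤ ∑ x ∈ B, ((Finset.univ.gcd x).natAbs : ℝ) := by exact_mod_cast h4
    exact absurd (lt_of_le_of_lt h5 hsum) (not_lt.2 hn)
  obtain ⟨a, ha⟩ := hex
  have hlat : Lat n h a := by
    intro d _ hd hda
    by_contra hne
    refine ha d (Finset.mem_filter.2 ⟨?_, hne, hd⟩) (Finset.mem_filter.2 ⟨Finset.mem_univ _, hda⟩)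
    rw [Fintype.mem_piFinset]
    intro i
    have h1 : |d i| ≤ ∑ i, |d i| :=
      Finset.single_le_sum (f := fun i => |d i|) (fun j _ => abs_nonneg (d j)) (Finset.mem_univ i)
    rw [Finset.mem_Icc, ← abs_le]
    exact h1.trans hd
  have h1 := hlat.le_sigmaPM (by omega) hn0
  rwa [Fintype.card_fin] at h1

theorem upperA {m n h : ℕ} (hm : 1 ≤ m) (hh : m ≤ h) (hn : (64 * (h : ℝ) / m) ^ m ≤ n) :
    m ≤ sigmaPM n h := by
  have hmR : (0 : ℝ) < m := by exact_mod_cast hm
  have hhR : (0 : ℝ) < h := by exact_mod_cast (by omega : 0 < h)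
  have hn0 : 0 < n := by
    have h1 : (0 : ℝ) < (64 * (h : ℝ) / m) ^ m := by positivity
    exact_mod_cast lt_of_lt_of_le h1 hn
  rcases Nat.lt_or_ge m 3 with h3 | h3
  · interval_cases m
    · have h1 : 64 * h ≤ n := by
        have h2 : ((64 * h : ℕ) : ℝ) ≤ n := by
          push_cast
          simpa using hn
        exact_mod_cast h2
      rw [one_le_iff hn0 (by omega)]
      intro hdvd
      have := Nat.le_of_dvd (by omega) hdvd
      omega
    · have h1 : 1024 * h ^ 2 ≤ n := by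
        have h2 : ((1024 * h ^ 2 : ℕ) : ℝ) ≤ n := by
          refine le_trans (le_of_eq ?_) hn
          push_cast
          ring
        exact_mod_cast h2
      rw [two_le_iff hn0 (by omega)]
      have h2 : (h + 1) * (h + 2) ≤ n := by nlinarith
      refine ⟨?_, Or.inr (Or.inr h2)⟩
      nlinarith
  · exact upp_three h3 hh hn0 hn

end Pool.Agent.SBhAs
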