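import Mathlib

/-!
# The constant `kappa m`

`kappa m` is the infimum of `[ℤ^m : L] / r^m` over all subgroups `L` of finite index of `ℤ^m` and
all `r ≥ 1` such that all nonzero vectors of `L` have `ℓ₁`-norm at least `r` (the critical
determinant of the cross-polytope).
-/

namespace Pool.Agent.SBhAs

/-- all nonzero vectors of `L` have `ℓ₁`-norm at least `r` -/
def MinGe {m : ℕ} (L : AddSubgroup (Fin m → ℤ)) (r : ℕ) : Prop :=
  ∀ v ∈ L, v ≠ 0 → (r : ℤ) ≤ ∑ i, |v i|

/-- the infimum of `[ℤ^m : L] / r^m` over all subgroups `L` of `ℤ^m` of finite index and all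
`r ≥ 1` such that all nonzero vectors of `L` have `ℓ₁`-norm at least `r` -/
noncomputable def kappa (m : ℕ) : ℝ :=
  sInf {x : ℝ | ∃ (L : AddSubgroup (Fin m → ℤ)) (r : ℕ), L.index ≠ 0 ∧ 1 ≤ r ∧ MinGe L r ∧
    x = (L.index : ℝ) / (r : ℝ) ^ m}

end Pool.Agent.SBhAs
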