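import Mathlib
import Pool.Agent.SBhAs.Defs

/-!
# The constant `kappa m` (package T11 of MP_f688e9_co, Thresholds)

`kappa m` is the infimum of `[ℤ^m : L] / r^m` over all subgroups `L` of finite index of `ℤ^m` and
all `r ≥ 1` such that all nonzero vectors of `L` have `ℓ₁`-norm at least `r` (the critical
determinant of the cross-polytope).

PROOFS. The set is bounded below by `0`, which gives `kappa_le`; it is nonempty (`L = ⊤`, `r = 1`:
index `1`, a nonzero integer vector has norm `≥ 1`), so `Real.lt_sInf_iff`/`exists_lt_of_csInf_lt`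
gives `exists_lt`. `index_ge`: let `s = ⌊(r-1)/m⌋ + 1`, so `m (s-1) ≤ r - 1 < r` and `r ≤ m s`. The
`s^m` vectors `v` with `0 ≤ v i ≤ s-1` (take `(i : Fin m) → Fin s`) are pairwise incongruent modulo
`L`: the difference of two of them has norm `≤ m (s-1) < r`. So `s^m ≤ L.index`, and
`r^m ≤ m^m s^m ≤ m^m L.index`. `kappa_pos`: all elements `x` of the set satisfy `x ≥ 1/m^m`
(`index_ge`; `m ≥ 1`), so `kappa m ≥ 1/m^m > 0` (`le_csInf`).
-/

namespace Pool.Agent.SBhAs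

theorem kappa_le {m : ℕ} {L : AddSubgroup (Fin m → ℤ)} {r : ℕ} (hL : L.index ≠ 0) (hr : 1 ≤ r)
    (h : MinGe L r) : kappa m ≤ (L.index : ℝ) / (r : ℝ) ^ m := by
  refine csInf_le ⟨0, ?_⟩ ⟨L, r, hL, hr, h, rfl⟩
  rintro x ⟨L', r', _, _, _, rfl⟩
  positivity

private theorem kap_nonempty (m : ℕ) :
    {x : ℝ | ∃ (L : AddSubgroup (Fin m → ℤ)) (r : ℕ), L.index ≠ 0 ∧ 1 ≤ r ∧ MinGe L r ∧
      x = (L.index : ℝ) / (r : ℝ) ^ m}.Nonempty := by
  refine ⟨_, ⊤, 1, ?_, le_refl 1, ?_, rfl⟩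
  · rw [AddSubgroup.index_top]
    exact one_ne_zero
  · intro v _ hv
    obtain ⟨i, hi⟩ := Function.ne_iff.1 hv
    have h1 : (1 : ℤ) ≤ |v i| := Int.one_le_abs hi
    have h2 : |v i| ≤ ∑ i, |v i| :=
      Finset.single_le_sum (f := fun i => |v i|) (fun j _ => abs_nonneg (v j)) (Finset.mem_univ i)
    push_cast
    exact h1.trans h2

theorem exists_lt {m : ℕ} {c : ℝ} (hc : kappa m < c) :
    ∃ (L : AddSubgroup (Fin m → ℤ)) (r : ℕ), L.index ≠ 0 ∧ 1 ≤ r ∧ MinGe L r ∧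
      (L.index : ℝ) < c * (r : ℝ) ^ m := by
  obtain ⟨x, ⟨L, r, hL, hr, h, rfl⟩, hx⟩ := exists_lt_of_csInf_lt (kap_nonempty m) hc
  refine ⟨L, r, hL, hr, h, ?_⟩
  have h0 : (0 : ℝ) < (r : ℝ) ^ m := by
    have : (0 : ℝ) < r := by exact_mod_cast hr
    positivity
  exact (div_lt_iff₀ h0).1 hx

theorem index_ge {m : ℕ} (hm : 1 ≤ m) {L : AddSubgroup (Fin m → ℤ)} {r : ℕ} (hL : L.index ≠ 0)
    (h : MinGe L r) : r ^ m ≤ m ^ m * L.index := by
  rcases Nat.eq_zero_or_pos r with h0 | h0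
  · rw [h0, zero_pow (by omega)]
    exact Nat.zero_le _
  set s : ℕ := (r - 1) / m + 1 with hs
  have h1 : m * (s - 1) ≤ r - 1 := by
    rw [hs, Nat.add_sub_cancel]
    exact Nat.mul_div_le (r - 1) m
  have h2 : r ≤ m * s := by
    have := Nat.lt_mul_div_succ (r - 1) (Nat.pos_of_ne_zero (by omega : m ≠ 0))
    rw [hs]
    omega
  let f : (Fin m → Fin s) → (Fin m → ℤ) ⧸ L := fun v =>
    ((fun i => ((v i : ℕ) : ℤ) : Fin m → ℤ) : (Fin m → ℤ) ⧸ L)
  have hf : Function.Injective f := by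
    intro v v' hvv
    have h3 : (-(fun i => ((v i : ℕ) : ℤ) : Fin m → ℤ) + fun i => ((v' i : ℕ) : ℤ)) ∈ L :=
      QuotientAddGroup.eq.1 hvv
    by_contra hne
    have h4 : (-(fun i => ((v i : ℕ) : ℤ) : Fin m → ℤ) + fun i => ((v' i : ℕ) : ℤ)) ≠ 0 := by
      intro h5
      apply hne
      funext i
      have h6 := congrFun h5 i
      simp only [Pi.add_apply, Pi.neg_apply, Pi.zero_apply] at h6
      apply Fin.ext
      omega
    have h5 := h _ h3 h4
    have h6 : ∑ i, |(-(fun i => ((v i : ℕ) : ℤ) : Fin m → ℤ) +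
        fun i => ((v' i : ℕ) : ℤ)) i| ≤ ∑ _i : Fin m, ((s - 1 : ℕ) : ℤ) := by
      refine Finset.sum_le_sum fun i _ => ?_
      simp only [Pi.add_apply, Pi.neg_apply]
      have h7 := (v i).2
      have h8 := (v' i).2
      rw [abs_le]
      constructor <;> omega
    rw [Finset.sum_const, Finset.card_univ, Fintype.card_fin, nsmul_eq_mul] at h6
    have h7 : ((m * (s - 1) : ℕ) : ℤ) ≤ ((r - 1 : ℕ) : ℤ) := by exact_mod_cast h1
    push_cast at h6 h7
    omega
  have hfin : Finite ((Fin m → ℤ) ⧸ L) := Nat.finite_of_card_ne_zero hL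
  have h3 := Nat.card_le_card_of_injective f hf
  rw [Nat.card_eq_fintype_card, Fintype.card_fun, Fintype.card_fin, Fintype.card_fin] at h3
  have h4 : s ^ m ≤ L.index := h3
  calc r ^ m ≤ (m * s) ^ m := Nat.pow_le_pow_left h2 m
    _ = m ^ m * s ^ m := mul_pow m s m
    _ ≤ m ^ m * L.index := Nat.mul_le_mul_left _ h4

theorem kappa_pos {m : ℕ} (hm : 1 ≤ m) : 0 < kappa m := by
  have hm0 : (0 : ℝ) < (m : ℝ) ^ m := by
    have : (0 : ℝ) < m := by exact_mod_cast hm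
    positivity
  have h1 : 1 / (m : ℝ) ^ m ≤ kappa m := by
    refine le_csInf (kap_nonempty m) ?_
    rintro x ⟨L, r, hL, hr, h, rfl⟩
    have h0 : (0 : ℝ) < (r : ℝ) ^ m := by
      have : (0 : ℝ) < r := by exact_mod_cast hr
      positivity
    rw [div_le_div_iff₀ hm0 h0, one_mul, mul_comm]
    exact_mod_cast index_ge hm hL h
  exact lt_of_lt_of_le (by positivity) h1

end Pool.Agent.SBhAs
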