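import Mathlib
import Pool.Agent.SignedBh.Basic
import Pool.Agent.SignedBh.Three
import Pool.Agent.SBhAs.Kappa

/-!
# Lower bounds for `n` (package T12 of MP_f688e9_co, Thresholds)

PROOF of `lower`. `Pool.Agent.SignedBh.exists_fam` gives `e : Fin m → ZMod n` with `Lat n h e`. Let
`f : (Fin m → ℤ) →+ ZMod n × ZMod 2`, `f v = (∑ (v i : ZMod n) * e i, ∑ (v i : ZMod 2))`, and
`L = f.ker`. `L.index = Nat.card f.range ≤ 2 n` and `≠ 0` (`AddSubgroup.index_ker`; the codomain is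
finite of cardinality `n * 2`, `n > 0`). `MinGe L (2h+2)`: `v ∈ L`, `v ≠ 0`: `∑ |v i|` is even
because `∑ v i` is (`(∑ v i : ZMod 2) = 0`, `ZMod.intCast_zmod_eq_zero_iff_dvd`...; `|x| ≡ x` mod
`2`); if it is `≤ 2h` then `Lat` gives `v = 0`; so it is `> 2h`, hence `≥ 2h+2`. By `kappa_le`
`kappa m ≤ L.index / (2h+2)^m ≤ 2n / (2^m (h+1)^m)`.

PROOF of `lowerA`. `e` as before; `k = h / m`. For `w : Fin m → Fin (k+1)` put
`v i = 2 (w i) - k`; then `|v i| ≤ k`, `v i ≡ k` mod `2`, so `∑ |v i| ≤ m k ≤ h` and any two such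
vectors have norms with even sum. By `Lat.inj` (file `Pool/Agent/SignedBh/Three.lean`) the map
`w ↦ ∑ (v i : ZMod n) * e i` is injective, so `(k+1)^m ≤ card (ZMod n) = n`.
`lowerA'`: `(h/m : ℝ) ≤ k + 1`.
-/

namespace Pool.Agent.SBhAs

open Pool.Agent.SignedBh

/-- the value and the parity of a vector -/
private def vp {m : ℕ} (n : ℕ) (e : Fin m → ZMod n) : (Fin m → ℤ) →+ ZMod n × ZMod 2 where
  toFun v := (∑ i, (v i : ZMod n) * e i, ∑ i, (v i : ZMod 2))
  map_zero' := by simp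
  map_add' v w := by
    simp [add_mul, Finset.sum_add_distrib]

private theorem even_abs {m : ℕ} (v : Fin m → ℤ) (hv : ∑ i, (v i : ZMod 2) = 0) :
    Even (∑ i, |v i|) := by
  have h1 : ((∑ i, v i : ℤ) : ZMod 2) = 0 := by
    rw [Int.cast_sum]
    exact hv
  have h2 : (2 : ℤ) ∣ ∑ i, v i := (ZMod.intCast_zmod_eq_zero_iff_dvd _ 2).1 h1
  have h3 : Even (∑ i, |v i| - ∑ i, v i) := by
    rw [← Finset.sum_sub_distrib]
    refine Finset.even_sum _ (fun i _ => ?_)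
    rcases abs_choice (v i) with h | h
    · rw [h, sub_self]
      exact Even.zero
    · rw [h]
      exact ⟨-v i, by ring⟩
  have h4 := h3.add (even_iff_two_dvd.2 h2)
  rwa [sub_add_cancel] at h4

theorem lower {m n h : ℕ} (hm : 2 ≤ m) (hn : 1 ≤ n) (hσ : m ≤ sigmaPM n h) :
    2 ^ (m - 1) * kappa m * ((h : ℝ) + 1) ^ m ≤ n := by
  obtain ⟨e, he⟩ := exists_fam (by omega : 0 < n) hσ hm
  have : NeZero n := ⟨by omega⟩
  have hidx : (vp n e).ker.index = Nat.card (vp n e).range := AddSubgroup.index_ker _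
  have hle : Nat.card (vp n e).range ≤ n * 2 := by
    have h1 := Nat.card_le_card_of_injective (Subtype.val : (vp n e).range → ZMod n × ZMod 2)
      Subtype.val_injective
    rwa [Nat.card_prod, Nat.card_zmod, Nat.card_zmod] at h1
  have hne : (vp n e).ker.index ≠ 0 := by
    rw [hidx]
    exact Nat.card_pos.ne'
  have hmin : MinGe (vp n e).ker (2 * h + 2) := by
    intro v hv hv0
    have h1 : vp n e v = 0 := hv
    have h2 : ∑ i, (v i : ZMod n) * e i = 0 := congrArg Prod.fst h1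
    have h3 : ∑ i, (v i : ZMod 2) = 0 := congrArg Prod.snd h1
    have h4 := even_abs v h3
    by_contra h5
    push Not at h5
    apply hv0
    refine he v h4 ?_ h2
    obtain ⟨k, hk⟩ := h4
    rw [hk] at h5 ⊢
    push_cast at h5
    omega
  have hk := kappa_le hne (by omega : 1 ≤ 2 * h + 2) hmin
  have h1 : (0 : ℝ) < ((2 * h + 2 : ℕ) : ℝ) ^ m := by positivity
  rw [le_div_iff₀ h1] at hk
  have h2 : ((vp n e).ker.index : ℝ) ≤ n * 2 := by
    rw [hidx]
    exact_mod_cast hle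
  have h3 : ((2 * h + 2 : ℕ) : ℝ) ^ m = 2 * (2 ^ (m - 1) * ((h : ℝ) + 1) ^ m) := by
    have h4 : ((2 * h + 2 : ℕ) : ℝ) = 2 * ((h : ℝ) + 1) := by
      push_cast
      ring
    have h5 : (2 : ℝ) ^ m = 2 * 2 ^ (m - 1) := by
      rw [← pow_succ', Nat.sub_add_cancel (by omega)]
    rw [h4, mul_pow, h5]
    ring
  rw [h3] at hk
  have h6 : 2 ^ (m - 1) * kappa m * ((h : ℝ) + 1) ^ m * 2 ≤ n * 2 := by
    calc 2 ^ (m - 1) * kappa m * ((h : ℝ) + 1) ^ m * 2
        = kappa m * (2 * (2 ^ (m - 1) * ((h : ℝ) + 1) ^ m)) := by ring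
      _ ≤ ((vp n e).ker.index : ℝ) := hk
      _ ≤ n * 2 := h2
  linarith

theorem lowerA {m n h : ℕ} (hm : 2 ≤ m) (hn : 1 ≤ n) (hσ : m ≤ sigmaPM n h) :
    (h / m + 1) ^ m ≤ n := by
  obtain ⟨e, he⟩ := exists_fam (by omega : 0 < n) hσ hm
  have : NeZero n := ⟨by omega⟩
  obtain ⟨k, hk⟩ : ∃ k, k = h / m := ⟨_, rfl⟩
  rw [← hk]
  have hmk : m * k ≤ h := by
    rw [hk]
    exact Nat.mul_div_le h m
  have hbd : ∀ w : Fin m → Fin (k + 1), ∑ i, |2 * ((w i : ℕ) : ℤ) - k| ≤ h := by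
    intro w
    have h1 : ∑ i, |2 * ((w i : ℕ) : ℤ) - k| ≤ ∑ _i : Fin m, (k : ℤ) := by
      refine Finset.sum_le_sum fun i _ => ?_
      have := (w i).2
      rw [abs_le]
      constructor <;> omega
    rw [Finset.sum_const, Finset.card_univ, Fintype.card_fin, nsmul_eq_mul] at h1
    have h2 : ((m * k : ℕ) : ℤ) ≤ h := by exact_mod_cast hmk
    push_cast at h2
    exact h1.trans h2
  have hev : ∀ w w' : Fin m → Fin (k + 1),
      Even (∑ i, |2 * ((w i : ℕ) : ℤ) - k| + ∑ i, |2 * ((w' i : ℕ) : ℤ) - k|) := by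
    intro w w'
    rw [← Finset.sum_add_distrib]
    refine Finset.even_sum _ (fun i _ => ?_)
    rcases abs_choice (2 * ((w i : ℕ) : ℤ) - k) with h1 | h1 <;>
      rcases abs_choice (2 * ((w' i : ℕ) : ℤ) - k) with h2 | h2 <;> rw [h1, h2, Int.even_iff] <;>
      omega
  have hinj : Function.Injective (fun w : Fin m → Fin (k + 1) =>
      ∑ i, ((2 * ((w i : ℕ) : ℤ) - k : ℤ) : ZMod n) * e i) := by
    intro w w' hw
    have h1 := he.inj (v := fun i => 2 * ((w i : ℕ) : ℤ) - k)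
      (w := fun i => 2 * ((w' i : ℕ) : ℤ) - k) (hbd w) (hbd w') (hev w w') hw
    funext i
    have h2 : 2 * ((w i : ℕ) : ℤ) - k = 2 * ((w' i : ℕ) : ℤ) - k := congrFun h1 i
    exact Fin.ext (by omega)
  have h1 := Fintype.card_le_of_injective _ hinj
  rwa [Fintype.card_fun, Fintype.card_fin, Fintype.card_fin, ZMod.card] at h1

theorem lowerA' {m n h : ℕ} (hm : 2 ≤ m) (hn : 1 ≤ n) (hσ : m ≤ sigmaPM n h) :
    ((h : ℝ) / m) ^ m ≤ n := by
  have h1 := lowerA hm hn hσ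
  have h2 : ((h : ℝ) / m) ≤ ((h / m + 1 : ℕ) : ℝ) := by
    rw [div_le_iff₀ (by positivity)]
    have h3 : h ≤ (h / m + 1) * m := by
      have h4 := Nat.div_add_mod h m
      have h5 := Nat.mod_lt h (by omega : 0 < m)
      nlinarith
    exact_mod_cast h3
  calc ((h : ℝ) / m) ^ m ≤ ((h / m + 1 : ℕ) : ℝ) ^ m := pow_le_pow_left₀ (by positivity) h2 m
    _ ≤ n := by exact_mod_cast h1

end Pool.Agent.SBhAs
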