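import Mathlib
import Pool.Agent.SBhAs.Lower
import Pool.Agent.SBhAs.Upper

/-!
# The asymptotic formula for `h` large against `log n` (package T20 of MP_f688e9_co, Thresholds)

`Λ = log n > 0`, `y = h/Λ ≥ K`, `X = Λ/log y`; WLOG `ε ≤ 1/2` (for larger `ε` the statement is
weaker, `X > 0`). `K = K(ε)` large; `h = yΛ`.

UPPER BOUND. Suppose `σ > X + ε X + 1`, `σ = sigmaPM n h`. Then `σ ≥ 2`. Let `m` be the least
integer with `m ≥ 2` and `m ≥ (1+ε) X`; `m ≤ σ`. `lowerA'`: `(h/m)^m ≤ n`, so `m log(h/m) ≤ Λ`.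
(a) `(1+ε) X > 1`: `m ≤ (1+ε) X + 1 < 2 (1+ε) X ≤ 3 X` (if `m = 2` use `2 < 2(1+ε)X`), so
`h/m ≥ yΛ/(3X) = y log y/3 ≥ y` (`log y ≥ 3`), hence `Λ ≥ m log y`. `m ≥ (1+ε) X` gives
`Λ ≥ (1+ε) X log y = (1+ε) Λ`, a contradiction.
(b) `(1+ε) X ≤ 1`: `m = 2`, `(h/2)^2 ≤ n`; `X ≤ 1` means `Λ ≤ log y`, `n = e^Λ ≤ y`. So
`y² Λ²/4 ≤ y`, `y ≤ 4/Λ² ≤ 4/(log 2)² < 9`, a contradiction.

LOWER BOUND. `m = ⌊(1-ε) X⌋₊`. If `m = 0` then `X - εX - 1 < 0 ≤ σ`. Let `m ≥ 1`; it suffices that
`m ≤ σ` (`m > (1-ε)X - 1`). `upperA`: `m ≤ X = h/(y log y) ≤ h`. `(1-ε) X < m + 1 ≤ 2m`, so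
`64 h/m ≤ 128 yΛ/((1-ε) X) ≤ 256 y log y` and
`m log(64h/m) ≤ (1-ε) X log(256 y log y) = (1-ε) Λ (log y + log log y + log 256)/log y ≤ Λ` for
`y ≥ K(ε)` because `(log log y + log 256)/log y → 0` (needs `≤ ε` : `(1-ε)(1+ε) ≤ 1`).
Exponentiate.
-/

namespace Pool.Agent.SBhAs

open Pool.Agent.SignedBh

private theorem asy_log_le {x : ℝ} (hx : 0 < x) : Real.log x ≤ 2 * Real.sqrt x := by
  have h1 := Real.log_le_sub_one_of_pos (Real.sqrt_pos.mpr hx)
  have h2 : Real.log x = 2 * Real.log (Real.sqrt x) := by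
    rw [Real.log_sqrt hx.le]
    ring
  rw [h2]
  linarith

private theorem asy_upper {ε : ℝ} (hε : 0 < ε) (hε2 : ε ≤ 1 / 2) {n h : ℕ} (hn : 2 ≤ n)
    {y l : ℝ} (hy : (h : ℝ) = y * Real.log n) (hl : l = Real.log y) (hl1 : 4096 ≤ l)
    (hypos : 0 < y) :
    (sigmaPM n h : ℝ) ≤ Real.log n / l + ε * (Real.log n / l) + 1 := by
  set L : ℝ := Real.log n with hL
  set X : ℝ := L / l with hX
  have hn0 : (0 : ℝ) < n := by
    have : 0 < n := by omega
    exact_mod_cast this
  have hL2 : Real.log 2 ≤ L := Real.log_le_log (by norm_num) (by exact_mod_cast hn)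
  have hlog2 := Real.log_two_gt_d9
  have hLpos : 0 < L := by linarith
  have hlpos : 0 < l := by linarith
  have hXpos : 0 < X := div_pos hLpos hlpos
  have hXl : X * l = L := by
    rw [hX]
    field_simp
  have hyl : l + 1 ≤ y := by
    have h1 := Real.add_one_le_exp l
    rwa [hl, Real.exp_log hypos, ← hl] at h1
  by_contra hcon
  rw [not_le] at hcon
  have hσ2 : 2 ≤ sigmaPM n h := by
    have h1 : (1 : ℝ) < sigmaPM n h := by
      have := mul_pos hε hXpos
      linarith
    have h2 : 1 < sigmaPM n h := by exact_mod_cast h1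
    exact h2
  by_cases hc : 1 < (1 + ε) * X
  · have key : ∀ m : ℕ, 2 ≤ m → (1 + ε) * X ≤ m → m ≤ sigmaPM n h → (m : ℝ) ≤ 3 * X → False := by
      intro m hm hm1 hm2 hm3
      have h1 := lowerA' hm (by omega) hm2
      have hm0 : (0 : ℝ) < m := by
        have : 0 < m := by omega
        exact_mod_cast this
      have h2 : y ≤ h / m := by
        rw [le_div_iff₀ hm0, hy]
        have h3 : y * m ≤ y * (3 * X) := mul_le_mul_of_nonneg_left hm3 hypos.le
        have h4 : y * (3 * X) ≤ y * (l * X) := by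
          refine mul_le_mul_of_nonneg_left ?_ hypos.le
          exact mul_le_mul_of_nonneg_right (by linarith) hXpos.le
        have h5 : y * (l * X) = y * L := by
          rw [← hXl]
          ring
        linarith
      have hhm : 0 < (h : ℝ) / m := lt_of_lt_of_le hypos h2
      have h3 : (m : ℝ) * Real.log (h / m) ≤ L := by
        rw [← Real.log_pow]
        exact Real.log_le_log (pow_pos hhm m) h1
      have h4 : l ≤ Real.log (h / m) := by
        rw [hl]
        exact Real.log_le_log hypos h2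
      have h5 : (m : ℝ) * l ≤ m * Real.log (h / m) := mul_le_mul_of_nonneg_left h4 hm0.le
      have h6 : (1 + ε) * X * l ≤ m * l := mul_le_mul_of_nonneg_right hm1 hlpos.le
      have h7 : (1 + ε) * X * l = (1 + ε) * L := by
        rw [← hXl]
        ring
      have h8 := mul_pos hε hLpos
      nlinarith
    have hceil := Nat.ceil_lt_add_one (show 0 ≤ (1 + ε) * X by positivity)
    by_cases h2c : 2 ≤ ⌈(1 + ε) * X⌉₊
    · refine key _ h2c (Nat.le_ceil _) ?_ ?_
      · have h1 : ((⌈(1 + ε) * X⌉₊ : ℕ) : ℝ) < sigmaPM n h := by linarith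
        have h2 : ⌈(1 + ε) * X⌉₊ < sigmaPM n h := by exact_mod_cast h1
        exact h2.le
      · nlinarith
    · refine key 2 le_rfl ?_ hσ2 ?_
      · have h1 := Nat.le_ceil ((1 + ε) * X)
        have h2 : ((⌈(1 + ε) * X⌉₊ : ℕ) : ℝ) ≤ 2 := by
          have : ⌈(1 + ε) * X⌉₊ ≤ 2 := by omega
          exact_mod_cast this
        push_cast
        linarith
      · push_cast
        nlinarith
  · rw [not_lt] at hc
    have h1 := lowerA' le_rfl (by omega) hσ2
    push_cast at h1
    have hX1 : X ≤ 1 := by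
      have := mul_pos hε hXpos
      linarith
    have h2 : L ≤ l := by
      rw [← hXl]
      nlinarith
    have h3 : (n : ℝ) ≤ y := by
      rw [← Real.exp_log hn0, ← Real.exp_log hypos, ← hl]
      exact Real.exp_le_exp.mpr h2
    have h4 : (y * L / 2) ^ 2 ≤ y := by
      rw [← hy]
      exact h1.trans h3
    have h5 : (1 : ℝ) / 4 < L ^ 2 := by nlinarith
    have h6 : y * (y * L ^ 2) ≤ y * 4 := by nlinarith
    have h7 : y * L ^ 2 ≤ 4 := le_of_mul_le_mul_left h6 hypos
    nlinarith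

private theorem asy_lower {ε : ℝ} (hε : 0 < ε) (hε2 : ε ≤ 1 / 2) {n h : ℕ} (hn : 2 ≤ n)
    {y l : ℝ} (hy : (h : ℝ) = y * Real.log n) (hl : l = Real.log y) (hl1 : 4096 ≤ l)
    (hl2 : Real.log (256 * l) ≤ ε * l) (hypos : 0 < y) :
    Real.log n / l - ε * (Real.log n / l) - 1 ≤ (sigmaPM n h : ℝ) := by
  set L : ℝ := Real.log n with hL
  set X : ℝ := L / l with hX
  have hn0 : (0 : ℝ) < n := by
    have : 0 < n := by omega
    exact_mod_cast this
  have hL2 : Real.log 2 ≤ L := Real.log_le_log (by norm_num) (by exact_mod_cast hn)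
  have hlog2 := Real.log_two_gt_d9
  have hLpos : 0 < L := by linarith
  have hlpos : 0 < l := by linarith
  have hXpos : 0 < X := div_pos hLpos hlpos
  have hXl : X * l = L := by
    rw [hX]
    field_simp
  have hyl : l + 1 ≤ y := by
    have h1 := Real.add_one_le_exp l
    rwa [hl, Real.exp_log hypos, ← hl] at h1
  have hε0 : 0 ≤ (1 - ε) * X := mul_nonneg (by linarith) hXpos.le
  have hfl := Nat.lt_floor_add_one ((1 - ε) * X)
  have hfl2 := Nat.floor_le hε0
  set m : ℕ := ⌊(1 - ε) * X⌋₊ with hm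
  rcases Nat.eq_zero_or_pos m with hm0 | hm0
  · rw [hm0] at hfl
    push_cast at hfl
    have : (0 : ℝ) ≤ sigmaPM n h := Nat.cast_nonneg _
    linarith
  · have hm1 : (1 : ℝ) ≤ m := by exact_mod_cast hm0
    have hmX : (m : ℝ) ≤ X := by
      have := mul_pos hε hXpos
      linarith
    have hXL : X ≤ L := by
      rw [← hXl]
      nlinarith
    have hLh : L ≤ h := by
      rw [hy]
      nlinarith
    have hmh : m ≤ h := by
      have h1 : (m : ℝ) ≤ h := by linarith
      exact_mod_cast h1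
    have hhpos : (0 : ℝ) < h := by linarith
    have hmain : (64 * (h : ℝ) / m) ^ m ≤ n := by
      have hq : 0 < 64 * (h : ℝ) / m := by positivity
      have h1 : 64 * (h : ℝ) / m ≤ 256 * l * y := by
        rw [div_le_iff₀ (by linarith), hy]
        have h2 : X / 4 ≤ m := by nlinarith
        have h3 : 256 * l * y * (X / 4) ≤ 256 * l * y * m :=
          mul_le_mul_of_nonneg_left h2 (by positivity)
        have h4 : 256 * l * y * (X / 4) = 64 * (y * L) := by
          rw [← hXl]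
          ring
        linarith
      have h2 : Real.log (64 * (h : ℝ) / m) ≤ (1 + ε) * l := by
        have h3 := Real.log_le_log hq h1
        rw [Real.log_mul (by positivity) hypos.ne', ← hl] at h3
        linarith
      have h3 : (m : ℝ) * Real.log (64 * (h : ℝ) / m) ≤ L := by
        have h4 : (m : ℝ) * Real.log (64 * (h : ℝ) / m) ≤ m * ((1 + ε) * l) :=
          mul_le_mul_of_nonneg_left h2 (by linarith)
        have h5 : (m : ℝ) * ((1 + ε) * l) ≤ (1 - ε) * X * ((1 + ε) * l) :=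
          mul_le_mul_of_nonneg_right hfl2 (by positivity)
        have h6 : (1 - ε) * X * ((1 + ε) * l) = (1 - ε ^ 2) * L := by
          rw [← hXl]
          ring
        have h7 := mul_pos (pow_pos hε 2) hLpos
        linarith
      rw [← Real.exp_log (pow_pos hq m), ← Real.exp_log hn0, Real.log_pow]
      exact Real.exp_le_exp.mpr h3
    have h1 := upperA hm0 hmh hmain
    have h2 : (m : ℝ) ≤ sigmaPM n h := by exact_mod_cast h1
    linarith

theorem asymp (ε : ℝ) (hε : 0 < ε) : ∃ K : ℝ, 0 < K ∧ ∀ n h : ℕ, 2 ≤ n →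
    K * Real.log n ≤ h →
    |(sigmaPM n h : ℝ) - Real.log n / Real.log (h / Real.log n)| ≤
      ε * (Real.log n / Real.log (h / Real.log n)) + 1 := by
  set ε' : ℝ := min ε (1 / 2) with hε'
  have h1 : 0 < ε' := lt_min hε (by norm_num)
  have h2 : ε' ≤ 1 / 2 := min_le_right _ _
  have h3 : ε' ≤ ε := min_le_left _ _
  refine ⟨Real.exp (1024 / ε' ^ 2), Real.exp_pos _, fun n h hn hK => ?_⟩
  have hL2 : Real.log 2 ≤ Real.log n := Real.log_le_log (by norm_num) (by exact_mod_cast hn)
  have hlog2 := Real.log_two_gt_d9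
  have hLpos : 0 < Real.log n := by linarith
  set y : ℝ := h / Real.log n with hy
  have hyK : Real.exp (1024 / ε' ^ 2) ≤ y := by
    rw [hy, le_div_iff₀ hLpos]
    exact hK
  have hypos : 0 < y := lt_of_lt_of_le (Real.exp_pos _) hyK
  have hyh : (h : ℝ) = y * Real.log n := by
    rw [hy]
    field_simp
  set l : ℝ := Real.log y with hl
  have hl0 : 1024 / ε' ^ 2 ≤ l := by
    have h4 := Real.log_le_log (Real.exp_pos _) hyK
    rwa [Real.log_exp] at h4
  have hl1 : 4096 ≤ l := by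
    refine le_trans ?_ hl0
    rw [le_div_iff₀ (by positivity)]
    nlinarith
  have hlpos : 0 < l := by linarith
  have hl2 : Real.log (256 * l) ≤ ε' * l := by
    have h4 := asy_log_le (show 0 < 256 * l by positivity)
    have h5 : Real.sqrt (256 * l) = 16 * Real.sqrt l := by
      rw [Real.sqrt_mul (by norm_num), show (256 : ℝ) = 16 ^ 2 by norm_num,
        Real.sqrt_sq (by norm_num)]
    have h6 : 32 ≤ ε' * Real.sqrt l := by
      have h7 : Real.sqrt (1024 / ε' ^ 2) ≤ Real.sqrt l := Real.sqrt_le_sqrt hl0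
      have h8 : Real.sqrt (1024 / ε' ^ 2) = 32 / ε' := by
        rw [show 1024 / ε' ^ 2 = (32 / ε') ^ 2 by ring, Real.sqrt_sq (by positivity)]
      rw [h8, div_le_iff₀ h1] at h7
      linarith
    have h9 : Real.sqrt l * Real.sqrt l = l := Real.mul_self_sqrt hlpos.le
    have h10 : 32 * Real.sqrt l ≤ ε' * Real.sqrt l * Real.sqrt l :=
      mul_le_mul_of_nonneg_right h6 (Real.sqrt_nonneg _)
    rw [mul_assoc, h9] at h10
    rw [h5] at h4
    linarith
  have hXpos : 0 < Real.log n / l := div_pos hLpos hlpos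
  have h4 := asy_upper h1 h2 hn hyh hl hl1 hypos
  have h5 := asy_lower h1 h2 hn hyh hl hl1 hl2 hypos
  have h6 : ε' * (Real.log n / l) ≤ ε * (Real.log n / l) :=
    mul_le_mul_of_nonneg_right h3 hXpos.le
  rw [abs_le]
  constructor <;> linarith

end Pool.Agent.SBhAs
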