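import Mathlib

/-!
# The basis `u_0, ..., u_{m-1}` (package T8 of MP_f688e9_co, Thresholds), `m = μ + 2`

PROOF of `det_U`: permute the columns cyclically, `j ↦ j + 1` (column `0` goes to the last place):
`V i j = U i (j+1)` for `j < m-1`, `V i (m-1) = U i 0`. For `i < m - 1` the row `V i` has entry `1`
at `j = i` (the column `i+1` of `R i` vanishes, `R` lower triangular) and `0` at `i < j < m - 1`; at
`j = m - 1` anything. That is not triangular because of the last column; but the last row of `V` is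
`e_{m-1}`. Expand along the last row (`Matrix.det_succ_row` / `Matrix.det_fromBlocks_zero₂₁`, or
subtract multiples of it), or: `V` with the last row `e_{m-1}` is block triangular with blocks the
lower triangular unipotent `(m-1) x (m-1)` matrix and `1`. So `det U = ±1`.
ALTERNATIVE without permutations: exhibit a right inverse / show that every integer vector `v` is a
combination of the rows: solve for the coefficients of `u_{m-2}, ..., u_0` from the coordinates
`m-1, ..., 1` and then that of `u_{m-1} = e_0`; surjectivity of `c ↦ c ᵥ* U` on `ℤ^m` gives a left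
inverse matrix, hence `IsUnit U.det`.

PARITY: `sum_U_even`: for `i < m-1` the row sum is `K i * ∑ R i j + 1 + 1` with `K i` even (`k`
even); `sum_U_last = 1`.
-/

namespace Pool.Agent.SBhAs

open Matrix

/-- the multipliers: `2k, ..., 2k, k` (index `μ` is the last one that is used) -/
def K (μ k : ℕ) (i : ℕ) : ℤ := if i < μ then 2 * k else k

/-- `u_i = K_i ρ_i + e_{i+1} + e_0` for `i ≤ μ`, `u_{μ+1} = e_0` -/
def U (μ k : ℕ) (R : Matrix (Fin (μ + 2)) (Fin (μ + 2)) ℤ) :
    Matrix (Fin (μ + 2)) (Fin (μ + 2)) ℤ :=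
  Matrix.of fun i j =>
    if (i : ℕ) < μ + 1 then
      K μ k i * R i j + (if (j : ℕ) = i + 1 then 1 else 0) + (if (j : ℕ) = 0 then 1 else 0)
    else (if (j : ℕ) = 0 then 1 else 0)

theorem det_U (μ k : ℕ) (R : Matrix (Fin (μ + 2)) (Fin (μ + 2)) ℤ)
    (hR : ∀ i j, i < j → R i j = 0) : IsUnit (U μ k R).det := by
  have hU : ∀ i j : Fin (μ + 1), i < j → U μ k R i.castSucc j.succ = 0 := fun i j hij => by
    have h1 : (i.castSucc : Fin (μ + 2)) < j.succ := by
      rw [Fin.lt_def] at hij ⊢
      simp only [Fin.val_castSucc, Fin.val_succ]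
      omega
    have h2 : ((j.succ : Fin (μ + 2)) : ℕ) ≠ (i.castSucc : Fin (μ + 2)) + 1 := by
      rw [Fin.lt_def] at hij
      simp only [Fin.val_castSucc, Fin.val_succ]
      omega
    have h3 : ((j.succ : Fin (μ + 2)) : ℕ) ≠ 0 := by simp
    simp only [U, Matrix.of_apply]
    rw [if_neg h2, if_neg h3, hR _ _ h1]
    simp
  have hU1 : ∀ i : Fin (μ + 1), U μ k R i.castSucc i.succ = 1 := fun i => by
    have h1 : (i.castSucc : Fin (μ + 2)) < i.succ := Fin.castSucc_lt_succ
    have h2 : ((i.succ : Fin (μ + 2)) : ℕ) = (i.castSucc : Fin (μ + 2)) + 1 := by simp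
    have h3 : ((i.succ : Fin (μ + 2)) : ℕ) ≠ 0 := by simp
    have h4 : ((i.castSucc : Fin (μ + 2)) : ℕ) < μ + 1 := i.isLt
    simp only [U, Matrix.of_apply]
    rw [if_pos h4, if_pos h2, if_neg h3, hR _ _ h1]
    simp
  have hdet : ((U μ k R).submatrix Fin.castSucc Fin.succ).det = 1 := by
    rw [Matrix.det_of_isLowerTriangular]
    · exact Finset.prod_eq_one fun i _ => hU1 i
    · intro i j hij
      exact hU i j (OrderDual.toDual_lt_toDual.1 hij)
  have hlast : ∀ j : Fin (μ + 2), U μ k R (Fin.last (μ + 1)) j = if j = 0 then 1 else 0 :=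
    fun j => by
      simp only [U, Matrix.of_apply, Fin.val_last, lt_irrefl, if_false, Fin.ext_iff, Fin.val_zero]
  have hmain : (U μ k R).det = (-1) ^ (μ + 1) := by
    rw [Matrix.det_succ_row _ (Fin.last (μ + 1)), Finset.sum_eq_single 0]
    · rw [hlast, if_pos rfl]
      have h0 : ((0 : Fin (μ + 2)).succAbove : Fin (μ + 1) → Fin (μ + 2)) = Fin.succ := by
        funext i
        exact Fin.succAbove_zero_apply i
      have h5 : ((Fin.last (μ + 1)).succAbove : Fin (μ + 1) → Fin (μ + 2)) = Fin.castSucc := by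
        funext i
        exact Fin.succAbove_last_apply i
      rw [h0, h5, hdet]
      simp
    · intro j _ hj
      rw [hlast, if_neg hj]
      simp
    · intro h
      exact absurd (Finset.mem_univ _) h
  rw [hmain]
  exact (isUnit_one.neg).pow _

theorem sum_U_even (μ k : ℕ) (hk : Even k) (R : Matrix (Fin (μ + 2)) (Fin (μ + 2)) ℤ)
    (i : Fin (μ + 2)) (hi : (i : ℕ) < μ + 1) : Even (∑ j, U μ k R i j) := by
  have hK : Even (K μ k i) := by
    unfold K
    split_ifs
    · exact even_two_mul _
    · exact_mod_cast hk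
  have h1 : ∑ j : Fin (μ + 2), (if (j : ℕ) = i + 1 then (1 : ℤ) else 0) = 1 := by
    rw [Finset.sum_eq_single (⟨i + 1, by omega⟩ : Fin (μ + 2))]
    · simp
    · intro j _ hj
      rw [if_neg fun h => hj (Fin.ext h)]
    · intro h
      exact absurd (Finset.mem_univ _) h
  have h2 : ∑ j : Fin (μ + 2), (if (j : ℕ) = 0 then (1 : ℤ) else 0) = 1 := by
    rw [Finset.sum_eq_single (0 : Fin (μ + 2))]
    · simp
    · intro j _ hj
      exact if_neg fun h => hj (Fin.ext h)
    · intro h
      exact absurd (Finset.mem_univ _) h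
  have h3 : ∑ j, U μ k R i j = K μ k i * (∑ j, R i j) + 2 := by
    simp only [U, Matrix.of_apply, if_pos hi, Finset.sum_add_distrib, h1, h2, Finset.mul_sum]
    ring
  rw [h3]
  exact (hK.mul_right _).add even_two

theorem sum_U_last (μ k : ℕ) (R : Matrix (Fin (μ + 2)) (Fin (μ + 2)) ℤ) :
    ∑ j, U μ k R (Fin.last (μ + 1)) j = 1 := by
  simp only [U, Matrix.of_apply, Fin.val_last, lt_irrefl, if_false]
  rw [Finset.sum_eq_single (0 : Fin (μ + 2))]
  · simp
  · intro j _ hj
    exact if_neg fun h => hj (Fin.ext h)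
  · intro h
    exact absurd (Finset.mem_univ _) h

/-- size of the rows -/
theorem abs_U_le (μ k : ℕ) (R : Matrix (Fin (μ + 2)) (Fin (μ + 2)) ℤ) (A : ℤ) (hA : 0 ≤ A)
    (h : ∀ i j, |R i j| ≤ A) (i j : Fin (μ + 2)) : |U μ k R i j| ≤ 2 * k * A + 2 := by
  have hk0 : (0 : ℤ) ≤ k := Int.natCast_nonneg k
  have hkA : (0 : ℤ) ≤ 2 * k * A := by positivity
  have h0 : ∀ (p : Prop) [Decidable p], |(if p then (1 : ℤ) else 0)| ≤ 1 := fun p _ => by
    split_ifs <;> simp
  have hK : |K μ k i| ≤ 2 * k := by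
    unfold K
    split_ifs
    · rw [abs_of_nonneg (by positivity)]
    · rw [abs_of_nonneg hk0]
      linarith
  simp only [U, Matrix.of_apply]
  by_cases hi : (i : ℕ) < μ + 1
  · rw [if_pos hi]
    have h1 : |K μ k i * R i j| ≤ 2 * k * A := by
      rw [abs_mul]
      exact mul_le_mul hK (h i j) (abs_nonneg _) (by positivity)
    have h2 := h0 ((j : ℕ) = i + 1)
    have h3 := h0 ((j : ℕ) = 0)
    have h4 := abs_add_le (K μ k i * R i j + (if (j : ℕ) = i + 1 then 1 else 0))
      (if (j : ℕ) = 0 then 1 else 0)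
    have h5 := abs_add_le (K μ k i * R i j) (if (j : ℕ) = i + 1 then 1 else 0)
    linarith
  · rw [if_neg hi]
    exact (h0 _).trans (by linarith)

end Pool.Agent.SBhAs
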