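import Mathlib
import Pool.Agent.SBhAs.Basis

/-!
# The even part of the kernel (package T10 of MP_f688e9_co, Thresholds), `m = μ + 2`

PROOF of `kernel`. `B j = ∏_{i<j} q i` (`j < m`), `a = U⁻¹ *ᵥ B`. For `v : Fin m → ℤ` put
`γ = v ᵥ* U⁻¹`, so `v = γ ᵥ* U` and `∑ v j a j = γ ⬝ᵥ B`. Let `n ∣ ∑ v j a j`, say
`γ ⬝ᵥ B = t n = t ∑_j d j B j`. With `g j = γ j - t d j`: `∑_j g j B j = 0`. There are integers
`c 0, ..., c (m-2)` with `g 0 = q 0 c 0`, `g j = q j c j - c (j-1)` for `1 ≤ j ≤ m-2`,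
`g (m-1) = - c (m-2)` (`exists_radix` below: induction on the number of digits: from
`g 0 + q 0 (g 1 + q 1 (g 2 + ...)) = 0` get `q 0 ∣ g 0`, `g 0 = q 0 c 0`, cancel `q 0 > 0` and
replace `g 1` by `g 1 + c 0`). So `v = ∑_j (γ j) u_j = ∑_{i ≤ m-2} c i (q i u_i - u_{i+1}) + t x`,
`x = ∑ d j u_j`. Parity of the coordinate sum `p`: `p(u_i)` is even for `i ≤ m-2` and
`p(u_{m-1})` is odd, so `p(q i u_i - u_{i+1})` is even for `i < m-2 = μ`, odd for `i = μ`, and
`p(x)` is even because `d (m-1)` is even. Since `p(v)` is even, `c μ` is even: `c μ = 2 c'`. The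
coefficient vector is `(c 0, ..., c (μ-1), c', t)`.
-/

namespace Pool.Agent.SBhAs

open Matrix

/-- the rows `q_i u_i - u_{i+1}` (`i < μ`), `2 (q_μ u_μ - u_{μ+1})`, `∑ d_j u_j` -/
def rows (μ : ℕ) (V : Matrix (Fin (μ + 2)) (Fin (μ + 2)) ℤ) (q d : ℕ → ℤ) :
    Matrix (Fin (μ + 2)) (Fin (μ + 2)) ℤ :=
  Matrix.of fun i j =>
    if h : (i : ℕ) < μ + 1 then
      (if (i : ℕ) < μ then 1 else 2) * (q i * V i j - V ⟨i + 1, by omega⟩ j)
    else ∑ t : Fin (μ + 2), d t * V t j

/-- `∑_j g j ∏_{i<j} q i = 0` forces `g j = q j c j - c (j-1)` -/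
theorem exists_radix (r : ℕ) : ∀ (q g : ℕ → ℤ), (∀ i < r, 0 < q i) →
    ∑ j ∈ Finset.range (r + 1), g j * ∏ i ∈ Finset.range j, q i = 0 →
    ∃ c : ℕ → ℤ, ∀ j < r + 1, g j = (if j < r then q j * c j else 0) -
      (if j = 0 then 0 else c (j - 1)) := by
  induction r with
  | zero =>
    intro q g _ h
    refine ⟨0, fun j hj => ?_⟩
    have : j = 0 := by omega
    subst this
    simpa using h
  | succ r ih =>
    intro q g hq h
    rw [Finset.sum_range_succ'] at h
    have e1 : ∀ j, g (j + 1) * ∏ i ∈ Finset.range (j + 1), q i =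
        q 0 * (g (j + 1) * ∏ i ∈ Finset.range j, q (i + 1)) := by
      intro j
      rw [Finset.prod_range_succ']
      ring
    simp only [e1, ← Finset.mul_sum, Finset.range_zero, Finset.prod_empty, mul_one] at h
    obtain ⟨c', hc'⟩ := ih (fun i => q (i + 1))
      (fun j => g (j + 1) + if j = 0 then
        -(∑ j ∈ Finset.range (r + 1), g (j + 1) * ∏ i ∈ Finset.range j, q (i + 1)) else 0)
      (fun i hi => hq _ (by omega)) (by
        simp only [add_mul, Finset.sum_add_distrib, ite_mul, zero_mul]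
        rw [Finset.sum_ite_eq' (Finset.range (r + 1)) 0]
        simp)
    refine ⟨fun j => if j = 0 then
      -(∑ j ∈ Finset.range (r + 1), g (j + 1) * ∏ i ∈ Finset.range j, q (i + 1))
      else c' (j - 1), fun j hj => ?_⟩
    rcases Nat.eq_zero_or_pos j with rfl | hj0
    · simp only [Nat.zero_lt_succ, if_true]
      linarith
    · obtain ⟨k, rfl⟩ : ∃ k, j = k + 1 := ⟨j - 1, by omega⟩
      have := hc' k (by omega)
      simp only [Nat.add_lt_add_iff_right, Nat.add_eq_zero_iff, one_ne_zero, and_false, if_false,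
        Nat.add_sub_cancel] at this ⊢
      by_cases hk : k = 0
      · subst hk
        simp only [if_true] at this ⊢
        linarith
      · simp only [hk, if_false] at this ⊢
        linarith

theorem kernel (μ : ℕ) (V : Matrix (Fin (μ + 2)) (Fin (μ + 2)) ℤ) (hV : IsUnit V.det)
    (heven : ∀ i : Fin (μ + 2), (i : ℕ) < μ + 1 → Even (∑ j, V i j))
    (hodd : Odd (∑ j, V (Fin.last (μ + 1)) j)) (q d : ℕ → ℤ) (hq : ∀ i < μ + 1, 0 < q i)
    (hd : Even (d (μ + 1))) (n : ℤ)
    (hn : n = ∑ j ∈ Finset.range (μ + 2), d j * ∏ i ∈ Finset.range j, q i) :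
    ∃ a : Fin (μ + 2) → ℤ, ∀ v : Fin (μ + 2) → ℤ, Even (∑ j, v j) → n ∣ ∑ j, v j * a j →
      ∃ c : Fin (μ + 2) → ℤ, v = c ᵥ* rows μ V q d := by
  set B : Fin (μ + 2) → ℤ := fun j => ∏ i ∈ Finset.range (j : ℕ), q i with hB
  refine ⟨V⁻¹ *ᵥ B, fun v hv hdiv => ?_⟩
  obtain ⟨t, ht⟩ := hdiv
  set γ : Fin (μ + 2) → ℤ := v ᵥ* V⁻¹ with hγ
  have hvγ : v = γ ᵥ* V := by
    rw [hγ, Matrix.vecMul_vecMul, Matrix.nonsing_inv_mul _ hV, Matrix.vecMul_one]
  have hdot : ∑ j, γ j * B j = n * t := by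
    rw [← ht]
    change γ ⬝ᵥ B = v ⬝ᵥ (V⁻¹ *ᵥ B)
    rw [Matrix.dotProduct_mulVec]
  set g : ℕ → ℤ := fun j => (if h : j < μ + 2 then γ ⟨j, h⟩ else 0) - t * d j with hg
  obtain ⟨c, hc⟩ := exists_radix (μ + 1) q g hq (by
    have e1 : ∑ j ∈ Finset.range (μ + 1 + 1), g j * ∏ i ∈ Finset.range j, q i =
        ∑ j : Fin (μ + 2), (γ j - t * d j) * B j := by
      rw [Finset.sum_range]
      refine Finset.sum_congr rfl fun j _ => ?_
      simp only [hg, hB]
      rw [dif_pos j.2]
    have e2 : n = ∑ j : Fin (μ + 2), d j * B j := by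
      rw [hn, Finset.sum_range]
    rw [e1]
    simp only [sub_mul, Finset.sum_sub_distrib, hdot, mul_assoc]
    rw [← Finset.mul_sum, ← e2]
    ring)
  have hγg : ∀ i : Fin (μ + 2), γ i = g i + t * d i := by
    intro i
    simp only [hg]
    rw [dif_pos i.2]
    ring
  -- the expansion of `v`
  have hexp : ∀ j, v j = ∑ i : Fin (μ + 1), c i * (q i * V i.castSucc j - V i.succ j) +
      t * ∑ i : Fin (μ + 2), d i * V i j := by
    intro j
    have h1 : v j = ∑ i : Fin (μ + 2), γ i * V i j := by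
      conv_lhs => rw [hvγ]
      rfl
    have h2 : ∑ i : Fin (μ + 2), γ i * V i j = ∑ i : Fin (μ + 2), g i * V i j +
        t * ∑ i : Fin (μ + 2), d i * V i j := by
      rw [Finset.mul_sum, ← Finset.sum_add_distrib]
      refine Finset.sum_congr rfl fun i _ => ?_
      rw [hγg]
      ring
    have h3 : ∑ i : Fin (μ + 2), g i * V i j =
        ∑ i : Fin (μ + 2), (if (i : ℕ) < μ + 1 then q i * c i else 0) * V i j -
        ∑ i : Fin (μ + 2), (if (i : ℕ) = 0 then 0 else c (i - 1)) * V i j := by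
      rw [← Finset.sum_sub_distrib]
      refine Finset.sum_congr rfl fun i _ => ?_
      rw [hc i i.2]
      ring
    rw [h1, h2, h3, Fin.sum_univ_castSucc, Fin.sum_univ_succ (n := μ + 1)]
    simp only [Fin.val_castSucc, Fin.is_lt, if_true, Fin.val_last, lt_irrefl, if_false, zero_mul,
      add_zero, Fin.val_zero, Fin.val_succ, Nat.add_eq_zero_iff, one_ne_zero, and_false,
      Nat.add_sub_cancel, zero_add]
    rw [← Finset.sum_sub_distrib]
    congr 1
    refine Finset.sum_congr rfl fun i _ => ?_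
    ring
  -- parity
  have hcμ : Even (c μ) := by
    have h1 : ∑ j, v j = ∑ i : Fin (μ + 1), c i * (q i * ∑ j, V i.castSucc j - ∑ j, V i.succ j) +
        t * ∑ i : Fin (μ + 2), d i * ∑ j, V i j := by
      simp only [hexp, Finset.sum_add_distrib]
      congr 1
      · rw [Finset.sum_comm]
        refine Finset.sum_congr rfl fun i _ => ?_
        simp only [Finset.mul_sum, ← Finset.sum_sub_distrib]
      · rw [← Finset.mul_sum, Finset.sum_comm]
        congr 1
        refine Finset.sum_congr rfl fun i _ => ?_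
        rw [Finset.mul_sum]
    rw [h1] at hv
    have h2 : Even (t * ∑ i : Fin (μ + 2), d i * ∑ j, V i j) := by
      refine Even.mul_left ?_ _
      refine Finset.even_sum _ fun i _ => ?_
      by_cases hi : (i : ℕ) < μ + 1
      · exact Even.mul_left (heven i hi) _
      · have : (i : ℕ) = μ + 1 := by omega
        rw [this]
        exact Even.mul_right hd _
    have h3 := (Int.even_add.mp hv).mpr h2
    rw [Fin.sum_univ_castSucc] at h3
    have h4 : Even (∑ i : Fin μ, c i.castSucc *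
        (q i.castSucc * ∑ j, V i.castSucc.castSucc j - ∑ j, V i.castSucc.succ j)) := by
      refine Finset.even_sum _ fun i _ => Even.mul_left ?_ _
      refine Even.sub (Even.mul_left (heven _ ?_) _) (heven _ ?_)
      · simp
      · simp
    have h5 := (Int.even_add.mp h3).mp h4
    rcases Int.even_mul.mp h5 with h6 | h6
    · simpa using h6
    · exfalso
      rw [Fin.succ_last] at h6
      have h7 : Even (q (Fin.last μ : ℕ) * ∑ j, V (Fin.last μ).castSucc j) :=
        Even.mul_left (heven _ (by simp)) _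
      have h8 := (Int.even_sub.mp h6).mp h7
      exact (Int.not_even_iff_odd.mpr hodd) h8
  obtain ⟨c', hc'⟩ := hcμ
  refine ⟨fun i => if (i : ℕ) < μ then c i else if (i : ℕ) = μ then c' else t, ?_⟩
  funext j
  rw [hexp j]
  change _ = ∑ i : Fin (μ + 2), (if (i : ℕ) < μ then c i else if (i : ℕ) = μ then c' else t) *
    rows μ V q d i j
  have hR := Fin.sum_univ_castSucc (fun i : Fin (μ + 1 + 1) =>
    (if (i : ℕ) < μ then c i else if (i : ℕ) = μ then c' else t) * rows μ V q d i j)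
  refine Eq.trans ?_ hR.symm
  congr 1
  · refine Finset.sum_congr rfl fun i _ => ?_
    have hi := i.2
    simp only [rows, Matrix.of_apply, Fin.val_castSucc, hi, dite_true]
    have e1 : (⟨(i : ℕ) + 1, by omega⟩ : Fin (μ + 2)) = i.succ := rfl
    rw [e1]
    by_cases h : (i : ℕ) < μ
    · simp only [h, if_true]
      ring
    · have h' : (i : ℕ) = μ := by omega
      simp only [h', lt_irrefl, if_false, if_true]
      rw [hc']
      ring
  · simp only [rows, Matrix.of_apply, Fin.val_last, lt_irrefl, dite_false]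
    rw [if_neg (by omega), if_neg (by omega)]

end Pool.Agent.SBhAs
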