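import Mathlib
import Pool.Agent.SBhAs.Basis

/-!
# The leading coefficient `θ_{m-1}` (package T9 of MP_f688e9_co, Thresholds), `m = μ + 2`

`w = 2k ρ_{m-1} = ∑ θ_j u_j`, i.e. `θ = w ᵥ* U⁻¹`.

PROOF. (1) Cramer: `(U.updateRow last w) = (1.updateRow last θ) * U` (row `last` is `θ ᵥ* U = w`),
so `det (U.updateRow last w) = θ last * det U`, and `det U = ±1` (`det_U`, `Int.isUnit_iff`), hence
`|θ last| = |det (U.updateRow last w)|`. (2) Divide all rows of `U.updateRow last w` (as a real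
matrix) by `2k`: the determinant divided by `(2k)^m` is the determinant of the real matrix `A_k`
with rows `ρ_i + (e_{i+1} + e_0)/(2k)` (`i < μ`), `ρ_μ/2 + (e_{μ+1} + e_0)/(2k)`, `ρ_{μ+1}`
(`Matrix.det_smul`, `Fintype.card_fin`). As `k → ∞`, `A_k → A` entrywise, `A` with rows
`ρ_0, ..., ρ_{μ-1}, ρ_μ/2, ρ_{μ+1}`, lower triangular, `det A = (∏ R i i)/2`
(`Matrix.det_of_lowerTriangular`). The determinant is continuous
(`Continuous.matrix_det`, `continuous_id.matrix_det`), so `det A_k → (∏ R i i)/2 > 0`, and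
`|θ last|/(2k)^m` is between `(1-δ)` and `(1+δ)` times `(∏ R i i)/2` for all large `k`.
-/

namespace Pool.Agent.SBhAs

open Matrix

/-- the coordinates of `2k ρ_{m-1}` in the basis of the rows of `U` -/
noncomputable def theta (μ k : ℕ) (R : Matrix (Fin (μ + 2)) (Fin (μ + 2)) ℤ) :
    Fin (μ + 2) → ℤ :=
  (fun j => 2 * (k : ℤ) * R (Fin.last (μ + 1)) j) ᵥ* (U μ k R)⁻¹

theorem theta_vecMul (μ k : ℕ) (R : Matrix (Fin (μ + 2)) (Fin (μ + 2)) ℤ)
    (hR : ∀ i j, i < j → R i j = 0) :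
    theta μ k R ᵥ* U μ k R = fun j => 2 * (k : ℤ) * R (Fin.last (μ + 1)) j := by
  unfold theta
  rw [Matrix.vecMul_vecMul, Matrix.nonsing_inv_mul _ (det_U μ k R hR), Matrix.vecMul_one]

/-- Cramer -/
private theorem det_update (μ k : ℕ) (R : Matrix (Fin (μ + 2)) (Fin (μ + 2)) ℤ)
    (hR : ∀ i j, i < j → R i j = 0) :
    ((U μ k R).updateRow (Fin.last (μ + 1))
      (fun j => 2 * (k : ℤ) * R (Fin.last (μ + 1)) j)).det =
      (U μ k R).det * theta μ k R (Fin.last (μ + 1)) := by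
  rw [← Matrix.cramer_transpose_apply, ← theta_vecMul μ k R hR, ← Matrix.mulVec_transpose,
    Matrix.cramer_eq_adjugate_mulVec, Matrix.mulVec_mulVec, Matrix.adjugate_mul,
    Matrix.smul_mulVec, Matrix.one_mulVec, Matrix.det_transpose]
  simp

private theorem abs_theta (μ k : ℕ) (R : Matrix (Fin (μ + 2)) (Fin (μ + 2)) ℤ)
    (hR : ∀ i j, i < j → R i j = 0) :
    |theta μ k R (Fin.last (μ + 1))| = |((U μ k R).updateRow (Fin.last (μ + 1))
      (fun j => 2 * (k : ℤ) * R (Fin.last (μ + 1)) j)).det| := by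
  rw [det_update μ k R hR, abs_mul]
  rcases Int.isUnit_iff.mp (det_U μ k R hR) with h | h
  · rw [h]; simp
  · rw [h]; simp

/-- the rescaled matrix, `x = 1 / (2k)` -/
private noncomputable def B (μ : ℕ) (R : Matrix (Fin (μ + 2)) (Fin (μ + 2)) ℤ) (x : ℝ) :
    Matrix (Fin (μ + 2)) (Fin (μ + 2)) ℝ :=
  Matrix.of fun i j =>
    (if (i : ℕ) = μ then 1 / 2 else 1) * (R i j : ℝ) +
      (if (i : ℕ) < μ + 1 then
        ((if (j : ℕ) = i + 1 then 1 else 0) + (if (j : ℕ) = 0 then 1 else 0)) else 0) * x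

private theorem det_B_zero (μ : ℕ) (R : Matrix (Fin (μ + 2)) (Fin (μ + 2)) ℤ)
    (hR : ∀ i j, i < j → R i j = 0) :
    (B μ R 0).det = ((∏ i, R i i : ℤ) : ℝ) / 2 := by
  rw [Matrix.det_of_isLowerTriangular]
  · have h : ∀ i : Fin (μ + 2), B μ R 0 i i =
        (if (i : ℕ) = μ then (1 / 2 : ℝ) else 1) * (R i i : ℝ) := by
      intro i
      simp [B]
    rw [Finset.prod_congr rfl (fun i _ => h i), Finset.prod_mul_distrib]
    have h2 : ∏ i : Fin (μ + 2), (if (i : ℕ) = μ then (1 / 2 : ℝ) else 1) = 1 / 2 := by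
      rw [Finset.prod_eq_single (⟨μ, by omega⟩ : Fin (μ + 2))]
      · simp
      · intro b _ hb
        rw [if_neg]
        intro h
        exact hb (Fin.ext h)
      · intro h
        exact absurd (Finset.mem_univ _) h
    rw [h2]
    push_cast
    ring
  · intro i j hij
    have : R i j = 0 := hR i j hij
    simp [B, this]

private theorem cont_B (μ : ℕ) (R : Matrix (Fin (μ + 2)) (Fin (μ + 2)) ℤ) :
    Continuous (fun x : ℝ => (B μ R x).det) := by
  apply Continuous.matrix_det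
  apply continuous_matrix
  intro i j
  simp only [B, Matrix.of_apply]
  fun_prop

private theorem det_scale (μ k : ℕ) (hk : 0 < k) (R : Matrix (Fin (μ + 2)) (Fin (μ + 2)) ℤ) :
    ((((U μ k R).updateRow (Fin.last (μ + 1))
      (fun j => 2 * (k : ℤ) * R (Fin.last (μ + 1)) j)).det : ℤ) : ℝ) =
      (2 * (k : ℝ)) ^ (μ + 2) * (B μ R (1 / (2 * (k : ℝ)))).det := by
  have hk' : (k : ℝ) ≠ 0 := by exact_mod_cast hk.ne'
  have h := Matrix.det_smul (B μ R (1 / (2 * (k : ℝ)))) (2 * (k : ℝ))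
  rw [Fintype.card_fin] at h
  rw [← h, Int.cast_det]
  congr 1
  ext i j
  by_cases hi : i = Fin.last (μ + 1)
  · subst hi
    simp [B]
  · have hi' : (i : ℕ) < μ + 1 := by
      have h1 := i.2
      have h2 : (i : ℕ) ≠ μ + 1 := fun h => hi (Fin.ext h)
      omega
    rw [Matrix.map_apply, Matrix.updateRow_ne hi]
    simp only [U, B, K, Matrix.of_apply, Matrix.smul_apply, smul_eq_mul, hi', if_true]
    by_cases hm : (i : ℕ) = μ
    · rw [if_neg (show ¬ (i : ℕ) < μ by omega), if_pos hm]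
      push_cast
      field_simp
      ring
    · rw [if_pos (show (i : ℕ) < μ by omega), if_neg hm]
      push_cast
      field_simp
      ring

theorem theta_limit (μ : ℕ) (R : Matrix (Fin (μ + 2)) (Fin (μ + 2)) ℤ)
    (hR : ∀ i j, i < j → R i j = 0) (hpos : ∀ i, 0 < R i i) (δ : ℝ) (hδ : 0 < δ) :
    ∃ k₀ : ℕ, ∀ k : ℕ, k₀ ≤ k →
      (1 - δ) * ((2 * (k : ℝ)) ^ (μ + 2) * ((∏ i, R i i : ℤ) : ℝ) / 2) ≤
          |(theta μ k R (Fin.last (μ + 1)) : ℝ)| ∧
        |(theta μ k R (Fin.last (μ + 1)) : ℝ)| ≤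
          (1 + δ) * ((2 * (k : ℝ)) ^ (μ + 2) * ((∏ i, R i i : ℤ) : ℝ) / 2) := by
  have hP : (0 : ℝ) < ((∏ i, R i i : ℤ) : ℝ) := by
    exact_mod_cast Finset.prod_pos (fun i _ => hpos i)
  set P : ℝ := ((∏ i, R i i : ℤ) : ℝ) with hPdef
  have h1 : Filter.Tendsto (fun k : ℕ => 1 / (2 * (k : ℝ))) Filter.atTop (nhds 0) := by
    have h := (tendsto_one_div_atTop_nhds_zero_nat (𝕜 := ℝ)).const_mul (1 / 2 : ℝ)
    rw [mul_zero] at h
    refine h.congr (fun k => ?_)
    ring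
  have h2 := ((cont_B μ R).tendsto 0).comp h1
  simp only [det_B_zero μ R hR] at h2
  have hε : 0 < δ * (P / 2) := by positivity
  have h3 := (Metric.tendsto_atTop.mp h2) _ hε
  obtain ⟨N, hN⟩ := h3
  refine ⟨N + 1, fun k hk => ?_⟩
  have hk0 : 0 < k := by omega
  have hkR : (0 : ℝ) < 2 * (k : ℝ) := by positivity
  have h4 := hN k (by omega)
  rw [Real.dist_eq, abs_lt] at h4
  simp only [Function.comp_apply] at h4
  have h5 : |(theta μ k R (Fin.last (μ + 1)) : ℝ)| =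
      (2 * (k : ℝ)) ^ (μ + 2) * |(B μ R (1 / (2 * (k : ℝ)))).det| := by
    rw [← Int.cast_abs, abs_theta μ k R hR, Int.cast_abs, det_scale μ k hk0 R, abs_mul,
      abs_of_pos (pow_pos hkR _)]
  rw [h5]
  have hp : (0 : ℝ) < (2 * (k : ℝ)) ^ (μ + 2) := pow_pos hkR _
  constructor
  · have h6 : (1 - δ) * (P / 2) ≤ |(B μ R (1 / (2 * (k : ℝ)))).det| :=
      le_trans (by linarith [h4.1]) (le_abs_self _)
    calc (1 - δ) * ((2 * (k : ℝ)) ^ (μ + 2) * P / 2)
        = (2 * (k : ℝ)) ^ (μ + 2) * ((1 - δ) * (P / 2)) := by ring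
      _ ≤ _ := mul_le_mul_of_nonneg_left h6 hp.le
  · have h6 : |(B μ R (1 / (2 * (k : ℝ)))).det| ≤ (1 + δ) * (P / 2) := by
      rw [abs_le]
      constructor
      · nlinarith [h4.1, hε]
      · linarith [h4.2]
    calc (2 * (k : ℝ)) ^ (μ + 2) * |(B μ R (1 / (2 * (k : ℝ)))).det|
        ≤ (2 * (k : ℝ)) ^ (μ + 2) * ((1 + δ) * (P / 2)) := mul_le_mul_of_nonneg_left h6 hp.le
      _ = _ := by ring

end Pool.Agent.SBhAs
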