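import Mathlib
import Pool.Agent.SBhAs.Theta
import Pool.Agent.SBhAs.Kernel

/-!
# The basis of the even kernel is nearly `2kb R` (package T13 of MP_f688e9_co, Thresholds)

PROOF. Write `W = 2 k A + 2`, so `|U i j| ≤ W` (`abs_U_le`), `u_i` the rows of `U`.
For `i < μ`: `rows i = q_i u_i - u_{i+1}` and `u_i = 2k ρ_i + e_{i+1} + e_0`, so
`rows i - 2kb ρ_i = (q_i - b) u_i + b (e_{i+1} + e_0) - u_{i+1}`, entries bounded by
`ε₁ b W + 2b + W`. For `i = μ`: `rows μ = 2 (q_μ u_μ - u_{μ+1})`, `u_μ = k ρ_μ + e_{μ+1} + e_0`, so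
`rows μ - 2kb ρ_μ = 2 (q_μ - b) u_μ + 2b (e_{μ+1} + e_0) - 2 u_{μ+1}`, entries bounded by
`2 ε₁ b W + 4 b + 2 W`. For `i = μ + 1`: `rows i = x = ∑ d_j u_j` and
`2k ρ_{μ+1} = ∑ θ_j u_j` (`theta_vecMul`), `s * s = 1`, so
`s x - 2kb ρ_{μ+1} = s ∑_j (d_j - s b θ_j) u_j`, entries bounded by `(μ+1) ε₂ b W + E b` (for
`j = μ + 1`: `u_{μ+1} = e_0` has entries `≤ 1`). Divide by `2kb > 0`. In all cases the bound is at
most the sum given.
-/

namespace Pool.Agent.SBhAs

open Matrix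

private theorem approx_div {x r k b C : ℝ} (hk : 0 < k) (hb : 0 < b)
    (h : |x - 2 * k * b * r| ≤ C * b) : |x / (2 * k * b) - r| ≤ C / (2 * k) := by
  have h1 : x / (2 * k * b) - r = (x - 2 * k * b * r) / (2 * k * b) := by
    field_simp
  rw [h1, abs_div, abs_of_pos (by positivity : (0 : ℝ) < 2 * k * b),
    div_le_div_iff₀ (by positivity) (by positivity)]
  have h2 : 0 < 2 * k := by positivity
  nlinarith [mul_le_mul_of_nonneg_right h h2.le]

private theorem approx_mul {x y X Y : ℝ} (hx : |x| ≤ X) (hy : |y| ≤ Y) : |x * y| ≤ X * Y := by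
  rw [abs_mul]
  exact mul_le_mul hx hy (abs_nonneg _) ((abs_nonneg _).trans hx)

private theorem approx_last {μ k b : ℕ} {R : Matrix (Fin (μ + 2)) (Fin (μ + 2)) ℤ}
    (hR : ∀ i j, i < j → R i j = 0)
    {W : ℝ} (hW : ∀ i j, |(U μ k R i j : ℝ)| ≤ W) {s : ℤ} (hs : s = 1 ∨ s = -1)
    {d : ℕ → ℤ} {ε₂ E : ℝ}
    (hd : ∀ j : Fin (μ + 2), (j : ℕ) < μ + 1 → |(d j : ℝ) - s * theta μ k R j * b| ≤ ε₂ * b)
    (hlast : |(d (μ + 1) : ℝ) - s * theta μ k R (Fin.last (μ + 1)) * b| ≤ E * b)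
    (j : Fin (μ + 2)) :
    |((s * ∑ t : Fin (μ + 2), d t * U μ k R t j : ℤ) : ℝ) -
      2 * k * b * R (Fin.last (μ + 1)) j| ≤ ((μ + 1) * ε₂ * W + E) * b := by
  have hb : (0 : ℝ) ≤ b := Nat.cast_nonneg b
  have h1 : (2 * k * R (Fin.last (μ + 1)) j : ℝ) =
      ∑ t : Fin (μ + 2), (theta μ k R t : ℝ) * U μ k R t j := by
    have h := congrFun (theta_vecMul μ k R hR) j
    rw [Matrix.vecMul, dotProduct] at h
    have h' := congrArg (fun z : ℤ => (z : ℝ)) h
    push_cast at h'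
    exact h'.symm
  have hs2 : (s : ℝ) * s = 1 := by
    rcases hs with rfl | rfl <;> norm_num
  have h2 : ((s * ∑ t : Fin (μ + 2), d t * U μ k R t j : ℤ) : ℝ) -
      2 * k * b * R (Fin.last (μ + 1)) j =
      s * ∑ t : Fin (μ + 2), ((d t : ℝ) - s * theta μ k R t * b) * U μ k R t j := by
    have h3 : (2 * k * b * R (Fin.last (μ + 1)) j : ℝ) =
        b * (2 * k * R (Fin.last (μ + 1)) j) := by ring
    rw [h3, h1]
    push_cast
    rw [Finset.mul_sum, Finset.mul_sum, Finset.mul_sum, ← Finset.sum_sub_distrib]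
    refine Finset.sum_congr rfl fun t _ => ?_
    linear_combination (b * theta μ k R t * U μ k R t j : ℝ) * hs2
  have hsa : |(s : ℝ)| = 1 := by
    rcases hs with rfl | rfl <;> norm_num
  rw [h2, abs_mul, hsa, one_mul, Fin.sum_univ_castSucc]
  have h4 : |∑ t : Fin (μ + 1), ((d (t.castSucc : Fin (μ + 2)) : ℝ) -
      s * theta μ k R t.castSucc * b) * U μ k R t.castSucc j| ≤ (μ + 1) * (ε₂ * b * W) := by
    refine (Finset.abs_sum_le_sum_abs _ _).trans ?_
    have h5 : ∀ t ∈ (Finset.univ : Finset (Fin (μ + 1))),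
        |((d (t.castSucc : Fin (μ + 2)) : ℝ) -
          s * theta μ k R t.castSucc * b) * U μ k R t.castSucc j| ≤ ε₂ * b * W :=
      fun t _ => approx_mul (hd t.castSucc t.2) (hW _ _)
    refine (Finset.sum_le_card_nsmul _ _ _ h5).trans ?_
    rw [Finset.card_univ, Fintype.card_fin, nsmul_eq_mul]
    push_cast
    exact le_rfl
  have h6 : |((d ((Fin.last (μ + 1) : Fin (μ + 2)) : ℕ) : ℝ) -
      s * theta μ k R (Fin.last (μ + 1)) * b) * U μ k R (Fin.last (μ + 1)) j| ≤ E * b * 1 := by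
    refine approx_mul hlast ?_
    have h7 : U μ k R (Fin.last (μ + 1)) j = if (j : ℕ) = 0 then 1 else 0 := by
      unfold U
      rw [Matrix.of_apply, if_neg]
      rw [Fin.val_last]
      omega
    rw [h7]
    split_ifs <;> norm_num
  refine (abs_add_le _ _).trans ((add_le_add h4 h6).trans (le_of_eq ?_))
  ring

theorem rows_approx (μ k b : ℕ) (hk : 1 ≤ k) (hb : 1 ≤ b)
    (R : Matrix (Fin (μ + 2)) (Fin (μ + 2)) ℤ) (hR : ∀ i j, i < j → R i j = 0)
    (A : ℤ) (hA : 0 ≤ A) (hRA : ∀ i j, |R i j| ≤ A) (s : ℤ) (hs : s = 1 ∨ s = -1)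
    (q d : ℕ → ℤ) (ε₁ ε₂ E : ℝ) (hε₁ : 0 ≤ ε₁) (hε₂ : 0 ≤ ε₂) (hE : 0 ≤ E)
    (hq : ∀ i < μ + 1, (b : ℤ) ≤ q i ∧ (q i : ℝ) ≤ (1 + ε₁) * b)
    (hd : ∀ j : Fin (μ + 2), (j : ℕ) < μ + 1 → |(d j : ℝ) - s * theta μ k R j * b| ≤ ε₂ * b)
    (hlast : |(d (μ + 1) : ℝ) - s * theta μ k R (Fin.last (μ + 1)) * b| ≤ E * b)
    (i j : Fin (μ + 2)) :
    |(((if (i : ℕ) = μ + 1 then s else 1) * rows μ (U μ k R) q d i j : ℤ) : ℝ) /
        (2 * k * b) - R i j| ≤
      (2 * ε₁ * (2 * k * A + 2) + 4 + 2 * (2 * k * A + 2) / b) / (2 * k) +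
        ((μ + 1) * ε₂ * (2 * k * A + 2) + E) / (2 * k) := by
  have hk0 : (0 : ℝ) < k := by exact_mod_cast hk
  have hb0 : (0 : ℝ) < b := by exact_mod_cast hb
  have hA0 : (0 : ℝ) ≤ A := by exact_mod_cast hA
  have hW : ∀ i j, |(U μ k R i j : ℝ)| ≤ 2 * k * A + 2 := by
    intro i j
    have h := abs_U_le μ k R A hA hRA i j
    exact_mod_cast h
  have hW0 : (0 : ℝ) ≤ 2 * k * A + 2 := by positivity
  have t2 : 0 ≤ ((μ + 1) * ε₂ * (2 * k * A + 2) + E) / (2 * (k : ℝ)) := by positivity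
  have t1 : 0 ≤ (2 * ε₁ * (2 * k * A + 2) + 4 + 2 * (2 * k * A + 2) / b) / (2 * (k : ℝ)) := by
    positivity
  have hqb : ∀ i < μ + 1, |(q i : ℝ) - b| ≤ ε₁ * b := by
    intro i hi
    obtain ⟨h1, h2⟩ := hq i hi
    have h1' : (b : ℝ) ≤ q i := by exact_mod_cast h1
    rw [abs_of_nonneg (by linarith)]
    linarith
  have hef : ∀ a : ℕ, |((if (j : ℕ) = a + 1 then 1 else 0 : ℝ) + (if (j : ℕ) = 0 then 1 else 0))| ≤
      2 := by
    intro a
    split_ifs <;> norm_num
  have hU : ∀ i : Fin (μ + 2), (i : ℕ) < μ + 1 → (U μ k R i j : ℝ) =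
      (K μ k i : ℝ) * R i j + ((if (j : ℕ) = i + 1 then 1 else 0) +
        (if (j : ℕ) = 0 then 1 else 0)) := by
    intro i hi
    unfold U
    rw [Matrix.of_apply, if_pos hi]
    push_cast
    ring
  rcases lt_trichotomy (i : ℕ) μ with hi | hi | hi
  · refine le_trans ?_ (le_add_of_nonneg_right t2)
    rw [if_neg (by omega), one_mul]
    apply approx_div hk0 hb0
    have h1 : rows μ (U μ k R) q d i j = q i * U μ k R i j - U μ k R ⟨i + 1, by omega⟩ j := by
      unfold rows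
      rw [Matrix.of_apply, dif_pos (by omega), if_pos hi, one_mul]
    have h2 := hU i (by omega)
    have h3 : (K μ k i : ℝ) = 2 * k := by
      unfold K
      rw [if_pos hi]
      push_cast
      rfl
    rw [h3] at h2
    have h4 : ((rows μ (U μ k R) q d i j : ℤ) : ℝ) - 2 * k * b * R i j =
        ((q i : ℝ) - b) * U μ k R i j + b * ((if (j : ℕ) = i + 1 then 1 else 0) +
          (if (j : ℕ) = 0 then 1 else 0)) - U μ k R ⟨i + 1, by omega⟩ j := by
      rw [h1]
      push_cast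
      linear_combination (b : ℝ) * h2
    rw [h4]
    have b1 := approx_mul (hqb i (by omega)) (hW i j)
    have b2 := approx_mul (le_of_eq (abs_of_pos hb0)) (hef i)
    have b3 := hW ⟨i + 1, by omega⟩ j
    refine (abs_sub _ _).trans ((add_le_add ((abs_add_le _ _).trans (add_le_add b1 b2)) b3).trans ?_)
    have h5 : (2 * ε₁ * (2 * k * A + 2) + 4 + 2 * (2 * k * A + 2) / b) * b =
        2 * (ε₁ * b * (2 * k * A + 2)) + 4 * b + 2 * (2 * k * A + 2) := by
      field_simp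
    rw [h5]
    have h6 : 0 ≤ ε₁ * b * (2 * k * A + 2) := by positivity
    linarith
  · refine le_trans ?_ (le_add_of_nonneg_right t2)
    rw [if_neg (by omega), one_mul]
    apply approx_div hk0 hb0
    have h1 : rows μ (U μ k R) q d i j =
        2 * (q i * U μ k R i j - U μ k R ⟨i + 1, by omega⟩ j) := by
      unfold rows
      rw [Matrix.of_apply, dif_pos (by omega), if_neg (by omega)]
    have h2 := hU i (by omega)
    have h3 : (K μ k i : ℝ) = k := by
      unfold K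
      rw [if_neg (by omega)]
      push_cast
      rfl
    rw [h3] at h2
    have h4 : ((rows μ (U μ k R) q d i j : ℤ) : ℝ) - 2 * k * b * R i j =
        2 * (((q i : ℝ) - b) * U μ k R i j + b * ((if (j : ℕ) = i + 1 then 1 else 0) +
          (if (j : ℕ) = 0 then 1 else 0)) - U μ k R ⟨i + 1, by omega⟩ j) := by
      rw [h1]
      push_cast
      linear_combination 2 * (b : ℝ) * h2
    rw [h4, abs_mul, abs_two]
    have b1 := approx_mul (hqb i (by omega)) (hW i j)
    have b2 := approx_mul (le_of_eq (abs_of_pos hb0)) (hef i)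
    have b3 := hW ⟨i + 1, by omega⟩ j
    have b4 := (abs_sub _ _).trans (add_le_add ((abs_add_le _ _).trans (add_le_add b1 b2)) b3)
    refine (mul_le_mul_of_nonneg_left b4 (by norm_num)).trans (le_of_eq ?_)
    field_simp
    ring
  · have hi' : i = Fin.last (μ + 1) := by
      apply Fin.ext
      rw [Fin.val_last]
      omega
    subst hi'
    refine le_trans ?_ (le_add_of_nonneg_left t1)
    rw [if_pos (Fin.val_last _)]
    apply approx_div hk0 hb0
    have h1 : rows μ (U μ k R) q d (Fin.last (μ + 1)) j = ∑ t : Fin (μ + 2), d t * U μ k R t j := by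
      unfold rows
      rw [Matrix.of_apply, dif_neg (by rw [Fin.val_last]; omega)]
    rw [h1]
    exact approx_last hR hW hs hd hlast j

end Pool.Agent.SBhAs
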