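import Mathlib

/-!
# Choice of the size of the radices (package T14 of MP_f688e9_co, Thresholds)

PROOF. `b` = the largest natural number with `T b^m ≤ n` (`Nat.findGreatest`, or
`⌊(n/T)^(1/m)⌋₊`). For `n ≥ T (b₁+1)^m` we have `b ≥ b₁`. Then `n < T (b+1)^m ≤
T (1+1/b)^m b^m ≤ T (1+δ) b^m` as soon as `b ≥ b₁` where `(1 + 1/b₁)^m ≤ 1 + δ` and `b₁ ≥ b₀`
(`(1 + 1/x)^m → 1`).
-/

namespace Pool.Agent.SBhAs

theorem exists_b (m : ℕ) (hm : 1 ≤ m) (T : ℝ) (hT : 0 < T) (δ : ℝ) (hδ : 0 < δ) (b₀ : ℕ) :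
    ∃ N₀ : ℕ, ∀ n : ℕ, N₀ ≤ n → ∃ b : ℕ, b₀ ≤ b ∧ T * (b : ℝ) ^ m ≤ n ∧
      (n : ℝ) ≤ T * (1 + δ) * (b : ℝ) ^ m := by
  classical
  have hlim : Filter.Tendsto (fun n : ℕ => (1 + 1 / (n : ℝ)) ^ m) Filter.atTop (nhds 1) := by
    have h1 := (tendsto_one_div_atTop_nhds_zero_nat (𝕜 := ℝ)).const_add 1
    have h2 := h1.pow m
    simpa using h2
  have hev : ∀ᶠ n : ℕ in Filter.atTop, (1 + 1 / (n : ℝ)) ^ m ≤ 1 + δ :=
    (hlim.eventually (Iio_mem_nhds (by linarith : (1 : ℝ) < 1 + δ))).mono fun n hn => le_of_lt hn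
  obtain ⟨b₁, hb₁, hb₁0, hb₁1⟩ := (hev.and ((Filter.eventually_ge_atTop b₀).and
    (Filter.eventually_ge_atTop 1))).exists
  refine ⟨⌈T * (b₁ : ℝ) ^ m⌉₊, fun n hn => ?_⟩
  have hPb₁ : T * (b₁ : ℝ) ^ m ≤ n := (Nat.le_ceil _).trans (by exact_mod_cast hn)
  have hbound : ∀ b : ℕ, T * (b : ℝ) ^ m ≤ n → b ≤ ⌈(n : ℝ) / T⌉₊ := by
    intro b hb
    have h1 : (b : ℝ) ≤ n / T := by
      rw [le_div_iff₀ hT, mul_comm]
      refine le_trans (mul_le_mul_of_nonneg_left ?_ hT.le) hb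
      rcases Nat.eq_zero_or_pos b with h0 | h0
      · rw [h0]
        simp
      · exact le_self_pow₀ (by exact_mod_cast h0) (by omega)
    exact_mod_cast h1.trans (Nat.le_ceil _)
  set b := Nat.findGreatest (fun b : ℕ => T * (b : ℝ) ^ m ≤ n) ⌈(n : ℝ) / T⌉₊ with hb
  have hle : b₁ ≤ b := Nat.le_findGreatest (hbound b₁ hPb₁) hPb₁
  have hP : T * (b : ℝ) ^ m ≤ n :=
    Nat.findGreatest_spec (P := fun b : ℕ => T * (b : ℝ) ^ m ≤ n) (hbound b₁ hPb₁) hPb₁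
  have hnot : ¬ T * ((b + 1 : ℕ) : ℝ) ^ m ≤ n := by
    intro h
    have h1 : b + 1 ≤ b := Nat.le_findGreatest (hbound (b + 1) h) h
    omega
  push Not at hnot
  refine ⟨b, hb₁0.trans hle, hP, hnot.le.trans ?_⟩
  have hbpos : (0 : ℝ) < b := by
    have : 1 ≤ b := hb₁1.trans hle
    exact_mod_cast this
  have hb1pos : (0 : ℝ) < b₁ := by exact_mod_cast hb₁1
  have h1 : ((b + 1 : ℕ) : ℝ) ^ m = (1 + 1 / (b : ℝ)) ^ m * (b : ℝ) ^ m := by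
    rw [← mul_pow]
    congr 1
    push_cast
    field_simp
  have h2 : (1 + 1 / (b : ℝ)) ^ m ≤ 1 + δ := by
    refine le_trans (pow_le_pow_left₀ (by positivity) ?_ m) hb₁
    have h3 : (b₁ : ℝ) ≤ b := by exact_mod_cast hle
    have h4 := one_div_le_one_div_of_le hb1pos h3
    linarith
  rw [h1, mul_assoc]
  exact mul_le_mul_of_nonneg_left (mul_le_mul_of_nonneg_right h2 (by positivity)) hT.le

end Pool.Agent.SBhAs
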