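import Mathlib

/-!
# Hit lemma (package T1 of MP_f688e9_co, Thresholds)

PROOF (induction on `k`). `k = 0`: `η = ε/2`, `τ = ε/4`, `J = 0`: the sum is `c 0`, which is an
integer plus a number in `[ε/4, 3ε/4] ⊆ [0, ε)`.

`k → k+1`. Take `η₀, τ₀, J₀` for `k` and `ε/2`; we may lower `τ₀` to be `≤ 1`. Let `W = 2 ^ J₀`
(so `Nat.choose i (k+1) ≤ W` for `i ≤ J₀`), `η = min (τ₀/2) (ε/(4W))`, `τ = η/2`,
`S = ⌈2/η⌉₊ + 1`, `J = S + J₀`. Let `|c (k+1) - z - η| ≤ τ`, put `e = c (k+1) - z ∈ [η/2, 3η/2]`.
Replacing `c (k+1)` by `e` changes the sum by the integer `z * choose j (k+1)`, hence not the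
fractional part (`Int.fract_add_intCast`, `Int.fract_sub_intCast`).
Choose `z'` an integer with `0 ≤ z' + η₀ - c k < 1` (`z' = ⌈c k - η₀⌉`) and
`s = ⌈(z' + η₀ - c k)/e⌉₊ ≤ 2/η + 1`; then `0 ≤ c k + s e - z' - η₀ < e ≤ 3η/2 ≤ τ₀`.
Vandermonde (`Nat.add_choose_eq`): for `i` and `l ≤ k+1`,
`choose (s+i) l = ∑ t ∈ range (l+1), choose s (l-t) * choose i t`, hence
`∑_{l ≤ k+1} c l choose (s+i) l = ∑_{t ≤ k} c' t choose i t + e choose i (k+1)` with
`c' t = ∑_{t ≤ l ≤ k+1} c l choose s (l - t)`, in particular `c' k = c k + s e`.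
Apply the induction hypothesis to `c'` (with the integer `z'`): there is `i ≤ J₀` with
`fract (∑_{t ≤ k} c' t choose i t) < ε/2`; moreover
`0 ≤ e choose i (k+1) ≤ (3η/2) W ≤ 3ε/8 < ε/2`. If `fract a < ε/2` and `0 ≤ b < ε/2`, `ε ≤ 1`,
then `fract (a + b) = fract a + b < ε`. Take `j = s + i`.
-/

namespace Pool.Agent.SBhAs

/-- Vandermonde: the shifted polynomial in the binomial basis. -/
private theorem hit_shift (C : ℕ → ℝ) (K s i : ℕ) :
    ∑ l ∈ Finset.range K, C l * (Nat.choose (s + i) l : ℝ) =
      ∑ t ∈ Finset.range K, (∑ l ∈ Finset.range K,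
        if t ≤ l then C l * (Nat.choose s (l - t) : ℝ) else 0) * (Nat.choose i t : ℝ) := by
  simp only [Finset.sum_mul]
  rw [Finset.sum_comm]
  refine Finset.sum_congr rfl fun l hl => ?_
  rw [Nat.add_choose_eq, Finset.Nat.sum_antidiagonal_eq_sum_range_succ_mk, ← Finset.sum_range_reflect]
  push_cast
  rw [Finset.mul_sum]
  rw [Finset.mem_range] at hl
  have h1 : Finset.range (l + 1) ⊆ Finset.range K := by
    intro x hx
    rw [Finset.mem_range] at hx ⊢
    omega
  rw [← Finset.sum_subset h1]
  · refine Finset.sum_congr rfl fun t ht => ?_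
    rw [Finset.mem_range] at ht
    rw [if_pos (by omega)]
    have h3 : l - (l - t) = t := by omega
    rw [h3]
    ring
  · intro t _ ht
    rw [Finset.mem_range] at ht
    rw [if_neg (by omega), zero_mul]

/-- Polynomials (written in the binomial basis) of degree `k` whose leading coefficient is close to
a certain number modulo `1` take a value with fractional part `< ε` at some `j ≤ J`, whatever the
other coefficients are. -/
theorem hit (k : ℕ) : ∀ ε : ℝ, 0 < ε → ε ≤ 1 → ∃ η τ : ℝ, ∃ J : ℕ, 0 < τ ∧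
    ∀ (c : ℕ → ℝ) (z : ℤ), |c k - z - η| ≤ τ →
      ∃ j ≤ J, Int.fract (∑ i ∈ Finset.range (k + 1), c i * (Nat.choose j i : ℝ)) < ε := by
  induction k with
  | zero =>
    intro ε hε hε1
    refine ⟨ε / 2, ε / 4, 0, by positivity, fun c z h => ⟨0, le_rfl, ?_⟩⟩
    rw [abs_le] at h
    have h1 : Int.fract (c 0) = c 0 - z := by
      rw [← Int.fract_sub_intCast (c 0) z, Int.fract_eq_self]
      constructor <;> linarith
    simp only [zero_add, Finset.sum_range_one, Nat.choose_self, Nat.cast_one, mul_one]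
    rw [h1]
    linarith
  | succ k ih =>
    intro ε hε hε1
    obtain ⟨η₀, τ₁, J₀, hτ₁, h0⟩ := ih (ε / 2) (by positivity) (by linarith)
    set W : ℝ := 2 ^ J₀ with hW
    have hWpos : 0 < W := by positivity
    set η : ℝ := min (min τ₁ 1 / 2) (ε / (4 * W)) with hη
    have hηpos : 0 < η := by
      refine lt_min ?_ (by positivity)
      have := lt_min hτ₁ one_pos
      linarith
    have hη1 : η ≤ τ₁ / 2 := by
      have h1 := min_le_left (min τ₁ 1 / 2) (ε / (4 * W))
      have h2 := min_le_left τ₁ 1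
      rw [← hη] at h1
      linarith
    have hη2 : η * W ≤ ε / 4 := by
      have h1 := min_le_right (min τ₁ 1 / 2) (ε / (4 * W))
      rw [← hη] at h1
      have h2 := mul_le_mul_of_nonneg_right h1 hWpos.le
      have h3 : ε / (4 * W) * W = ε / 4 := by
        field_simp
      linarith
    refine ⟨η, η / 2, ⌈2 / η⌉₊ + 1 + J₀, by positivity, fun c z hcz => ?_⟩
    rw [abs_le] at hcz
    set e : ℝ := c (k + 1) - z with he
    have he1 : η / 2 ≤ e := by linarith
    have he2 : e ≤ 3 * η / 2 := by linarith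
    have hepos : 0 < e := by linarith
    set z' : ℤ := ⌈c k - η₀⌉ with hz'
    have hz1 : c k - η₀ ≤ z' := Int.le_ceil _
    have hz2 : (z' : ℝ) < c k - η₀ + 1 := Int.ceil_lt_add_one _
    have hq0 : 0 ≤ (z' + η₀ - c k) / e := div_nonneg (by linarith) hepos.le
    set s : ℕ := ⌈(z' + η₀ - c k) / e⌉₊ with hs
    have hs1 : z' + η₀ - c k ≤ s * e := by
      have h1 := Nat.le_ceil ((z' + η₀ - c k) / e)
      rw [← hs, div_le_iff₀ hepos] at h1
      exact h1
    have hs2 : s * e < z' + η₀ - c k + e := by
      have h1 := Nat.ceil_lt_add_one hq0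
      rw [← hs] at h1
      have h2 := mul_lt_mul_of_pos_right h1 hepos
      have h3 : ((z' + η₀ - c k) / e + 1) * e = z' + η₀ - c k + e := by
        field_simp
      linarith
    have hs3 : s ≤ ⌈2 / η⌉₊ + 1 := by
      have h1 : (z' + η₀ - c k) / e ≤ 2 / η := by
        rw [div_le_div_iff₀ hepos hηpos]
        nlinarith
      have h2 := Nat.ceil_le_ceil h1
      omega
    -- the new coefficients
    set C : ℕ → ℝ := fun l => if l = k + 1 then e else c l with hC
    set c' : ℕ → ℝ := fun t => ∑ l ∈ Finset.range (k + 2),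
      if t ≤ l then C l * (Nat.choose s (l - t) : ℝ) else 0 with hc'
    have hck : c' k = c k + s * e := by
      rw [hc']
      simp only []
      rw [Finset.sum_range_succ, Finset.sum_range_succ, if_pos (by omega), if_pos (by omega)]
      have h1 : ∑ l ∈ Finset.range k, (if k ≤ l then C l * (Nat.choose s (l - k) : ℝ) else 0) =
          0 := by
        refine Finset.sum_eq_zero fun l hl => ?_
        rw [Finset.mem_range] at hl
        rw [if_neg (by omega)]
      have h2 : C k = c k := by
        rw [hC]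
        simp
      have h3 : C (k + 1) = e := by
        rw [hC]
        simp
      have h4 : k + 1 - k = 1 := by omega
      rw [h1, h2, h3, h4, Nat.sub_self, Nat.choose_zero_right, Nat.choose_one_right]
      push_cast
      ring
    have hck1 : c' (k + 1) = e := by
      rw [hc']
      simp only []
      rw [Finset.sum_range_succ, if_pos le_rfl]
      have h1 : ∑ l ∈ Finset.range (k + 1),
          (if k + 1 ≤ l then C l * (Nat.choose s (l - (k + 1)) : ℝ) else 0) = 0 := by
        refine Finset.sum_eq_zero fun l hl => ?_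
        rw [Finset.mem_range] at hl
        rw [if_neg (by omega)]
      have h3 : C (k + 1) = e := by
        rw [hC]
        simp
      rw [h1, h3, Nat.sub_self, Nat.choose_zero_right]
      push_cast
      ring
    obtain ⟨i, hi, hfr⟩ := h0 c' z' (by
      rw [hck, abs_le]
      constructor <;> linarith)
    refine ⟨s + i, by omega, ?_⟩
    have hb0 : 0 ≤ e * (Nat.choose i (k + 1) : ℝ) := by positivity
    have hb1 : e * (Nat.choose i (k + 1) : ℝ) < ε / 2 := by
      have h1 : (Nat.choose i (k + 1) : ℝ) ≤ W := by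
        have h2 : Nat.choose i (k + 1) ≤ 2 ^ J₀ :=
          (Nat.choose_le_two_pow i (k + 1)).trans (Nat.pow_le_pow_right (by norm_num) hi)
        rw [hW]
        exact_mod_cast h2
      have h2 : e * (Nat.choose i (k + 1) : ℝ) ≤ 3 * η / 2 * W :=
        mul_le_mul he2 h1 (by positivity) (by positivity)
      nlinarith
    have hsum : ∑ l ∈ Finset.range (k + 1 + 1), c l * (Nat.choose (s + i) l : ℝ) =
        (∑ t ∈ Finset.range (k + 1), c' t * (Nat.choose i t : ℝ)) +
          e * (Nat.choose i (k + 1) : ℝ) + ((z * (Nat.choose (s + i) (k + 1) : ℤ) : ℤ) : ℝ) := by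
      have h1 := hit_shift C (k + 2) s i
      have h2 : ∑ t ∈ Finset.range (k + 2), c' t * (Nat.choose i t : ℝ) =
          (∑ t ∈ Finset.range (k + 1), c' t * (Nat.choose i t : ℝ)) +
          e * (Nat.choose i (k + 1) : ℝ) := by
        rw [Finset.sum_range_succ, hck1]
      have h3 : ∑ l ∈ Finset.range (k + 2), C l * (Nat.choose (s + i) l : ℝ) =
          (∑ l ∈ Finset.range (k + 1), c l * (Nat.choose (s + i) l : ℝ)) +
            e * (Nat.choose (s + i) (k + 1) : ℝ) := by
        rw [Finset.sum_range_succ]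
        congr 1
        · refine Finset.sum_congr rfl fun l hl => ?_
          rw [Finset.mem_range] at hl
          rw [hC]
          simp only []
          rw [if_neg (by omega)]
        · rw [hC]
          simp
      rw [Finset.sum_range_succ, ← h2]
      have h4 : ∑ t ∈ Finset.range (k + 2), c' t * (Nat.choose i t : ℝ) =
          ∑ l ∈ Finset.range (k + 2), C l * (Nat.choose (s + i) l : ℝ) := h1.symm
      rw [h4, h3, he]
      push_cast
      ring
    rw [hsum, Int.fract_add_intCast]
    refine lt_of_le_of_lt (Int.fract_add_le _ _) ?_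
    have hb2 : Int.fract (e * (Nat.choose i (k + 1) : ℝ)) = e * (Nat.choose i (k + 1) : ℝ) := by
      rw [Int.fract_eq_self]
      exact ⟨hb0, by linarith⟩
    rw [hb2]
    linarith

end Pool.Agent.SBhAs
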