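import Mathlib

/-!
# Newton expansion of `1/(x+j)` (package T2 of MP_f688e9_co, Thresholds)

PROOF of `recip_newton`: `F i (x+1) = F i x + F (i+1) x` (`F_succ`; clear denominators:
`∏_{t ≤ i} (x+1+t) * x = ∏_{t ≤ i+1} (x+t)` and `(-1)^i i! x + (-1)^(i+1) (i+1)! ... `; precisely
`F i x = (-1)^i i! (x+i+1) / P`, `F (i+1) x = -(-1)^i i! (i+1) / P`, `F i (x+1) = (-1)^i i! x / P`
with `P = ∏_{t ≤ i+1} (x+t)`). Then induction on `j` for all `x > 0`:
`1/(x+(j+1)) = 1/((x+1)+j) = ∑_{i ≤ j} choose j i F i (x+1) = ∑_{i ≤ j} choose j i (F i x + F (i+1) x)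
= ∑_{i ≤ j+1} choose (j+1) i F i x` (Pascal).
`abs_F_le`: `|F i x| ≤ i!/x^(i+1)` for `x > 0` (all factors are `≥ x`).
-/

namespace Pool.Agent.SBhAs

/-- `F i x = (-1)^i i! / (x (x+1) ... (x+i))` -/
noncomputable def F (i : ℕ) (x : ℝ) : ℝ :=
  (-1) ^ i * (i.factorial : ℝ) / ∏ t ∈ Finset.range (i + 1), (x + t)

theorem F_succ (i : ℕ) {x : ℝ} (hx : 0 < x) : F i (x + 1) = F i x + F (i + 1) x := by
  have hP : 0 < ∏ t ∈ Finset.range (i + 1), (x + t) := Finset.prod_pos fun t _ => by positivity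
  have hQ : 0 < ∏ t ∈ Finset.range (i + 1), (x + 1 + t) :=
    Finset.prod_pos fun t _ => by positivity
  have hi : (0 : ℝ) < x + (i + 1) := by positivity
  have h1 : (∏ t ∈ Finset.range (i + 1), (x + 1 + t)) * x =
      (∏ t ∈ Finset.range (i + 1), (x + t)) * (x + (i + 1)) := by
    have h2 := Finset.prod_range_succ (fun t : ℕ => x + (t : ℝ)) (i + 1)
    rw [Finset.prod_range_succ'] at h2
    have h3 : ∏ t ∈ Finset.range (i + 1), (x + ((t + 1 : ℕ) : ℝ)) =
        ∏ t ∈ Finset.range (i + 1), (x + 1 + t) :=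
      Finset.prod_congr rfl fun t _ => by push_cast; ring
    rw [h3] at h2
    push_cast at h2
    rw [add_zero] at h2
    exact h2
  unfold F
  rw [Finset.prod_range_succ (fun t : ℕ => x + (t : ℝ)) (i + 1), Nat.factorial_succ]
  push_cast
  rw [div_add_div _ _ hP.ne' (mul_pos hP hi).ne', div_eq_div_iff hQ.ne'
    (mul_pos hP (mul_pos hP hi)).ne']
  have h4 : (-1 : ℝ) ^ (i + 1) = -(-1) ^ i := by rw [pow_succ]; ring
  rw [h4]
  linear_combination (-1 : ℝ) ^ i * (i.factorial : ℝ) *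
    (-(∏ t ∈ Finset.range (i + 1), (x + t))) * h1

theorem recip_newton (j : ℕ) : ∀ {x : ℝ}, 0 < x →
    1 / (x + j) = ∑ i ∈ Finset.range (j + 1), F i x * (Nat.choose j i : ℝ) := by
  induction j with
  | zero =>
    intro x hx
    simp [F]
  | succ j ih =>
    intro x hx
    have h1 := ih (x := x + 1) (by linarith)
    have h2 : x + ((j + 1 : ℕ) : ℝ) = x + 1 + j := by push_cast; ring
    rw [h2, h1, Finset.sum_range_succ' _ (j + 1)]
    have h3 : ∀ i ∈ Finset.range (j + 1), F (i + 1) x * (Nat.choose (j + 1) (i + 1) : ℝ) =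
        F (i + 1) x * (Nat.choose j i : ℝ) + F (i + 1) x * (Nat.choose j (i + 1) : ℝ) := by
      intro i _
      rw [Nat.choose_succ_succ]
      push_cast
      ring
    have h4 : ∑ i ∈ Finset.range (j + 1), F (i + 1) x * (Nat.choose j (i + 1) : ℝ) +
        F 0 x * (Nat.choose j 0 : ℝ) =
        ∑ i ∈ Finset.range (j + 1), F i x * (Nat.choose j i : ℝ) := by
      rw [← Finset.sum_range_succ' (fun i => F i x * (Nat.choose j i : ℝ)) (j + 1),
        Finset.sum_range_succ, Nat.choose_succ_self]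
      simp
    rw [Finset.sum_congr rfl h3, Finset.sum_add_distrib, add_assoc]
    have h5 : F 0 x * ((Nat.choose (j + 1) 0 : ℕ) : ℝ) = F 0 x * (Nat.choose j 0 : ℝ) := by simp
    rw [h5, h4, ← Finset.sum_add_distrib]
    refine Finset.sum_congr rfl fun i _ => ?_
    rw [F_succ i hx]
    ring

theorem abs_F_le (i : ℕ) {x : ℝ} (hx : 0 < x) : |F i x| ≤ (i.factorial : ℝ) / x ^ (i + 1) := by
  have h1 : x ^ (i + 1) ≤ ∏ t ∈ Finset.range (i + 1), (x + t) := by
    have h2 := Finset.prod_le_prod (s := Finset.range (i + 1)) (f := fun _ => x)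
      (g := fun t : ℕ => x + (t : ℝ)) (fun t _ => hx.le) (fun t _ => by simp)
    rwa [Finset.prod_const, Finset.card_range] at h2
  have h3 : 0 < x ^ (i + 1) := pow_pos hx _
  unfold F
  rw [abs_div, abs_mul, abs_pow, abs_neg, abs_one, one_pow, one_mul,
    abs_of_nonneg (Nat.cast_nonneg _), abs_of_pos (h3.trans_le h1)]
  exact div_le_div_of_nonneg_left (Nat.cast_nonneg _) h3 h1

end Pool.Agent.SBhAs
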