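import Mathlib
import Pool.Agent.SBhAs.Recip

/-!
# The leading coefficient can be moved (package T3 of MP_f688e9_co, Thresholds)

PROOF. Put `g b₁ = k! N / (b₁ (b₁+1) ... (b₁+k))`, so `N * F k b₁ = (-1)^k g b₁`, `k + 1 = s`. For
`b ≤ b₁ ≤ 2b` and `b ≥ 1`: `g b₁ - g (b₁+1) = (k+1)! N / (b₁ ... (b₁+k+1))` (by `F_succ`), which is
in `[0, (k+1)! C b^s / b^(s+1)] = [0, (k+1)! C / b]`, so `≤ τ` for `b` large.
Total variation: with `b₂ = b + ⌊ε b / 2⌋₊`, `g b ≥ k! N/(b+k)^s` and `g b₂ ≤ k! N / b₂^s`,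
`b₂ ≥ b (1 + ε/2) - 1`; so, `N/b^s ≥ 4/ε`,
`g b - g b₂ ≥ k! (N/b^s) [(1 + k/b)^(-s) - (1 + ε/2 - 1/b)^(-s)]
 ≥ (4/ε) [(1+k/b)^(-s) - (1+ε/2-1/b)^(-2)]`, and as `b → ∞` the bracket tends to
`1 - (1+ε/2)^(-2) ≥ 1 - (1 - ε/2) = ε/2` (`(1-y)(1+y)^2 = 1 + y - y^2 - y^3 > 1` for `0 < y ≤ 1/2`;
strictly: `1-(1+y)^(-2) > y`), so for large `b` the difference is `≥ 1` (strictly more than
`2 - ` small). [Any other way to see `g b - g b₂ ≥ 1` is fine.]
So the interval `[g b₂, g b]` has length `≥ 1` and contains a real `y` with `(-1)^k y - η ∈ ℤ`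
(take the integer translate of `±η`); let `b₁` be the first index in `[b, b₂]` with `g b₁ ≤ y`
(`g` is antitone); then `y - τ ≤ g b₁ ≤ y` because `b₁ = b` gives `g b₁ = y`... (if `b₁ > b` then
`g (b₁-1) > y` and the step is `≤ τ`). `z = (-1)^k y - η`.
-/

namespace Pool.Agent.SBhAs

open Filter Topology

private theorem ivt {h : ℕ → ℝ} {τ y : ℝ} (hτ : 0 ≤ τ) {b : ℕ} (h1 : h b ≤ y) :
    ∀ c, b ≤ c → (∀ n, b ≤ n → n < c → |h (n + 1) - h n| ≤ τ) → y ≤ h c →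
      ∃ n, b ≤ n ∧ n ≤ c ∧ |h n - y| ≤ τ := by
  intro c hc
  induction c, hc using Nat.le_induction with
  | base =>
    intro _ h2
    refine ⟨b, le_rfl, le_rfl, ?_⟩
    rw [le_antisymm h1 h2, sub_self, abs_zero]
    exact hτ
  | succ c hc ih =>
    intro hs h2
    by_cases h3 : y ≤ h c
    · obtain ⟨n, hn, hn', h4⟩ := ih (fun n hn hn' => hs n hn (hn'.trans (Nat.lt_succ_self c))) h3
      exact ⟨n, hn, hn'.trans (Nat.le_succ c), h4⟩
    · push Not at h3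
      refine ⟨c + 1, hc.trans (Nat.le_succ c), le_rfl, ?_⟩
      have h4 := hs c hc (Nat.lt_succ_self c)
      rw [abs_of_nonneg (by linarith)]
      have h5 := (abs_le.1 h4).2
      linarith

private theorem hit {h : ℕ → ℝ} {τ η : ℝ} (hτ : 0 ≤ τ) {b c : ℕ} (hbc : b ≤ c)
    (hs : ∀ n, b ≤ n → n < c → |h (n + 1) - h n| ≤ τ) (h1 : 1 ≤ |h b - h c|) :
    ∃ n, b ≤ n ∧ n ≤ c ∧ ∃ z : ℤ, |h n - z - η| ≤ τ := by
  rcases le_total (h b) (h c) with h2 | h2
  · rw [abs_of_nonpos (by linarith)] at h1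
    have h3 : h b ≤ ⌈h b - η⌉ + η := by
      have := Int.le_ceil (h b - η)
      linarith
    have h4 : (⌈h b - η⌉ : ℝ) + η ≤ h c := by
      have := Int.ceil_lt_add_one (h b - η)
      linarith
    obtain ⟨n, hn, hn', h5⟩ := ivt hτ h3 c hbc hs h4
    exact ⟨n, hn, hn', ⌈h b - η⌉, by rwa [sub_sub]⟩
  · rw [abs_of_nonneg (by linarith)] at h1
    have h3 : -h b ≤ -(⌊h b - η⌋ + η) := by
      have := Int.floor_le (h b - η)
      linarith
    have h4 : -((⌊h b - η⌋ : ℝ) + η) ≤ -h c := by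
      have := Int.lt_floor_add_one (h b - η)
      linarith
    obtain ⟨n, hn, hn', h5⟩ := ivt (h := fun n => -h n) hτ h3 c hbc
      (fun n hn hn' => by
        rw [← abs_neg]
        convert hs n hn hn' using 2
        ring) h4
    refine ⟨n, hn, hn', ⌊h b - η⌋, ?_⟩
    rw [← abs_neg]
    convert h5 using 2
    ring

private theorem prod_le (k : ℕ) (hk : 1 ≤ k) {b c : ℕ} (hb : 1 ≤ b) (hbc : b ≤ c) :
    (∏ t ∈ Finset.range (k + 1), ((b : ℝ) + t)) * (((c : ℝ) + k) / (b + k)) ^ 2 ≤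
      ∏ t ∈ Finset.range (k + 1), ((c : ℝ) + t) := by
  have hb' : (1 : ℝ) ≤ b := by exact_mod_cast hb
  have hbc' : (b : ℝ) ≤ c := by exact_mod_cast hbc
  have hk0 : (0 : ℝ) ≤ k := Nat.cast_nonneg k
  have hr : 1 ≤ ((c : ℝ) + k) / (b + k) := by
    rw [one_le_div (by linarith)]
    linarith
  calc (∏ t ∈ Finset.range (k + 1), ((b : ℝ) + t)) * (((c : ℝ) + k) / (b + k)) ^ 2
      ≤ (∏ t ∈ Finset.range (k + 1), ((b : ℝ) + t)) * (((c : ℝ) + k) / (b + k)) ^ (k + 1) := by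
        refine mul_le_mul_of_nonneg_left (pow_le_pow_right₀ hr (by omega)) ?_
        exact Finset.prod_nonneg fun t _ => by positivity
    _ = ∏ t ∈ Finset.range (k + 1), (((b : ℝ) + t) * (((c : ℝ) + k) / (b + k))) := by
        rw [Finset.prod_mul_distrib, Finset.prod_const, Finset.card_range]
    _ ≤ ∏ t ∈ Finset.range (k + 1), ((c : ℝ) + t) := by
        refine Finset.prod_le_prod (fun t _ => by positivity) fun t ht => ?_
        have ht' : (t : ℝ) ≤ k := by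
          have := Finset.mem_range.1 ht
          exact_mod_cast Nat.lt_succ_iff.1 this
        rw [← mul_div_assoc, div_le_iff₀ (by linarith)]
        nlinarith [mul_nonneg (sub_nonneg.2 hbc') (sub_nonneg.2 ht')]

private theorem prod_le' (k : ℕ) (b : ℕ) :
    (∏ t ∈ Finset.range (k + 1), ((b : ℝ) + t)) ≤ ((b : ℝ) + k) ^ (k + 1) := by
  calc (∏ t ∈ Finset.range (k + 1), ((b : ℝ) + t))
      ≤ ∏ _t ∈ Finset.range (k + 1), ((b : ℝ) + k) := by
        refine Finset.prod_le_prod (fun t _ => by positivity) fun t ht => ?_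
        have ht' : (t : ℝ) ≤ k := by
          have := Finset.mem_range.1 ht
          exact_mod_cast Nat.lt_succ_iff.1 this
        linarith
    _ = ((b : ℝ) + k) ^ (k + 1) := by
        rw [Finset.prod_const, Finset.card_range]

private theorem limit (k : ℕ) (ε : ℝ) (hε : 0 < ε) (hε1 : ε ≤ 1) :
    ∀ᶠ b : ℕ in atTop, 1 ≤ 4 / ε * (((b : ℝ) / (b + k)) ^ (k + 1) *
      (1 - (((b : ℝ) + k) / (((b + ⌊ε / 2 * b⌋₊ : ℕ) : ℝ) + k)) ^ 2)) := by
  have h1 : Tendsto (fun b : ℕ => (b : ℝ) / (b + k)) atTop (𝓝 1) :=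
    tendsto_natCast_div_add_atTop (k : ℝ)
  have h2 : Tendsto (fun b : ℕ => (⌊ε / 2 * (b : ℝ)⌋₊ : ℝ) / (b : ℝ)) atTop (𝓝 (ε / 2)) :=
    (tendsto_nat_floor_mul_div_atTop (R := ℝ) (by positivity)).comp tendsto_natCast_atTop_atTop
  have h3 : Tendsto (fun b : ℕ => (k : ℝ) / (b : ℝ)) atTop (𝓝 0) :=
    tendsto_const_div_atTop_nhds_zero_nat (k : ℝ)
  have h4 : Tendsto (fun b : ℕ => (1 + (k : ℝ) / b) /
      (1 + (⌊ε / 2 * (b : ℝ)⌋₊ : ℝ) / (b : ℝ) + k / b)) atTop (𝓝 ((1 + 0) / (1 + ε / 2 + 0))) :=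
    (tendsto_const_nhds.add h3).div ((tendsto_const_nhds.add h2).add h3) (by positivity)
  have h5 : Tendsto (fun b : ℕ => ((b : ℝ) + k) / (((b + ⌊ε / 2 * b⌋₊ : ℕ) : ℝ) + k)) atTop
      (𝓝 ((1 + 0) / (1 + ε / 2 + 0))) := by
    refine h4.congr' ?_
    filter_upwards [eventually_ge_atTop 1] with b hb
    have hb' : (0 : ℝ) < b := by exact_mod_cast hb
    rw [Nat.cast_add]
    field_simp
  have h6 : Tendsto (fun b : ℕ => 4 / ε * (((b : ℝ) / (b + k)) ^ (k + 1) *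
      (1 - (((b : ℝ) + k) / (((b + ⌊ε / 2 * b⌋₊ : ℕ) : ℝ) + k)) ^ 2))) atTop
      (𝓝 (4 / ε * (1 ^ (k + 1) * (1 - ((1 + 0) / (1 + ε / 2 + 0)) ^ 2)))) :=
    tendsto_const_nhds.mul ((h1.pow (k + 1)).mul (tendsto_const_nhds.sub (h5.pow 2)))
  refine h6.eventually_const_le ?_
  rw [one_pow, one_mul, add_zero, add_zero, div_pow, one_pow]
  have h7 : 0 < (1 + ε / 2) ^ 2 := by positivity
  rw [one_sub_div h7.ne', div_mul_div_comm, lt_div_iff₀ (by positivity)]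
  nlinarith [mul_pos hε hε, mul_pos (mul_pos hε hε) hε]

/-- For `N` of size about `b^(k+1)` some `b₁ ∈ [b, (1+ε/2) b]` has leading coefficient `N F k b₁`
within `τ` of `η` modulo `1`. -/
theorem move (k : ℕ) (hk : 1 ≤ k) (ε : ℝ) (hε : 0 < ε) (hε1 : ε ≤ 1) (η τ : ℝ) (hτ : 0 < τ)
    (C : ℝ) : ∃ b₀ : ℕ, ∀ b : ℕ, b₀ ≤ b → ∀ N : ℝ, 4 / ε * (b : ℝ) ^ (k + 1) ≤ N →
      N ≤ C * (b : ℝ) ^ (k + 1) →
      ∃ b₁ : ℕ, b ≤ b₁ ∧ (b₁ : ℝ) ≤ (1 + ε / 2) * b ∧ ∃ z : ℤ, |N * F k b₁ - z - η| ≤ τ := by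
  have hstepE : ∀ᶠ b : ℕ in atTop, C * ((k + 1).factorial : ℝ) / b ≤ τ := by
    have h1 : Tendsto (fun b : ℕ => C * ((k + 1).factorial : ℝ) / (b : ℝ)) atTop (𝓝 0) :=
      tendsto_const_div_atTop_nhds_zero_nat _
    exact h1.eventually_le_const hτ
  obtain ⟨b₀, hb₀⟩ := eventually_atTop.1
    (((limit k ε hε hε1).and hstepE).and (eventually_ge_atTop 1))
  refine ⟨b₀, fun b hb N hN hN' => ?_⟩
  obtain ⟨⟨hlim, hst⟩, hb1⟩ := hb₀ b hb
  have hbR : (1 : ℝ) ≤ b := by exact_mod_cast hb1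
  have hbk : 0 < (b : ℝ) ^ (k + 1) := by positivity
  have hN0 : 0 < N := lt_of_lt_of_le (by positivity) hN
  set c := b + ⌊ε / 2 * (b : ℝ)⌋₊ with hc
  have hbc : b ≤ c := Nat.le_add_right _ _
  have hcR : (c : ℝ) ≤ (1 + ε / 2) * b := by
    rw [hc, Nat.cast_add]
    have := Nat.floor_le (show 0 ≤ ε / 2 * (b : ℝ) by positivity)
    linarith
  have hs : ∀ n : ℕ, b ≤ n → n < c →
      |N * F k ((n + 1 : ℕ) : ℝ) - N * F k (n : ℝ)| ≤ τ := by
    intro n hn _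
    have hnb : (b : ℝ) ≤ n := by exact_mod_cast hn
    have hn0 : (0 : ℝ) < n := by linarith
    have h1 : N * F k ((n + 1 : ℕ) : ℝ) - N * F k (n : ℝ) = N * F (k + 1) n := by
      rw [Nat.cast_add, Nat.cast_one, F_succ k hn0]
      ring
    rw [h1, abs_mul, abs_of_pos hN0]
    calc N * |F (k + 1) (n : ℝ)|
        ≤ (C * (b : ℝ) ^ (k + 1)) * (((k + 1).factorial : ℝ) / (b : ℝ) ^ (k + 1 + 1)) := by
          refine mul_le_mul hN' ((abs_F_le (k + 1) hn0).trans ?_) (abs_nonneg _)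
            (hN0.le.trans hN')
          gcongr
      _ = C * ((k + 1).factorial : ℝ) / b := by
          rw [pow_succ (b : ℝ) (k + 1)]
          field_simp
      _ ≤ τ := hst
  have hbig : 1 ≤ |N * F k (b : ℝ) - N * F k (c : ℝ)| := by
    set Pb := ∏ t ∈ Finset.range (k + 1), ((b : ℝ) + t) with hPb
    set Pc := ∏ t ∈ Finset.range (k + 1), ((c : ℝ) + t) with hPc
    have hb0 : (0 : ℝ) < b := by linarith
    have hc0 : (0 : ℝ) < c := by
      have : (b : ℝ) ≤ c := by exact_mod_cast hbc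
      linarith
    have hPb0 : 0 < Pb := Finset.prod_pos fun t _ => by positivity
    have hPc0 : 0 < Pc := Finset.prod_pos fun t _ => by positivity
    have h1 := prod_le k hk hb1 hbc
    have h2 := prod_le' k b
    rw [← hPb, ← hPc] at h1
    rw [← hPb] at h2
    have h3 : N * F k (b : ℝ) - N * F k (c : ℝ) =
        (-1) ^ k * ((k.factorial : ℝ) * N * (1 / Pb - 1 / Pc)) := by
      unfold F
      rw [← hPb, ← hPc]
      ring
    have h4 : 1 / Pc ≤ 1 / Pb * (((b : ℝ) + k) / (c + k)) ^ 2 := by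
      rw [one_div_mul_eq_div, div_le_div_iff₀ hPc0 hPb0, one_mul]
      calc Pb = (((b : ℝ) + k) / (c + k)) ^ 2 * (Pb * (((c : ℝ) + k) / (b + k)) ^ 2) := by
            field_simp
        _ ≤ (((b : ℝ) + k) / (c + k)) ^ 2 * Pc := by
            exact mul_le_mul_of_nonneg_left h1 (by positivity)
    have h5 : (((b : ℝ) + k) / (c + k)) ^ 2 ≤ 1 := by
      refine pow_le_one₀ (by positivity) ?_
      rw [div_le_one (by positivity)]
      have : (b : ℝ) ≤ c := by exact_mod_cast hbc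
      linarith
    have h6 : 4 / ε * ((b : ℝ) / (b + k)) ^ (k + 1) ≤ N * (1 / Pb) := by
      rw [mul_one_div, le_div_iff₀ hPb0]
      calc 4 / ε * ((b : ℝ) / (b + k)) ^ (k + 1) * Pb
          ≤ 4 / ε * ((b : ℝ) / (b + k)) ^ (k + 1) * ((b : ℝ) + k) ^ (k + 1) := by
            exact mul_le_mul_of_nonneg_left h2 (by positivity)
        _ = 4 / ε * (b : ℝ) ^ (k + 1) := by
            rw [div_pow]
            field_simp
        _ ≤ N := hN
    have h7 : 1 ≤ (k.factorial : ℝ) * N * (1 / Pb - 1 / Pc) := by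
      have hf : (1 : ℝ) ≤ k.factorial := by
        have := Nat.factorial_pos k
        exact_mod_cast this
      have h8 : 1 ≤ N * (1 / Pb - 1 / Pc) := by
        calc (1 : ℝ) ≤ 4 / ε * (((b : ℝ) / (b + k)) ^ (k + 1) *
              (1 - (((b : ℝ) + k) / ((c : ℝ) + k)) ^ 2)) := hlim
          _ = (4 / ε * ((b : ℝ) / (b + k)) ^ (k + 1)) *
              (1 - (((b : ℝ) + k) / ((c : ℝ) + k)) ^ 2) := by ring
          _ ≤ (N * (1 / Pb)) * (1 - (((b : ℝ) + k) / ((c : ℝ) + k)) ^ 2) := by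
            exact mul_le_mul_of_nonneg_right h6 (by linarith)
          _ = N * (1 / Pb - 1 / Pb * (((b : ℝ) + k) / ((c : ℝ) + k)) ^ 2) := by ring
          _ ≤ N * (1 / Pb - 1 / Pc) := by
            refine mul_le_mul_of_nonneg_left ?_ hN0.le
            linarith
      calc (1 : ℝ) ≤ N * (1 / Pb - 1 / Pc) := h8
        _ = 1 * (N * (1 / Pb - 1 / Pc)) := (one_mul _).symm
        _ ≤ (k.factorial : ℝ) * (N * (1 / Pb - 1 / Pc)) := by
          exact mul_le_mul_of_nonneg_right hf (by linarith)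
        _ = (k.factorial : ℝ) * N * (1 / Pb - 1 / Pc) := by ring
    rw [h3, abs_mul, abs_pow, abs_neg, abs_one, one_pow, one_mul]
    exact h7.trans (le_abs_self _)
  obtain ⟨n, hn, hn', z, hz⟩ := hit (h := fun n : ℕ => N * F k (n : ℝ)) (η := η) hτ.le hbc hs hbig
  refine ⟨n, hn, ?_, z, hz⟩
  have : (n : ℝ) ≤ c := by exact_mod_cast hn'
  linarith

end Pool.Agent.SBhAs
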