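import Mathlib
import Pool.Agent.SBhAs.Hit
import Pool.Agent.SBhAs.Recip
import Pool.Agent.SBhAs.Move

/-!
# One digit (package T4 of MP_f688e9_co, Thresholds)

PROOF. WLOG `ε' ≤ 1`. `s = k + 1`, `k ≥ 1`. Take `η, τ, J` from `hit k (ε'/2)`. By `move` (for
`b ≥ b₀`) there is `b₁ ∈ [b, (1+ε/2) b]` with `N F k b₁ ≡ η` modulo `1` up to `τ`. By
`recip_newton`, for every `j ≤ J`,
`N/(b₁+j) = ∑_{i ≤ j} N F i b₁ choose j i = ∑_{i ≤ k} (...) + E_j`, where (for `j < k` the terms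
`j < i ≤ k` vanish, `choose j i = 0`) `|E_j| ≤ ∑_{k < i ≤ J} N i!/b₁^(i+1) 2^J ≤ J J! 2^J C / b`
(`abs_F_le`, `N ≤ C b^(k+1)`, `i + 1 ≥ k + 2`), so `|E_j| ≤ ε'/4` for `b` large. Apply the hit
property to the coefficients `c i = N F i b₁` with `c 0` replaced by `c 0 - ε'/4` (`k ≥ 1`, so the
leading coefficient is unchanged): some `j ≤ J` has `fract (∑_{i ≤ k} N F i b₁ choose j i - ε'/4)
< ε'/2`. So `N/(b₁+j) = integer + (number in [0, ε'/2)) + ε'/4 + E_j` with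
`0 ≤ ... < ε'/2 + ε'/4 + ε'/4 = ε' ≤ 1`, hence `fract (N/(b₁+j)) < ε'`. `b' = b₁ + j ≤
(1+ε/2) b + J ≤ (1+ε) b` for `b` large.
-/

namespace Pool.Agent.SBhAs

/-- the terms of the Newton expansion beyond the degree `k` -/
private theorem step_tail (k J j : ℕ) (hj : j ≤ J) (N C : ℝ) (b b₁ : ℕ) (hb : 1 ≤ b)
    (hb₁ : b ≤ b₁) (hN0 : 0 ≤ N) (hN : N ≤ C * (b : ℝ) ^ (k + 1)) :
    |∑ i ∈ Finset.Ico (k + 1) (J + k + 1), N * F i b₁ * (Nat.choose j i : ℝ)| ≤
      (J : ℝ) * ((J + k).factorial * 2 ^ J * C) / b := by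
  have hb0 : (0 : ℝ) < b := by exact_mod_cast hb
  have hb1 : (0 : ℝ) < b₁ := by exact_mod_cast (lt_of_lt_of_le hb hb₁)
  have hC : 0 ≤ C := by
    have h1 : (0 : ℝ) ≤ C * (b : ℝ) ^ (k + 1) := hN0.trans hN
    exact nonneg_of_mul_nonneg_left h1 (by positivity)
  have hterm : ∀ i ∈ Finset.Ico (k + 1) (J + k + 1),
      |N * F i b₁ * (Nat.choose j i : ℝ)| ≤ (J + k).factorial * 2 ^ J * C / b := by
    intro i hi
    rw [Finset.mem_Ico] at hi
    rw [abs_mul, abs_mul, abs_of_nonneg hN0, Nat.abs_cast]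
    have h1 : |F i b₁| ≤ (i.factorial : ℝ) / (b₁ : ℝ) ^ (i + 1) := abs_F_le i hb1
    have h2 : (i.factorial : ℝ) / (b₁ : ℝ) ^ (i + 1) ≤
        ((J + k).factorial : ℝ) / (b : ℝ) ^ (k + 2) := by
      have h3 : (i.factorial : ℝ) ≤ ((J + k).factorial : ℝ) := by
        exact_mod_cast Nat.factorial_le (by omega)
      have h4 : (b : ℝ) ^ (k + 2) ≤ (b₁ : ℝ) ^ (i + 1) := by
        calc (b : ℝ) ^ (k + 2) ≤ (b : ℝ) ^ (i + 1) :=
              pow_le_pow_right₀ (by exact_mod_cast hb) (by omega)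
          _ ≤ (b₁ : ℝ) ^ (i + 1) := pow_le_pow_left₀ hb0.le (by exact_mod_cast hb₁) _
      exact div_le_div₀ (by positivity) h3 (by positivity) h4
    have h5 : (Nat.choose j i : ℝ) ≤ 2 ^ J := by
      have h6 : Nat.choose j i ≤ 2 ^ J :=
        (Nat.choose_le_two_pow j i).trans (Nat.pow_le_pow_right (by norm_num) hj)
      exact_mod_cast h6
    calc N * |F i b₁| * (Nat.choose j i : ℝ)
        ≤ (C * (b : ℝ) ^ (k + 1)) * (((J + k).factorial : ℝ) / (b : ℝ) ^ (k + 2)) * 2 ^ J := by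
          apply mul_le_mul _ h5 (by positivity) (by positivity)
          exact mul_le_mul hN (h1.trans h2) (abs_nonneg _) (by positivity)
      _ = (J + k).factorial * 2 ^ J * C / b := by
          rw [show k + 2 = (k + 1) + 1 from rfl, pow_succ (b : ℝ) (k + 1)]
          field_simp
  refine (Finset.abs_sum_le_sum_abs _ _).trans ((Finset.sum_le_sum hterm).trans ?_)
  rw [Finset.sum_const, Nat.card_Ico, nsmul_eq_mul]
  rw [show J + k + 1 - (k + 1) = J by omega, ← mul_div_assoc]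

/-- If `4/ε ≤ N/b^s ≤ C` then some integer `b'` in `[b, (1+ε) b]` has `fract (N/b') < ε'`. -/
theorem step (s : ℕ) (hs : 2 ≤ s) (ε : ℝ) (hε : 0 < ε) (hε1 : ε ≤ 1) (ε' : ℝ) (hε' : 0 < ε')
    (C : ℝ) : ∃ b₀ : ℕ, ∀ b : ℕ, b₀ ≤ b → ∀ N : ℝ, 4 / ε * (b : ℝ) ^ s ≤ N →
      N ≤ C * (b : ℝ) ^ s →
      ∃ b' : ℕ, b ≤ b' ∧ (b' : ℝ) ≤ (1 + ε) * b ∧ Int.fract (N / b') < ε' := by
  obtain ⟨k, rfl⟩ : ∃ k, s = k + 1 := ⟨s - 1, by omega⟩
  have hk : 1 ≤ k := by omega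
  set e : ℝ := min ε' 1 with he
  have he0 : 0 < e := lt_min hε' one_pos
  have he1 : e ≤ 1 := min_le_right _ _
  obtain ⟨η, τ, J, hτ, hJ⟩ := hit k (e / 2) (by linarith) (by linarith)
  obtain ⟨b₀, hb₀⟩ := move k hk ε hε hε1 η τ hτ C
  set K : ℝ := (J : ℝ) * ((J + k).factorial * 2 ^ J * C) with hK
  refine ⟨b₀ + 1 + ⌈4 * K / e⌉₊ + ⌈2 * J / ε⌉₊, fun b hb N hN1 hN2 => ?_⟩
  obtain ⟨b₁, hbb, hb₁, z, hz⟩ := hb₀ b (by omega) N hN1 hN2
  have hb1 : 1 ≤ b := by omega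
  have hbp : (0 : ℝ) < b := by exact_mod_cast hb1
  have hb1p : (0 : ℝ) < b₁ := by exact_mod_cast (lt_of_lt_of_le hb1 hbb)
  have hN0 : 0 ≤ N := le_trans (by positivity) hN1
  have hKb : K / b ≤ e / 4 := by
    have h1 : 4 * K / e ≤ b :=
      (Nat.le_ceil _).trans (Nat.cast_le.2 (show ⌈4 * K / e⌉₊ ≤ b by omega))
    rw [div_le_iff₀ he0] at h1
    rw [div_le_iff₀ hbp]
    linarith
  have hJb : (J : ℝ) ≤ ε / 2 * b := by
    have h1 : 2 * J / ε ≤ b :=
      (Nat.le_ceil _).trans (Nat.cast_le.2 (show ⌈2 * (J : ℝ) / ε⌉₊ ≤ b by omega))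
    rw [div_le_iff₀ hε] at h1
    linarith
  set c : ℕ → ℝ := fun i => N * F i b₁ - if i = 0 then e / 4 else 0 with hc
  have hck : c k = N * F k b₁ := by
    rw [hc]
    simp only
    rw [if_neg (by omega), sub_zero]
  obtain ⟨j, hjJ, hj⟩ := hJ c z (by rw [hck]; exact hz)
  refine ⟨b₁ + j, by omega, ?_, ?_⟩
  · push_cast
    have h1 : (j : ℝ) ≤ J := by exact_mod_cast hjJ
    linarith
  · have hsum : ∑ i ∈ Finset.range (k + 1), c i * (Nat.choose j i : ℝ) =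
        ∑ i ∈ Finset.range (k + 1), N * F i b₁ * (Nat.choose j i : ℝ) - e / 4 := by
      rw [hc]
      simp only [sub_mul]
      rw [Finset.sum_sub_distrib]
      congr 1
      rw [Finset.sum_eq_single 0]
      · simp
      · intro i _ hi
        rw [if_neg hi, zero_mul]
      · intro h
        exact absurd (Finset.mem_range.2 (by omega)) h
    have hNew : N / ((b₁ + j : ℕ) : ℝ) =
        ∑ i ∈ Finset.range (J + k + 1), N * F i b₁ * (Nat.choose j i : ℝ) := by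
      have h1 := recip_newton j hb1p
      have h2 : ∑ i ∈ Finset.range (j + 1), F i b₁ * (Nat.choose j i : ℝ) =
          ∑ i ∈ Finset.range (J + k + 1), F i b₁ * (Nat.choose j i : ℝ) := by
        apply Finset.sum_subset
        · intro i hi
          rw [Finset.mem_range] at hi ⊢
          omega
        · intro i _ hi
          rw [Finset.mem_range, not_lt] at hi
          rw [Nat.choose_eq_zero_of_lt (by omega), Nat.cast_zero, mul_zero]
      rw [Nat.cast_add, ← mul_one_div, h1, h2, Finset.mul_sum]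
      exact Finset.sum_congr rfl fun i _ => (mul_assoc _ _ _).symm
    set E : ℝ := ∑ i ∈ Finset.Ico (k + 1) (J + k + 1), N * F i b₁ * (Nat.choose j i : ℝ) with hE
    have hEle : |E| ≤ e / 4 := (step_tail k J j hjJ N C b b₁ hb1 hbb hN0 hN2).trans hKb
    have hsplit : N / ((b₁ + j : ℕ) : ℝ) =
        (∑ i ∈ Finset.range (k + 1), c i * (Nat.choose j i : ℝ)) + (e / 4 + E) := by
      rw [hNew, hsum, ← Finset.sum_range_add_sum_Ico _ (show k + 1 ≤ J + k + 1 by omega)]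
      ring
    have hE2 := abs_le.1 hEle
    rw [hsplit]
    have h3 : Int.fract (e / 4 + E) ≤ e / 4 + E := by
      have h4 : (0 : ℤ) ≤ ⌊e / 4 + E⌋ := Int.floor_nonneg.2 (by linarith)
      have h5 : (0 : ℝ) ≤ (⌊e / 4 + E⌋ : ℝ) := by exact_mod_cast h4
      have h6 := Int.self_sub_floor (e / 4 + E)
      linarith
    calc Int.fract ((∑ i ∈ Finset.range (k + 1), c i * (Nat.choose j i : ℝ)) + (e / 4 + E))
        ≤ Int.fract (∑ i ∈ Finset.range (k + 1), c i * (Nat.choose j i : ℝ)) +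
          Int.fract (e / 4 + E) := Int.fract_add_le _ _
      _ < e / 2 + e / 2 := by linarith [hE2.2]
      _ = e := by ring
      _ ≤ ε' := min_le_left _ _

end Pool.Agent.SBhAs
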