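import Mathlib
import Pool.Agent.SBhAs.Step

/-!
# All digits (package T5 of MP_f688e9_co, Thresholds)

PROOF (induction on `r ≥ 1`, all other data universally quantified; `ε'` may be lowered to `≤ 1`).

`r = 1`. `N = n - θ 0 b` satisfies `(8/ε) b^2 ≤ N ≤ (hi + 1) b^2` for `b` large (`lo > 8/ε`
strictly because `(1+ε)^1 ≥ 1`). `step 2` for `N/2` with `ε'/8`: `b' ∈ [b, (1+ε) b]`,
`fract ((N/2)/b') < ε'/8`. Put `q 0 = b'`, `g = ⌊N/(2 b')⌋`, `d 1 = 2 g` (even),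
`d 0 = n - b' * d 1 = θ 0 b + rem`, `rem = N - 2 b' g = 2 b' fract(N/(2b')) ∈ [0, 2 b' ε'/8] ⊆
[0, ε' b/2]`. `n = d 0 + q 0 * d 1`. Bounds: `d 1 ≤ N/b' ≤ N/b ≤ (hi + ε') b` and
`d 1 ≥ N/b' - 2 ≥ N/((1+ε) b) - 2 ≥ (lo/(1+ε) - ε') b` for `b` large.

`r → r+1`. `N = n - θ 0 b`, `(4/ε) b^(r+2) ≤ N ≤ (hi+1) b^(r+2)` for `b` large; `step (r+2)` with
`ε'/4`: `b'`, put `q 0 = b'`, `n' = ⌊N/b'⌋`, `d 0 = θ 0 b + (N - b' n')`,
`0 ≤ N - b' n' = b' fract (N/b') ≤ 2b ε'/4`. So `n = d 0 + b' n'`. For `b` large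
`lo' b^(r+1) ≤ n' ≤ hi' b^(r+1)` with `lo' = lo/(1+ε) - ε₂`, `hi' = hi + ε₂`, where `ε₂ ∈ (0, ε'/2]`
is so small that still `8/ε (1+ε)^r < lo'`. Apply the induction hypothesis to `θ (· + 1)`, `ε'/2`,
`lo'`, `hi'` and `n'`; shift the resulting `q, d` by one (`Fin`-free: `q i = q' (i-1)` for
`i ≥ 1`); `n = d 0 + b' ∑_j d' j ∏_{i<j} q' i = ∑_j d j ∏_{i<j} q i`
(`Finset.prod_range_succ'`, `Finset.sum_range_succ'`). Final bounds:
`lo'/(1+ε)^r - ε'/2 ≥ lo/(1+ε)^(r+1) - ε'`, `hi' + ε'/2 ≤ hi + ε'`.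
-/

namespace Pool.Agent.SBhAs

/-- One digit peeled off: the quotient is known up to `t`, the remainder up to `m * t`. -/
private lemma peel (k : ℕ) (hk : 1 ≤ k) (ε : ℝ) (hε : 0 < ε) (hε1 : ε ≤ 1) (t : ℝ) (ht : 0 < t)
    (θ : ℤ) (m : ℕ) (hm : 1 ≤ m) (lo hi : ℝ) (hlo : 4 * m / ε < lo) (hlh : lo ≤ hi) :
    ∃ b₀ : ℕ, ∀ b : ℕ, b₀ ≤ b → ∀ n : ℤ, lo * (b : ℝ) ^ (k + 1) ≤ n →
      (n : ℝ) ≤ hi * (b : ℝ) ^ (k + 1) →
      ∃ b' g : ℤ, (b : ℤ) ≤ b' ∧ (b' : ℝ) ≤ (1 + ε) * b ∧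
        0 ≤ (n : ℝ) - θ * b - m * b' * g ∧ (n : ℝ) - θ * b - m * b' * g ≤ m * t * b ∧
        (lo / (1 + ε) - t) * (b : ℝ) ^ k ≤ m * g ∧ (m : ℝ) * g ≤ (hi + t) * (b : ℝ) ^ k := by
  obtain ⟨b₁, hb₁⟩ := step (k + 1) (by omega) ε hε hε1 (t / 2) (by positivity) (hi + |(θ : ℝ)|)
  obtain ⟨b₂, hb₂⟩ := exists_nat_ge (|(θ : ℝ)| / (lo - 4 * m / ε))
  obtain ⟨b₃, hb₃⟩ := exists_nat_ge ((|(θ : ℝ)| + m * t) / t)
  refine ⟨b₁ + b₂ + b₃ + 1, fun b hb n hn1 hn2 => ?_⟩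
  have hb1 : (1 : ℝ) ≤ b := by exact_mod_cast (by omega : 1 ≤ b)
  have hb0 : (0 : ℝ) < b := by linarith
  have hbb₂ : (b₂ : ℝ) ≤ b := by exact_mod_cast (by omega : b₂ ≤ b)
  have hbb₃ : (b₃ : ℝ) ≤ b := by exact_mod_cast (by omega : b₃ ≤ b)
  have hm1 : (1 : ℝ) ≤ m := by exact_mod_cast hm
  have hm0 : (0 : ℝ) < m := by linarith
  have hκ : 0 < lo - 4 * m / ε := by linarith
  have hA : |(θ : ℝ)| ≤ (lo - 4 * m / ε) * b := by
    have := hb₂.trans hbb₂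
    rw [div_le_iff₀ hκ] at this
    linarith
  have hB : |(θ : ℝ)| + m * t ≤ t * b := by
    have := hb₃.trans hbb₃
    rw [div_le_iff₀ ht] at this
    linarith
  have hθ1 : (θ : ℝ) ≤ |(θ : ℝ)| := le_abs_self _
  have hθ2 : -(θ : ℝ) ≤ |(θ : ℝ)| := neg_le_abs _
  have hθ0 : 0 ≤ |(θ : ℝ)| := abs_nonneg _
  have hbk : (b : ℝ) ≤ (b : ℝ) ^ k := le_self_pow₀ hb1 (by omega)
  have hbk0 : 0 < (b : ℝ) ^ k := by positivity
  have hpow : (b : ℝ) ^ (k + 1) = (b : ℝ) ^ k * b := pow_succ _ _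
  have hlo0 : 0 < lo := lt_trans (by positivity) hlo
  have hhi0 : 0 < hi := by linarith
  have hTb : |(θ : ℝ)| * b ≤ |(θ : ℝ)| * (b : ℝ) ^ (k + 1) := by
    apply mul_le_mul_of_nonneg_left _ hθ0
    exact le_self_pow₀ hb1 (by omega)
  have hN1 : 4 * m / ε * (b : ℝ) ^ (k + 1) ≤ (n : ℝ) - θ * b := by
    have h1 : (θ : ℝ) * b ≤ (lo - 4 * m / ε) * (b : ℝ) ^ (k + 1) := by
      rw [hpow]
      have h2 : (θ : ℝ) ≤ (lo - 4 * m / ε) * (b : ℝ) ^ k := by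
        have h3 : (lo - 4 * m / ε) * b ≤ (lo - 4 * m / ε) * (b : ℝ) ^ k :=
          mul_le_mul_of_nonneg_left hbk hκ.le
        linarith
      have h4 := mul_le_mul_of_nonneg_right h2 hb0.le
      linarith
    linarith
  have hN0 : 0 < (n : ℝ) - θ * b := lt_of_lt_of_le (by positivity) hN1
  have hN2 : (n : ℝ) - θ * b ≤ (hi + |(θ : ℝ)|) * (b : ℝ) ^ (k + 1) := by
    have h1 : -(θ : ℝ) * b ≤ |(θ : ℝ)| * b := mul_le_mul_of_nonneg_right hθ2 hb0.le
    linarith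
  obtain ⟨b', h1, h2, h3⟩ := hb₁ b (by omega) (((n : ℝ) - θ * b) / m)
    (by
      rw [le_div_iff₀ hm0]
      calc 4 / ε * (b : ℝ) ^ (k + 1) * m = 4 * m / ε * (b : ℝ) ^ (k + 1) := by ring
        _ ≤ _ := hN1)
    (by
      refine le_trans (div_le_self hN0.le hm1) hN2)
  have hb'b : (b : ℝ) ≤ b' := by exact_mod_cast h1
  have hb'0 : (0 : ℝ) < b' := by linarith
  set N : ℝ := (n : ℝ) - θ * b with hN
  have hfl : (⌊N / m / b'⌋ : ℝ) = N / m / b' - Int.fract (N / m / b') := by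
    rw [← Int.self_sub_floor]; ring
  have hf0 : 0 ≤ Int.fract (N / m / b') := Int.fract_nonneg _
  set f : ℝ := Int.fract (N / m / b') with hf
  have hrem : N - m * b' * (N / m / b' - f) = m * b' * f := by
    field_simp
    ring
  have hmg : (m : ℝ) * (N / m / b' - f) = N / b' - m * f := by
    field_simp
  refine ⟨b', ⌊N / m / b'⌋, by exact_mod_cast h1, by push_cast; exact h2, ?_, ?_, ?_, ?_⟩
  · rw [hfl]
    push_cast
    rw [hrem]
    positivity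
  · rw [hfl]
    push_cast
    rw [hrem]
    have h5 : (b' : ℝ) ≤ 2 * b := by
      have : ε * b ≤ 1 * b := mul_le_mul_of_nonneg_right hε1 hb0.le
      linarith
    have h6 : (b' : ℝ) * f ≤ 2 * b * (t / 2) := mul_le_mul h5 h3.le hf0 (by positivity)
    have h7 : (m : ℝ) * (b' * f) ≤ m * (2 * b * (t / 2)) := mul_le_mul_of_nonneg_left h6 hm0.le
    linarith
  · rw [hfl, hmg]
    have h5 : N / ((1 + ε) * b) ≤ N / b' := div_le_div_of_nonneg_left hN0.le hb'0 h2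
    have h6 : (lo * (b : ℝ) ^ k - |(θ : ℝ)|) / (1 + ε) ≤ N / ((1 + ε) * b) := by
      rw [div_le_div_iff₀ (by positivity) (by positivity)]
      have h7 : (lo * (b : ℝ) ^ k - |(θ : ℝ)|) * b ≤ N := by
        rw [hpow] at hn1
        have h8 : (θ : ℝ) * b ≤ |(θ : ℝ)| * b := mul_le_mul_of_nonneg_right hθ1 hb0.le
        rw [hN]
        linarith
      have h9 := mul_le_mul_of_nonneg_right h7 (by positivity : (0 : ℝ) ≤ 1 + ε)
      linarith
    have h10 : |(θ : ℝ)| / (1 + ε) ≤ |(θ : ℝ)| := div_le_self hθ0 (by linarith)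
    have h11 : (m : ℝ) * f ≤ m * t := mul_le_mul_of_nonneg_left (by linarith) hm0.le
    have h12 : t * b ≤ t * (b : ℝ) ^ k := mul_le_mul_of_nonneg_left hbk ht.le
    have h13 : (lo / (1 + ε) - t) * (b : ℝ) ^ k = lo * (b : ℝ) ^ k / (1 + ε) - t * (b : ℝ) ^ k := by
      ring
    rw [sub_div] at h6
    rw [h13]
    linarith
  · rw [hfl, hmg]
    have h5 : N / b' ≤ N / b := div_le_div_of_nonneg_left hN0.le hb0 hb'b
    have h6 : N / b ≤ hi * (b : ℝ) ^ k + |(θ : ℝ)| := by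
      rw [div_le_iff₀ hb0]
      rw [hpow] at hn2
      have h8 : -(θ : ℝ) * b ≤ |(θ : ℝ)| * b := mul_le_mul_of_nonneg_right hθ2 hb0.le
      rw [hN]
      linarith
    have h11 : 0 ≤ (m : ℝ) * f := by positivity
    have h12 : t * b ≤ t * (b : ℝ) ^ k := mul_le_mul_of_nonneg_left hbk ht.le
    have h13 : 0 ≤ (m : ℝ) * t := by positivity
    linarith

/-- Mixed radix expansions with prescribed digits: for all large `b` and every integer `n` with
`lo b^(r+1) ≤ n ≤ hi b^(r+1)` there are radices `q i ∈ [b, (1+ε) b]` such that the digits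
`d 0, ..., d (r-1)` are within `ε' b` of `θ j * b` and the leading digit is even. -/
theorem nest (r : ℕ) (hr : 1 ≤ r) : ∀ (θ : ℕ → ℤ) (ε : ℝ), 0 < ε → ε ≤ 1 → ∀ ε' : ℝ, 0 < ε' →
    ∀ lo hi : ℝ, 8 / ε * (1 + ε) ^ r < lo → lo ≤ hi →
    ∃ b₀ : ℕ, ∀ b : ℕ, b₀ ≤ b → ∀ n : ℤ, lo * (b : ℝ) ^ (r + 1) ≤ n →
      (n : ℝ) ≤ hi * (b : ℝ) ^ (r + 1) →
      ∃ q d : ℕ → ℤ, (∀ i < r, (b : ℤ) ≤ q i ∧ (q i : ℝ) ≤ (1 + ε) * b) ∧
        (∀ j < r, |(d j : ℝ) - θ j * b| ≤ ε' * b) ∧ Even (d r) ∧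
        (lo / (1 + ε) ^ r - ε') * b ≤ d r ∧ (d r : ℝ) ≤ (hi + ε') * b ∧
        n = ∑ j ∈ Finset.range (r + 1), d j * ∏ i ∈ Finset.range j, q i := by
  induction r, hr using Nat.le_induction with
  | base =>
    intro θ ε hε hε1 ε' hε' lo hi hlo hlh
    have hlo' : 4 * ((2 : ℕ) : ℝ) / ε < lo := by
      refine lt_of_le_of_lt ?_ hlo
      have h1 : 0 < 8 / ε := by positivity
      have h2 : 8 / ε * 1 ≤ 8 / ε * (1 + ε) ^ 1 :=
        mul_le_mul_of_nonneg_left (by linarith) h1.le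
      have h3 : 4 * ((2 : ℕ) : ℝ) / ε = 8 / ε * 1 := by push_cast; ring
      rw [h3]
      exact h2
    obtain ⟨b₀, hb₀⟩ := peel 1 le_rfl ε hε hε1 (ε' / 2) (by positivity) (θ 0) 2 (by norm_num)
      lo hi hlo' hlh
    refine ⟨b₀, fun b hb n hn1 hn2 => ?_⟩
    obtain ⟨b', g, h1, h2, h3, h4, h5, h6⟩ := hb₀ b hb n hn1 hn2
    push_cast at h3 h4 h5 h6
    have hb0 : (0 : ℝ) ≤ b := Nat.cast_nonneg b
    have hεb : 0 ≤ ε' * b := by positivity
    refine ⟨fun _ => b', fun i => if i = 0 then n - b' * (2 * g) else 2 * g, fun i _ => ⟨h1, h2⟩,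
      ?_, ?_, ?_, ?_, ?_⟩
    · intro j hj
      obtain rfl : j = 0 := by omega
      simp only [if_true]
      push_cast
      rw [abs_le]
      constructor <;> linarith
    · simp
    · simp only [one_ne_zero, if_false]
      push_cast
      simp only [pow_one] at h5 ⊢
      linarith
    · simp only [one_ne_zero, if_false]
      push_cast
      simp only [pow_one] at h6
      linarith
    · simp [Finset.sum_range_succ]
      ring
  | succ r hr ih =>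
    intro θ ε hε hε1 ε' hε' lo hi hlo hlh
    have h1ε : 1 ≤ (1 + ε) ^ (r + 1) := one_le_pow₀ (by linarith)
    have h8 : 0 < 8 / ε := by positivity
    have hlo0 : 8 / ε < lo := by
      refine lt_of_le_of_lt ?_ hlo
      have := mul_le_mul_of_nonneg_left h1ε h8.le
      linarith
    have hlo' : 4 * ((1 : ℕ) : ℝ) / ε < lo := by
      have h3 : 4 * ((1 : ℕ) : ℝ) / ε = 8 / ε / 2 := by push_cast; ring
      rw [h3]
      linarith
    set κ : ℝ := lo / (1 + ε) - 8 / ε * (1 + ε) ^ r with hκdef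
    have hκ : 0 < κ := by
      rw [hκdef, sub_pos, lt_div_iff₀ (by positivity)]
      rw [pow_succ] at hlo
      linarith
    set t : ℝ := min (ε' / 2) (κ / 2) with htdef
    have ht : 0 < t := lt_min (by positivity) (by positivity)
    have ht1 : t ≤ ε' / 2 := min_le_left _ _
    have ht2 : t ≤ κ / 2 := min_le_right _ _
    have hlo2 : 8 / ε * (1 + ε) ^ r < lo / (1 + ε) - t := by linarith
    have hlh2 : lo / (1 + ε) - t ≤ hi + t := by
      have : lo / (1 + ε) ≤ lo := div_le_self (by linarith) (by linarith)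
      linarith
    obtain ⟨b₁, hb₁⟩ := peel (r + 1) (by omega) ε hε hε1 t ht (θ 0) 1 le_rfl lo hi hlo' hlh
    obtain ⟨b₂, hb₂⟩ := ih (fun i => θ (i + 1)) ε hε hε1 (ε' / 2) (by positivity)
      (lo / (1 + ε) - t) (hi + t) hlo2 hlh2
    refine ⟨b₁ + b₂, fun b hb n hn1 hn2 => ?_⟩
    obtain ⟨b', g, h1, h2, h3, h4, h5, h6⟩ := hb₁ b (by omega) n hn1 hn2
    push_cast at h3 h4 h5 h6
    rw [one_mul] at h3 h4 h5 h6
    obtain ⟨q, d, e1, e2, e3, e4, e5, e6⟩ := hb₂ b (by omega) g h5 h6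
    have hb0 : (0 : ℝ) ≤ b := Nat.cast_nonneg b
    have htb : t * b ≤ ε' / 2 * b := mul_le_mul_of_nonneg_right ht1 hb0
    have hεb : 0 ≤ ε' * b := by positivity
    refine ⟨fun i => Nat.casesOn i b' q, fun i => Nat.casesOn i (n - b' * g) d, ?_, ?_, ?_, ?_, ?_,
      ?_⟩
    · rintro (_ | i) hi'
      · exact ⟨h1, h2⟩
      · exact e1 i (by omega)
    · rintro (_ | j) hj
      · change |((n - b' * g : ℤ) : ℝ) - θ 0 * b| ≤ ε' * b
        push_cast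
        rw [abs_le]
        constructor <;> linarith
      · have := e2 j (by omega)
        change |(d j : ℝ) - θ (j + 1) * b| ≤ ε' * b
        linarith
    · exact e3
    · change (lo / (1 + ε) ^ (r + 1) - ε') * b ≤ (d r : ℝ)
      refine le_trans (mul_le_mul_of_nonneg_right ?_ hb0) e4
      have h9 : (lo / (1 + ε) - t) / (1 + ε) ^ r = lo / (1 + ε) ^ (r + 1) - t / (1 + ε) ^ r := by
        rw [sub_div, div_div, pow_succ, mul_comm (1 + ε)]
      have h10 : t / (1 + ε) ^ r ≤ t := div_le_self ht.le (one_le_pow₀ (by linarith))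
      rw [h9]
      linarith
    · change (d r : ℝ) ≤ (hi + ε') * b
      refine le_trans e5 (mul_le_mul_of_nonneg_right (by linarith) hb0)
    · rw [Finset.sum_range_succ']
      simp only [Finset.prod_range_zero, Finset.prod_range_succ', mul_one]
      have : ∑ j ∈ Finset.range (r + 1), d j * ((∏ i ∈ Finset.range j, q i) * b') = g * b' := by
        rw [e6, Finset.sum_mul]
        exact Finset.sum_congr rfl fun j _ => by ring
      change n = ∑ j ∈ Finset.range (r + 1), d j * ((∏ i ∈ Finset.range j, q i) * b') +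
        (n - b' * g)
      rw [this]
      ring

end Pool.Agent.SBhAs
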