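import Mathlib

/-!
# Stability of the minimum (package T7 of MP_f688e9_co, Thresholds)

PROOF. `R` is invertible; for `y = c R` one has `c = y R⁻¹`, so `|c i| ≤ A ∑_j |y j|` where
`A ≥ 0` bounds all `|R⁻¹ j i|`; hence `∑_i |c i| ≤ m A ∑_j |y j|`. If `|M i j - R i j| ≤ η` then
`∑_j |∑_i c i (M i j - R i j)| ≤ m η ∑_i |c i| ≤ m² A η ∑_j |∑_i c i R i j|`. Choose `η > 0` with
`m² A η ≤ δ` (`η = δ/(m² A + 1)`). Then
`∑_j |(c M) j| ≥ (1 - δ) ∑_j |(c R) j|`; if `δ ≤ 1` this is `≥ (1-δ) r`; if `δ > 1` then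
`(1-δ) r ≤ 0 ≤` the sum.
-/

namespace Pool.Agent.SBhAs

theorem stable {m : ℕ} (R : Matrix (Fin m) (Fin m) ℝ) (hR : R.det ≠ 0) (r : ℝ) (hr0 : 0 ≤ r)
    (hr : ∀ c : Fin m → ℤ, c ≠ 0 → r ≤ ∑ j, |∑ i, (c i : ℝ) * R i j|) (δ : ℝ) (hδ : 0 < δ) :
    ∃ η : ℝ, 0 < η ∧ ∀ M : Matrix (Fin m) (Fin m) ℝ, (∀ i j, |M i j - R i j| ≤ η) →
      ∀ c : Fin m → ℤ, c ≠ 0 → (1 - δ) * r ≤ ∑ j, |∑ i, (c i : ℝ) * M i j| := by
  classical
  set A : ℝ := ∑ j, ∑ i, |R⁻¹ j i| with hA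
  have hA0 : 0 ≤ A := Finset.sum_nonneg fun j _ => Finset.sum_nonneg fun i _ => abs_nonneg _
  have hAle : ∀ j i, |R⁻¹ j i| ≤ A := by
    intro j i
    refine (Finset.single_le_sum (f := fun i => |R⁻¹ j i|) (fun i _ => abs_nonneg _)
      (Finset.mem_univ i)).trans ?_
    exact Finset.single_le_sum (f := fun j => ∑ i, |R⁻¹ j i|)
      (fun j _ => Finset.sum_nonneg fun i _ => abs_nonneg _) (Finset.mem_univ j)
  have hm0 : (0 : ℝ) ≤ m := Nat.cast_nonneg m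
  have hden : 0 < (m : ℝ) * m * A + 1 := by positivity
  refine ⟨δ / ((m : ℝ) * m * A + 1), div_pos hδ hden, fun M hM c hc => ?_⟩
  set η : ℝ := δ / ((m : ℝ) * m * A + 1) with hη
  have hη0 : 0 < η := div_pos hδ hden
  by_cases hδ1 : 1 < δ
  · have h1 : (1 - δ) * r ≤ 0 := mul_nonpos_of_nonpos_of_nonneg (by linarith) hr0
    exact h1.trans (Finset.sum_nonneg fun j _ => abs_nonneg _)
  push Not at hδ1
  set Y : ℝ := ∑ j, |∑ i, (c i : ℝ) * R i j| with hY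
  have hY0 : 0 ≤ Y := Finset.sum_nonneg fun j _ => abs_nonneg _
  have hci : ∀ i, |(c i : ℝ)| ≤ A * Y := by
    intro i
    have h1 : Matrix.vecMul (Matrix.vecMul (fun i => (c i : ℝ)) R) R⁻¹ = fun i => (c i : ℝ) := by
      rw [Matrix.vecMul_vecMul, Matrix.mul_nonsing_inv _ (isUnit_iff_ne_zero.2 hR),
        Matrix.vecMul_one]
    have h2 := congrFun h1 i
    have h3 : (c i : ℝ) = ∑ j, (∑ i, (c i : ℝ) * R i j) * R⁻¹ j i := by
      rw [← h2]
      simp only [Matrix.vecMul, dotProduct]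
    rw [h3]
    calc |∑ j, (∑ i, (c i : ℝ) * R i j) * R⁻¹ j i|
        ≤ ∑ j, |(∑ i, (c i : ℝ) * R i j) * R⁻¹ j i| := Finset.abs_sum_le_sum_abs _ _
      _ ≤ ∑ j, A * |∑ i, (c i : ℝ) * R i j| := by
          refine Finset.sum_le_sum fun j _ => ?_
          rw [abs_mul, mul_comm]
          exact mul_le_mul_of_nonneg_right (hAle j i) (abs_nonneg _)
      _ = A * Y := by rw [hY, Finset.mul_sum]
  have hsum : ∑ i, |(c i : ℝ)| ≤ m * (A * Y) := by
    calc ∑ i, |(c i : ℝ)| ≤ ∑ _i : Fin m, A * Y := Finset.sum_le_sum fun i _ => hci i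
      _ = m * (A * Y) := by simp
  have hdiff : ∑ j, |∑ i, (c i : ℝ) * (M i j - R i j)| ≤ m * (η * (m * (A * Y))) := by
    calc ∑ j, |∑ i, (c i : ℝ) * (M i j - R i j)| ≤ ∑ _j : Fin m, η * (m * (A * Y)) := by
          refine Finset.sum_le_sum fun j _ => ?_
          calc |∑ i, (c i : ℝ) * (M i j - R i j)|
              ≤ ∑ i, |(c i : ℝ) * (M i j - R i j)| := Finset.abs_sum_le_sum_abs _ _
            _ ≤ ∑ i, η * |(c i : ℝ)| := by
                refine Finset.sum_le_sum fun i _ => ?_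
                rw [abs_mul, mul_comm]
                exact mul_le_mul_of_nonneg_right (hM i j) (abs_nonneg _)
            _ = η * ∑ i, |(c i : ℝ)| := by rw [Finset.mul_sum]
            _ ≤ η * (m * (A * Y)) := mul_le_mul_of_nonneg_left hsum hη0.le
      _ = m * (η * (m * (A * Y))) := by simp
  have hηδ : (m : ℝ) * (η * (m * (A * Y))) ≤ δ * Y := by
    have h1 : (m : ℝ) * (η * (m * (A * Y))) = η * (m * m * A) * Y := by ring
    rw [h1]
    refine mul_le_mul_of_nonneg_right ?_ hY0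
    rw [hη, div_mul_eq_mul_div, div_le_iff₀ hden]
    nlinarith
  have hYM : Y ≤ ∑ j, |∑ i, (c i : ℝ) * M i j| + ∑ j, |∑ i, (c i : ℝ) * (M i j - R i j)| := by
    rw [hY, ← Finset.sum_add_distrib]
    refine Finset.sum_le_sum fun j _ => ?_
    have h1 : ∑ i, (c i : ℝ) * R i j =
        ∑ i, (c i : ℝ) * M i j - ∑ i, (c i : ℝ) * (M i j - R i j) := by
      rw [← Finset.sum_sub_distrib]
      exact Finset.sum_congr rfl fun i _ => by ring
    rw [h1]
    exact abs_sub _ _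
  have hrY := hr c hc
  have h1 : (1 - δ) * r ≤ (1 - δ) * Y := mul_le_mul_of_nonneg_left hrY (by linarith)
  linarith

end Pool.Agent.SBhAs
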