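import Mathlib

/-!
# Lower triangular systems in a lattice (package T6 of MP_f688e9_co, Thresholds)

PROOF. Let `N = L.index ≠ 0`; `N • v ∈ L` for all `v` (`AddSubgroup.nsmul_index_mem` or
`card_nsmul_eq_zero'` in the finite quotient). For every `i` the set of positive integers `t` such
that some `v ∈ L` has `v i = t` and `v j = 0` for `j > i` is nonempty (`N • e_i`); let `t_i` be its
minimum (`Nat.find`) and `R i` a vector of `L` realising it. So `R i i = t_i > 0` and `R i j = 0`
for `i < j`. `∏ t_i ≤ N`: the vectors `v` with `0 ≤ v i < t_i` for all `i` (`∏ t_i` many, e.g.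
`(i : Fin m) → Fin (t_i)`) are pairwise incongruent modulo `L`: if `v ≠ w` and `v - w ∈ L`, let `i`
be the largest index with `v i ≠ w i`, WLOG `v i > w i`; then `v - w ∈ L` vanishes beyond `i` and
has `i`-th coordinate in `[1, t_i - 1]`, a contradiction. So the map to the quotient
`(Fin m → ℤ) ⧸ L` is injective and `Nat.card` of the quotient is `L.index`.
-/

namespace Pool.Agent.SBhAs

private theorem index_smul_mem {m : ℕ} (L : AddSubgroup (Fin m → ℤ)) (v : Fin m → ℤ) :
    L.index • v ∈ L := by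
  have h := AddSubgroup.nsmul_index_mem (H := L) v
  exact h

theorem exists_tri {m : ℕ} (L : AddSubgroup (Fin m → ℤ)) (hL : L.index ≠ 0) :
    ∃ R : Matrix (Fin m) (Fin m) ℤ, (∀ i, R i ∈ L) ∧ (∀ i j, i < j → R i j = 0) ∧
      (∀ i, 0 < R i i) ∧ ∏ i, R i i ≤ (L.index : ℤ) := by
  classical
  have hex : ∀ i : Fin m, ∃ t : ℕ, 0 < t ∧ ∃ v ∈ L, v i = t ∧ ∀ j, i < j → v j = 0 := by
    intro i
    refine ⟨L.index, Nat.pos_of_ne_zero hL, L.index • Pi.single i 1, index_smul_mem L _, ?_, ?_⟩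
    · simp
    · intro j hj
      simp [Pi.single_eq_of_ne hj.ne']
  obtain ⟨t, ht⟩ : ∃ t : Fin m → ℕ, ∀ i, t i = Nat.find (hex i) := ⟨_, fun i => rfl⟩
  have ht1 : ∀ i, 0 < t i ∧ ∃ v ∈ L, v i = t i ∧ ∀ j, i < j → v j = 0 := by
    intro i
    rw [ht i]
    exact Nat.find_spec (hex i)
  have hmin : ∀ (i : Fin m) (v : Fin m → ℤ), v ∈ L → 0 < v i → (∀ j, i < j → v j = 0) →
      (t i : ℤ) ≤ v i := by
    intro i v hv h1 h2
    have h3 : Nat.find (hex i) ≤ (v i).toNat :=
      Nat.find_min' (hex i) ⟨by omega, v, hv, by omega, h2⟩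
    rw [ht i]
    omega
  choose h0 R hR hRi hRj using ht1
  have key : ∀ w w' : (∀ i, Fin (t i)), (fun i => ((w i : ℕ) : ℤ) - ((w' i : ℕ) : ℤ)) ∈ L →
      (fun i => ((w' i : ℕ) : ℤ) - ((w i : ℕ) : ℤ)) ∈ L → w = w' := by
    intro w w' h1 h2
    by_contra hne
    have h3 : (Finset.univ.filter fun i => w i ≠ w' i).Nonempty := by
      by_contra h
      rw [Finset.not_nonempty_iff_eq_empty] at h
      apply hne
      funext i
      by_contra hi
      have : i ∈ (Finset.univ.filter fun i => w i ≠ w' i) := by simp [hi]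
      rw [h] at this
      simp at this
    obtain ⟨i, hi⟩ : ∃ i, i = (Finset.univ.filter fun i => w i ≠ w' i).max' h3 := ⟨_, rfl⟩
    have h4 : w i ≠ w' i := by
      have := Finset.max'_mem _ h3
      rw [← hi] at this
      exact (Finset.mem_filter.1 this).2
    have h5 : ∀ j, i < j → w j = w' j := by
      intro j hj
      by_contra h6
      have h7 : j ≤ i := by
        rw [hi]
        exact Finset.le_max' (Finset.univ.filter fun i => w i ≠ w' i) j
          (Finset.mem_filter.2 ⟨Finset.mem_univ _, h6⟩)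
      exact absurd hj (not_lt.2 h7)
    have h6 : (w i : ℕ) ≠ (w' i : ℕ) := fun h => h4 (Fin.ext h)
    have h7 := (w i).2
    have h8 := (w' i).2
    rcases lt_or_gt_of_ne h6 with h9 | h9
    · have := hmin i _ h2 (by show (0 : ℤ) < (w' i : ℕ) - (w i : ℕ); omega)
        (fun j hj => by
          show ((w' j : ℕ) : ℤ) - (w j : ℕ) = 0
          rw [h5 j hj]
          ring)
      have h10 : ((t i : ℕ) : ℤ) ≤ (w' i : ℕ) - (w i : ℕ) := this
      omega
    · have := hmin i _ h1 (by show (0 : ℤ) < (w i : ℕ) - (w' i : ℕ); omega)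
        (fun j hj => by
          show ((w j : ℕ) : ℤ) - (w' j : ℕ) = 0
          rw [h5 j hj]
          ring)
      have h10 : ((t i : ℕ) : ℤ) ≤ (w i : ℕ) - (w' i : ℕ) := this
      omega
  have hinj : Function.Injective (fun w : (∀ i, Fin (t i)) =>
      (QuotientAddGroup.mk (fun i => ((w i : ℕ) : ℤ)) : (Fin m → ℤ) ⧸ L)) := by
    intro w w' hw
    have h1 := QuotientAddGroup.eq.1 hw
    have h2 : (fun i => ((w' i : ℕ) : ℤ) - ((w i : ℕ) : ℤ)) ∈ L := by
      convert h1 using 1
      funext i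
      simp only [Pi.add_apply, Pi.neg_apply]
      ring
    have h3 : (fun i => ((w i : ℕ) : ℤ) - ((w' i : ℕ) : ℤ)) ∈ L := by
      have h4 := L.neg_mem h2
      convert h4 using 1
      funext i
      simp only [Pi.neg_apply]
      ring
    exact key w w' h3 h2
  have : L.FiniteIndex := ⟨hL⟩
  have : Finite ((Fin m → ℤ) ⧸ L) := AddSubgroup.finite_quotient_of_finiteIndex
  have hcard : Nat.card (∀ i, Fin (t i)) ≤ Nat.card ((Fin m → ℤ) ⧸ L) :=
    Nat.card_le_card_of_injective _ hinj
  have h1 : Nat.card (∀ i, Fin (t i)) = ∏ i, t i := by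
    rw [Nat.card_pi]
    simp
  rw [h1] at hcard
  have h2 : Nat.card ((Fin m → ℤ) ⧸ L) = L.index := rfl
  rw [h2] at hcard
  refine ⟨R, hR, fun i j hij => hRj i j hij, fun i => ?_, ?_⟩
  · rw [hRi]
    exact_mod_cast h0 i
  · have h3 : ∏ i, R i i = ((∏ i, t i : ℕ) : ℤ) := by
      rw [Nat.cast_prod]
      exact Finset.prod_congr rfl fun i _ => hRi i
    rw [h3]
    exact_mod_cast hcard

end Pool.Agent.SBhAs
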