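import Mathlib
import Pool.Agent.SBhAs.Kappa
import Pool.Agent.SBhAs.Nest
import Pool.Agent.SBhAs.Tri
import Pool.Agent.SBhAs.Stable
import Pool.Agent.SBhAs.Approx
import Pool.Agent.SBhAs.ChooseB

/-!
# Nearly optimal signed systems for every large modulus (T15 of MP_f688e9_co, Thresholds)

`m = μ + 2`, `κ = kappa m > 0`. WLOG `δ ≤ 1`. Put `δ₁ = δ/(m+3)` (`≤ 1/5`).
1. `exists_lt`: `L₀`, `r₀ ≥ 1` with `index < κ (1+δ₁) r₀^m`; `exists_tri`: `R`, rows in `L₀`,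
   `D₀ = ∏ R i i`, `1 ≤ D₀ ≤ index`. `A` bounds `|R i j|`. `det R = D₀ ≠ 0`, so for integer
   `c ≠ 0` the vector `c ᵥ* R ∈ L₀` is nonzero and has norm `≥ r₀`.
2. `stable` for the real matrix `R`, `r = r₀`, `δ₁`: `η > 0`.
3. `E = (μ+1) 2^(μ+5) + 2`. Choose `k` even so large that `theta_limit` holds with `δ₁`, and with
   `T = |θ_last|`, `ε₁ = 2^(μ+5)/T`: `ε₁ ≤ 1`, `2 ε₁ (A+1) ≤ η/5`, `4/(2k) ≤ η/5`,
   `E/(2k) ≤ η/5` (`T ≥ (1-δ₁)(2k)^m/2 ≥ k^2`). `s = sign θ_last`.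
4. `ε₂ ≤ 1`, `(μ+1) ε₂ (A+1) ≤ η/5`. `δ₂ = min δ₁ (1/T)`.
5. `nest (μ+1)` with targets `s θ_j`, `ε₁`, `ε₂`, `lo = T`, `hi = T (1+δ₂)`:
   `8/ε₁ (1+ε₁)^(μ+1) ≤ (8/ε₁) 2^(μ+1) = T/2 < T`. It gives `b₀`.
6. `exists_b` with `m`, `T`, `δ₂` and `max b₀ ⌈10 (A+1)/η⌉`: `N₀`.
7. For `n ≥ N₀`: `b`, `q`, `d`. `d_last ≤ (T (1+δ₂) + ε₂) b ≤ (T + 2) b`,
   `d_last ≥ (T/(1+ε₁)^(μ+1) - ε₂) b ≥ (T - (μ+1) ε₁ T - 1) b = (T - (μ+1) 2^(μ+5) - 1) b`, so
   `|d_last - T b| ≤ E b` and `s θ_last = T`.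
8. `rows_approx`, `stable`: norm of `c ᵥ* rows` `≥ 2kb (1-δ₁) r₀` for `c ≠ 0` (change the sign of
   the last coefficient if `s = -1`).
9. `kernel` (with `V = U μ k R`): `a`; every even `v ≠ 0` with `n ∣ v·a` is `c ᵥ* rows`, `c ≠ 0`.
   `norm^m ≥ (2kb)^m (1-δ₁)^m r₀^m`, and `2n ≤ 2T(1+δ₂) b^m ≤ (1+δ₁)(1+δ₂) (2kb)^m D₀
   ≤ (1+δ₁)^3 (2kb)^m κ r₀^m`; `(1-δ)(1+δ₁)^3 ≤ (1-δ₁)^m` as `(1-(m+3)δ₁)(1+δ₁)^3 ≤
   (1-δ₁)^(m+3) (1+δ₁)^3 ≤ (1-δ₁)^m`.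
-/

namespace Pool.Agent.SBhAs

open Matrix

/-- combinations of the rows of the triangular system are long -/
theorem long_comb {m : ℕ} {L : AddSubgroup (Fin m → ℤ)} {r : ℕ} (h : MinGe L r)
    (R : Matrix (Fin m) (Fin m) ℤ) (hRL : ∀ i, R i ∈ L) (hR : ∀ i j, i < j → R i j = 0)
    (hpos : ∀ i, 0 < R i i) (c : Fin m → ℤ) (hc : c ≠ 0) :
    (r : ℝ) ≤ ∑ j, |∑ i, (c i : ℝ) * ((R i j : ℤ) : ℝ)| := by
  have hdet : R.det = ∏ i, R i i := det_of_lowerTriangular R (fun i j hij => hR i j hij)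
  have hdet0 : R.det ≠ 0 := by
    rw [hdet]; exact (Finset.prod_pos fun i _ => hpos i).ne'
  have hv0 : c ᵥ* R ≠ 0 := by
    intro h0
    exact hc (Matrix.eq_zero_of_vecMul_eq_zero hdet0 h0)
  have hvL : c ᵥ* R ∈ L := by
    have : c ᵥ* R = ∑ i, c i • R i := by
      funext j
      simp [Matrix.vecMul, dotProduct, Finset.sum_apply]
    rw [this]
    exact AddSubgroup.sum_mem _ fun i _ => AddSubgroup.zsmul_mem _ (hRL i) _
  have h1 := h _ hvL hv0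
  have h2 : ((∑ j, |(c ᵥ* R) j| : ℤ) : ℝ) = ∑ j, |∑ i, (c i : ℝ) * ((R i j : ℤ) : ℝ)| := by
    push_cast
    refine Finset.sum_congr rfl fun j _ => ?_
    simp [Matrix.vecMul, dotProduct]
  rw [← h2]
  exact_mod_cast h1

theorem mainB (μ : ℕ) (δ : ℝ) (hδ : 0 < δ) :
    ∃ N₀ : ℕ, ∀ n : ℕ, N₀ ≤ n → ∃ a : Fin (μ + 2) → ℤ, ∀ v : Fin (μ + 2) → ℤ, v ≠ 0 →
      Even (∑ j, v j) → (n : ℤ) ∣ ∑ j, v j * a j →
      (1 - δ) * (2 * n) ≤ kappa (μ + 2) * ((∑ j, |v j| : ℤ) : ℝ) ^ (μ + 2) := by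
  have hκ : 0 < kappa (μ + 2) := kappa_pos (by omega)
  wlog hδ1 : δ ≤ 1 generalizing δ with H
  · obtain ⟨N₀, hN₀⟩ := H 1 one_pos le_rfl
    refine ⟨N₀, fun n hn => ?_⟩
    obtain ⟨a, ha⟩ := hN₀ n hn
    refine ⟨a, fun v hv h1 h2 => ?_⟩
    have h3 := ha v hv h1 h2
    have h4 : (1 - δ) * (2 * (n : ℝ)) ≤ 0 := by
      have : (0 : ℝ) ≤ n := Nat.cast_nonneg n
      nlinarith
    linarith
  -- δ₁
  set m : ℕ := μ + 2 with hm
  have hm5 : (5 : ℝ) ≤ (m : ℝ) + 3 := by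
    have : (2 : ℝ) ≤ m := by exact_mod_cast (by omega : 2 ≤ m)
    linarith
  set δ₁ : ℝ := δ / (m + 3) with hδ₁def
  have hδ₁ : 0 < δ₁ := by positivity
  have hδ₁5 : δ₁ ≤ 1 / 5 := by
    rw [hδ₁def, div_le_iff₀ (by linarith)]
    linarith
  have hδδ₁ : δ = (m + 3) * δ₁ := by rw [hδ₁def]; field_simp
  -- 1.
  obtain ⟨L₀, r₀, hidx, hr₀, hmin, hlt⟩ := exists_lt (m := m) (c := kappa m * (1 + δ₁)) (by nlinarith)
  obtain ⟨R, hRL, hR, hpos, hprod⟩ := exists_tri L₀ hidx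
  set D₀ : ℤ := ∏ i, R i i with hD₀
  have hD₀1 : 1 ≤ D₀ := Finset.prod_pos fun i _ => hpos i
  have hD₀le : (D₀ : ℝ) ≤ kappa m * (1 + δ₁) * (r₀ : ℝ) ^ m := by
    have : (D₀ : ℝ) ≤ (L₀.index : ℝ) := by exact_mod_cast hprod
    linarith
  -- A
  obtain ⟨A, hA, hRA⟩ : ∃ A : ℤ, 0 ≤ A ∧ ∀ i j, |R i j| ≤ A := by
    refine ⟨∑ i, ∑ j, |R i j|, Finset.sum_nonneg fun i _ => Finset.sum_nonneg fun j _ => abs_nonneg _,
      fun i j => ?_⟩
    calc |R i j| ≤ ∑ j, |R i j| :=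
          Finset.single_le_sum (f := fun j => |R i j|) (fun j _ => abs_nonneg _) (Finset.mem_univ j)
      _ ≤ _ := Finset.single_le_sum (f := fun i => ∑ j, |R i j|)
          (fun i _ => Finset.sum_nonneg fun j _ => abs_nonneg _) (Finset.mem_univ i)
  have hdetR : ((R.map (Int.cast : ℤ → ℝ))).det = (D₀ : ℝ) := by
    have : (R.map (Int.cast : ℤ → ℝ)) = (Int.castRingHom ℝ).mapMatrix R := rfl
    rw [this, ← RingHom.map_det, det_of_lowerTriangular R (fun i j hij => hR i j hij)]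
    simp [hD₀]
  have hcomb := long_comb hmin R hRL hR hpos
  -- 2.
  obtain ⟨η, hη, hstab⟩ := stable (R.map (Int.cast : ℤ → ℝ))
    (by rw [hdetR]; exact_mod_cast (by omega : D₀ ≠ 0)) (r₀ : ℝ) (Nat.cast_nonneg _)
    (fun c hc => by simpa using hcomb c hc) δ₁ hδ₁
  -- 3.
  set E : ℝ := (μ + 1) * 2 ^ (μ + 5) + 2 with hE
  have hE0 : 0 ≤ E := by positivity
  obtain ⟨k₀, hk₀⟩ := theta_limit μ R hR hpos δ₁ hδ₁
  have hA0 : (0 : ℝ) ≤ A := by exact_mod_cast hA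
  obtain ⟨k₁, hk₁⟩ := exists_nat_ge
    (1 + 2 ^ (μ + 5) + 2 ^ (μ + 5) * (2 * (A + 1)) * (5 / η) + 2 * (5 / η) + E * (5 / η) : ℝ)
  set k : ℕ := 2 * (k₀ + k₁) with hkdef
  have hkeven : Even k := ⟨k₀ + k₁, by omega⟩
  have hk1 : (k₁ : ℝ) ≤ k := by exact_mod_cast (by omega : k₁ ≤ k)
  have hkR : (1 + 2 ^ (μ + 5) + 2 ^ (μ + 5) * (2 * (A + 1)) * (5 / η) + 2 * (5 / η) +
    E * (5 / η) : ℝ) ≤ k := hk₁.trans hk1
  have hp1 : (0 : ℝ) < 2 ^ (μ + 5) := by positivity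
  have hp2 : (0 : ℝ) ≤ 2 ^ (μ + 5) * (2 * (A + 1)) * (5 / η) := by positivity
  have hp3 : (0 : ℝ) ≤ 2 * (5 / η) := by positivity
  have hp4 : (0 : ℝ) ≤ E * (5 / η) := by positivity
  have hk1R : (1 : ℝ) ≤ k := by linarith
  have hkpos : (0 : ℝ) < k := by linarith
  have hk1N : 1 ≤ k := by exact_mod_cast hk1R
  obtain ⟨hT1, hT2⟩ := hk₀ k (by omega)
  set θl : ℤ := theta μ k R (Fin.last (μ + 1)) with hθl
  set T : ℝ := |(θl : ℝ)| with hT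
  have hTk : (k : ℝ) ≤ T := by
    refine le_trans ?_ hT1
    have h1 : (1 : ℝ) ≤ ((∏ i, R i i : ℤ) : ℝ) := by exact_mod_cast hD₀1
    have h2 : (2 * (k : ℝ)) ^ 2 ≤ (2 * (k : ℝ)) ^ (μ + 2) :=
      pow_le_pow_right₀ (by linarith) (by omega)
    have h3 : (2 * (k : ℝ)) ^ 2 * 1 ≤ (2 * (k : ℝ)) ^ (μ + 2) * ((∏ i, R i i : ℤ) : ℝ) :=
      mul_le_mul h2 h1 (by norm_num) (by positivity)
    have h4 : (1 - δ₁) ≥ 4 / 5 := by linarith
    have h5 : (4 / 5 : ℝ) * ((2 * (k : ℝ)) ^ 2 * 1 / 2) ≤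
        (1 - δ₁) * ((2 * (k : ℝ)) ^ (μ + 2) * ((∏ i, R i i : ℤ) : ℝ) / 2) :=
      mul_le_mul h4 (by linarith) (by positivity) (by linarith)
    refine le_trans ?_ h5
    nlinarith
  have hTpos : 0 < T := by linarith
  have hT1' : 1 ≤ T := by linarith
  obtain ⟨s, hs, hsT⟩ : ∃ s : ℤ, (s = 1 ∨ s = -1) ∧ (s : ℝ) * θl = T := by
    rcases le_total 0 θl with h0 | h0
    · refine ⟨1, Or.inl rfl, ?_⟩
      rw [hT, abs_of_nonneg (by exact_mod_cast h0)]; simp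
    · refine ⟨-1, Or.inr rfl, ?_⟩
      rw [hT, abs_of_nonpos (by exact_mod_cast h0)]; simp
  set ε₁ : ℝ := 2 ^ (μ + 5) / T with hε₁def
  have hε₁ : 0 < ε₁ := by positivity
  have hε₁1 : ε₁ ≤ 1 := by
    rw [hε₁def, div_le_one hTpos]; linarith
  have hε₁T : ε₁ * T = 2 ^ (μ + 5) := by rw [hε₁def]; field_simp
  have hε₁A : 2 * ε₁ * (A + 1) ≤ η / 5 := by
    have h1 : 2 ^ (μ + 5) * (2 * (A + 1)) * (5 / η) ≤ T := by linarith
    have h2 : 2 * ε₁ * (A + 1) = 2 ^ (μ + 5) * (2 * (A + 1)) / T := by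
      rw [hε₁def]; ring
    rw [h2, div_le_iff₀ hTpos]
    have h3 : 2 ^ (μ + 5) * (2 * (A + 1)) * (5 / η) * (η / 5) ≤ T * (η / 5) :=
      mul_le_mul_of_nonneg_right h1 (by positivity)
    have h4 : 2 ^ (μ + 5) * (2 * ((A : ℝ) + 1)) * (5 / η) * (η / 5) =
        2 ^ (μ + 5) * (2 * (A + 1)) := by field_simp
    rw [h4] at h3; linarith
  have h4k : 4 / (2 * (k : ℝ)) ≤ η / 5 := by
    have h1 : 2 * (5 / η) ≤ k := by linarith
    rw [div_le_iff₀ (by positivity)]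
    have h3 : 2 * (5 / η) * (η / 5) ≤ k * (η / 5) :=
      mul_le_mul_of_nonneg_right h1 (by positivity)
    have h4 : 2 * (5 / η) * (η / 5) = 2 := by field_simp
    rw [h4] at h3; nlinarith
  have hEk : E / (2 * (k : ℝ)) ≤ η / 5 := by
    have h1 : E * (5 / η) ≤ k := by linarith
    rw [div_le_iff₀ (by positivity)]
    have h3 : E * (5 / η) * (η / 5) ≤ k * (η / 5) :=
      mul_le_mul_of_nonneg_right h1 (by positivity)
    have h4 : E * (5 / η) * (η / 5) = E := by field_simp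
    rw [h4] at h3
    have : 0 ≤ k * (η / 5) := by positivity
    linarith
  -- 4.
  obtain ⟨ε₂, hε₂, hε₂1, hε₂A⟩ : ∃ ε₂ : ℝ, 0 < ε₂ ∧ ε₂ ≤ 1 ∧ (μ + 1) * ε₂ * (A + 1) ≤ η / 5 := by
    refine ⟨min 1 (η / 5 / ((μ + 1) * (A + 1))), lt_min one_pos (by positivity), min_le_left _ _, ?_⟩
    have h1 : min 1 (η / 5 / ((μ + 1) * (A + 1))) ≤ η / 5 / (((μ : ℝ) + 1) * (A + 1)) :=
      min_le_right _ _
    have h2 : ((μ : ℝ) + 1) * (A + 1) > 0 := by positivity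
    calc ((μ : ℝ) + 1) * min 1 (η / 5 / ((μ + 1) * (A + 1))) * (A + 1)
        = (((μ : ℝ) + 1) * (A + 1)) * min 1 (η / 5 / ((μ + 1) * (A + 1))) := by ring
      _ ≤ (((μ : ℝ) + 1) * (A + 1)) * (η / 5 / ((μ + 1) * (A + 1))) :=
          mul_le_mul_of_nonneg_left h1 h2.le
      _ = η / 5 := by field_simp
  set δ₂ : ℝ := min δ₁ (1 / T) with hδ₂def
  have hδ₂ : 0 < δ₂ := lt_min hδ₁ (by positivity)
  have hδ₂1 : δ₂ ≤ δ₁ := min_le_left _ _
  have hδ₂T : T * δ₂ ≤ 1 := by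
    have : δ₂ ≤ 1 / T := min_le_right _ _
    calc T * δ₂ ≤ T * (1 / T) := mul_le_mul_of_nonneg_left this hTpos.le
      _ = 1 := by field_simp
  -- 5.
  set θ : ℕ → ℤ := fun j => if h : j < μ + 2 then s * theta μ k R ⟨j, h⟩ else 0 with hθ
  have hlo : 8 / ε₁ * (1 + ε₁) ^ (μ + 1) < T := by
    have h1 : (1 + ε₁) ^ (μ + 1) ≤ 2 ^ (μ + 1) :=
      pow_le_pow_left₀ (by positivity) (by linarith) _
    have h2 : 8 / ε₁ * (1 + ε₁) ^ (μ + 1) ≤ 8 / ε₁ * 2 ^ (μ + 1) :=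
      mul_le_mul_of_nonneg_left h1 (by positivity)
    have h3 : 8 / ε₁ * 2 ^ (μ + 1) = T / 2 := by
      rw [div_mul_eq_mul_div, div_eq_div_iff hε₁.ne' (by norm_num), mul_comm T, hε₁T]
      rw [show μ + 5 = (μ + 1) + 4 by omega, pow_add]; ring
    rw [h3] at h2; linarith
  obtain ⟨b₀, hb₀⟩ := nest (μ + 1) (by omega) θ ε₁ hε₁ hε₁1 ε₂ hε₂ T (T * (1 + δ₂)) hlo
    (by nlinarith)
  -- 6.
  obtain ⟨b₁, hb₁⟩ := exists_nat_ge (2 * ((A : ℝ) + 1) * (5 / η))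
  obtain ⟨N₀, hN₀⟩ := exists_b m (by omega) T hTpos δ₂ hδ₂ (b₀ + b₁ + 1)
  refine ⟨N₀, fun n hn => ?_⟩
  obtain ⟨b, hb, hbn1, hbn2⟩ := hN₀ n hn
  have hb1 : 1 ≤ b := by omega
  have hbpos : (0 : ℝ) < b := by exact_mod_cast hb1
  obtain ⟨q, d, hq, hd, hdeven, hdl, hdu, hsum⟩ := hb₀ b (by omega) (n : ℤ)
    (by simpa using hbn1) (by simpa using hbn2)
  -- 7.
  have hlast : |(d (μ + 1) : ℝ) - s * theta μ k R (Fin.last (μ + 1)) * b| ≤ E * b := by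
    have h1 : (s : ℝ) * theta μ k R (Fin.last (μ + 1)) = T := hsT
    rw [h1, abs_le]
    constructor
    · have h2 : T - (μ + 1) * 2 ^ (μ + 5) ≤ T / (1 + ε₁) ^ (μ + 1) := by
        rw [le_div_iff₀ (by positivity)]
        have h3 : 1 + ((μ + 1 : ℕ) : ℝ) * ε₁ ≤ (1 + ε₁) ^ (μ + 1) :=
          one_add_mul_le_pow (by linarith) _
        have h4 : (1 - (μ + 1) * ε₁) * (1 + ε₁) ^ (μ + 1) ≤ 1 := by
          rcases le_total (1 - (μ + 1) * ε₁) 0 with h5 | h5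
          · have : (1 - (μ + 1) * ε₁) * (1 + ε₁) ^ (μ + 1) ≤ 0 :=
              mul_nonpos_of_nonpos_of_nonneg h5 (by positivity)
            linarith
          · have h6 : 1 - ((μ : ℝ) + 1) * ε₁ ≤ (1 - ε₁) ^ (μ + 1) := by
              have := one_add_mul_le_pow (a := -ε₁) (by linarith) (μ + 1)
              push_cast at this
              calc 1 - ((μ : ℝ) + 1) * ε₁ = 1 + (μ + 1) * -ε₁ := by ring
                _ ≤ (1 + -ε₁) ^ (μ + 1) := this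
                _ = (1 - ε₁) ^ (μ + 1) := by ring
            calc (1 - (μ + 1) * ε₁) * (1 + ε₁) ^ (μ + 1)
                ≤ (1 - ε₁) ^ (μ + 1) * (1 + ε₁) ^ (μ + 1) :=
                  mul_le_mul_of_nonneg_right h6 (by positivity)
              _ = ((1 - ε₁) * (1 + ε₁)) ^ (μ + 1) := by rw [mul_pow]
              _ ≤ 1 := pow_le_one₀ (mul_nonneg (by linarith) (by linarith)) (by nlinarith)
        have h5 : T - (μ + 1) * 2 ^ (μ + 5) = T * (1 - (μ + 1) * ε₁) := by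
          rw [← hε₁T]; ring
        rw [h5, mul_assoc]
        calc T * ((1 - (μ + 1) * ε₁) * (1 + ε₁) ^ (μ + 1)) ≤ T * 1 :=
              mul_le_mul_of_nonneg_left h4 hTpos.le
          _ = T := mul_one T
      have h3 : (T - (μ + 1) * 2 ^ (μ + 5) - ε₂) * b ≤ (T / (1 + ε₁) ^ (μ + 1) - ε₂) * b :=
        mul_le_mul_of_nonneg_right (by linarith) hbpos.le
      have h4 : (T - (μ + 1) * 2 ^ (μ + 5) - 1) * b ≤ (T - (μ + 1) * 2 ^ (μ + 5) - ε₂) * b :=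
        mul_le_mul_of_nonneg_right (by linarith) hbpos.le
      have h5 : (T - (μ + 1) * 2 ^ (μ + 5) - 1) * b ≤ d (μ + 1) := h4.trans (h3.trans hdl)
      rw [hE]
      nlinarith
    · have h2 : (T * (1 + δ₂) + ε₂) * b ≤ (T + 2) * b :=
        mul_le_mul_of_nonneg_right (by nlinarith) hbpos.le
      have h3 : (d (μ + 1) : ℝ) ≤ (T + 2) * b := hdu.trans h2
      have h4 : (2 : ℝ) * b ≤ E * b := by
        refine mul_le_mul_of_nonneg_right ?_ hbpos.le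
        rw [hE]
        have : (0 : ℝ) ≤ (μ + 1) * 2 ^ (μ + 5) := by positivity
        linarith
      linarith
  have hd' : ∀ j : Fin (μ + 2), (j : ℕ) < μ + 1 →
      |(d j : ℝ) - s * theta μ k R j * b| ≤ ε₂ * b := by
    intro j hj
    have h1 := hd j hj
    have h2 : θ j = s * theta μ k R j := by
      rw [hθ]
      simp
    rw [h2] at h1
    push_cast at h1
    exact h1
  -- 8.
  have happ := rows_approx μ k b hk1N hb1 R hR A hA hRA s hs q d ε₁ ε₂ E hε₁.le hε₂.le hE0 hq hd'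
    hlast
  have hbound : (2 * ε₁ * (2 * k * A + 2) + 4 + 2 * (2 * k * A + 2) / b) / (2 * k) +
        ((μ + 1) * ε₂ * (2 * k * A + 2) + E) / (2 * k) ≤ η := by
    have hW : (2 * (k : ℝ) * A + 2) / (2 * k) ≤ A + 1 := by
      rw [div_le_iff₀ (by positivity)]
      nlinarith
    have hW0 : 0 ≤ (2 * (k : ℝ) * A + 2) / (2 * k) := by positivity
    have e1 : (2 * ε₁ * (2 * k * A + 2) + 4 + 2 * (2 * k * A + 2) / b) / (2 * k) +
        ((μ + 1) * ε₂ * (2 * k * A + 2) + E) / (2 * k) =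
        2 * ε₁ * ((2 * (k : ℝ) * A + 2) / (2 * k)) + 4 / (2 * k) +
          (2 / b) * ((2 * (k : ℝ) * A + 2) / (2 * k)) +
          (μ + 1) * ε₂ * ((2 * (k : ℝ) * A + 2) / (2 * k)) + E / (2 * k) := by
      field_simp
      ring
    rw [e1]
    have t1 : 2 * ε₁ * ((2 * (k : ℝ) * A + 2) / (2 * k)) ≤ η / 5 :=
      (mul_le_mul_of_nonneg_left hW (by positivity)).trans hε₁A
    have t2 : (2 / (b : ℝ)) * ((2 * (k : ℝ) * A + 2) / (2 * k)) ≤ η / 5 := by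
      refine (mul_le_mul_of_nonneg_left hW (by positivity)).trans ?_
      have h1 : 2 * ((A : ℝ) + 1) * (5 / η) ≤ b :=
        hb₁.trans (by exact_mod_cast (by omega : b₁ ≤ b))
      rw [div_mul_eq_mul_div, div_le_iff₀ hbpos]
      have h3 : 2 * ((A : ℝ) + 1) * (5 / η) * (η / 5) ≤ b * (η / 5) :=
        mul_le_mul_of_nonneg_right h1 (by positivity)
      have h4 : 2 * ((A : ℝ) + 1) * (5 / η) * (η / 5) = 2 * (A + 1) := by field_simp
      rw [h4] at h3; linarith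
    have t3 : (μ + 1) * ε₂ * ((2 * (k : ℝ) * A + 2) / (2 * k)) ≤ η / 5 :=
      (mul_le_mul_of_nonneg_left hW (by positivity)).trans hε₂A
    linarith
  set M : Matrix (Fin m) (Fin m) ℝ := Matrix.of fun i j =>
    (((if (i : ℕ) = μ + 1 then s else 1) * rows μ (U μ k R) q d i j : ℤ) : ℝ) / (2 * k * b) with hM
  have hMR : ∀ i j, |M i j - (R.map (Int.cast : ℤ → ℝ)) i j| ≤ η := fun i j => by
    simpa [hM] using (happ i j).trans hbound
  have hlong := hstab M hMR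
  -- norm of an integer combination of the rows
  have hrows : ∀ c : Fin m → ℤ, c ≠ 0 → 2 * k * b * ((1 - δ₁) * r₀) ≤
      ((∑ j, |(c ᵥ* rows μ (U μ k R) q d) j| : ℤ) : ℝ) := by
    intro c hc
    set c' : Fin m → ℤ := fun i => (if (i : ℕ) = μ + 1 then s else 1) * c i with hc'
    have hs2 : s * s = 1 := by rcases hs with h | h <;> rw [h] <;> norm_num
    have hc'0 : c' ≠ 0 := by
      intro h0
      apply hc
      funext i
      have h1 := congrFun h0 i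
      simp only [hc', Pi.zero_apply] at h1
      split_ifs at h1 with h2
      · have : s * (s * c i) = 0 := by rw [h1, mul_zero]
        rw [← mul_assoc, hs2, one_mul] at this
        simpa using this
      · simpa using h1
    have h1 := hlong c' hc'0
    have h2 : ∀ j, ∑ i, (c' i : ℝ) * M i j =
        (((c ᵥ* rows μ (U μ k R) q d) j : ℤ) : ℝ) / (2 * k * b) := by
      intro j
      simp only [Matrix.vecMul, dotProduct]
      push_cast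
      rw [Finset.sum_div]
      refine Finset.sum_congr rfl fun i _ => ?_
      simp only [hM, Matrix.of_apply, hc']
      by_cases h3 : (i : ℕ) = μ + 1
      · simp only [h3, if_true]
        push_cast
        have hs2' : (s : ℝ) * s = 1 := by exact_mod_cast hs2
        calc (s : ℝ) * c i * (s * (rows μ (U μ k R) q d i j : ℝ) / (2 * k * b))
            = ((s : ℝ) * s) * (c i * (rows μ (U μ k R) q d i j : ℝ) / (2 * k * b)) := by ring
          _ = _ := by rw [hs2', one_mul]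
      · simp only [h3, if_false]
        push_cast
        ring
    simp only [h2, abs_div] at h1
    rw [← Finset.sum_div] at h1
    have h3 : |2 * (k : ℝ) * b| = 2 * k * b := abs_of_pos (by positivity)
    rw [h3, le_div_iff₀ (by positivity)] at h1
    push_cast
    linarith
  -- 9.
  obtain ⟨a, ha⟩ := kernel μ (U μ k R) (det_U μ k R hR) (sum_U_even μ k hkeven R)
    (by rw [sum_U_last]; exact odd_one) q d
    (fun i hi => lt_of_lt_of_le (by exact_mod_cast hb1) (hq i hi).1) hdeven n hsum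
  refine ⟨a, fun v hv hv1 hv2 => ?_⟩
  obtain ⟨c, hc⟩ := ha v hv1 hv2
  have hc0 : c ≠ 0 := by
    rintro rfl
    apply hv
    rw [hc, Matrix.zero_vecMul]
  have h1 := hrows c hc0
  rw [← hc] at h1
  set S : ℝ := ((∑ j, |v j| : ℤ) : ℝ) with hS
  have hr₀' : (1 : ℝ) ≤ r₀ := by exact_mod_cast hr₀
  have h2 : (2 * k * b * ((1 - δ₁) * r₀)) ^ m ≤ S ^ m := by
    refine pow_le_pow_left₀ ?_ h1 _
    have : 0 ≤ 1 - δ₁ := by linarith
    positivity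
  have h3 : (2 : ℝ) * n ≤ (1 + δ₁) ^ 3 * ((2 * k * b) ^ m * (kappa m * r₀ ^ m)) := by
    have t1 : (2 : ℝ) * n ≤ 2 * (T * (1 + δ₂) * (b : ℝ) ^ m) := by linarith
    have t2 : T ≤ (1 + δ₁) * ((2 * (k : ℝ)) ^ m * (D₀ : ℝ) / 2) := hT2
    have t3 : T ≤ (1 + δ₁) * ((2 * (k : ℝ)) ^ m * (kappa m * (1 + δ₁) * (r₀ : ℝ) ^ m) / 2) := by
      refine t2.trans (mul_le_mul_of_nonneg_left ?_ (by linarith))
      have := mul_le_mul_of_nonneg_left hD₀le (by positivity : 0 ≤ (2 * (k : ℝ)) ^ m)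
      linarith
    have t4 : T * (1 + δ₂) ≤
        (1 + δ₁) * ((2 * (k : ℝ)) ^ m * (kappa m * (1 + δ₁) * (r₀ : ℝ) ^ m) / 2) * (1 + δ₁) :=
      mul_le_mul t3 (by linarith) (by linarith) (by positivity)
    calc (2 : ℝ) * n ≤ 2 * (T * (1 + δ₂) * (b : ℝ) ^ m) := t1
      _ ≤ 2 * ((1 + δ₁) * ((2 * (k : ℝ)) ^ m * (kappa m * (1 + δ₁) * (r₀ : ℝ) ^ m) / 2) *
            (1 + δ₁) * (b : ℝ) ^ m) := by
          have := mul_le_mul_of_nonneg_right t4 (by positivity : (0 : ℝ) ≤ (b : ℝ) ^ m)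
          linarith
      _ = _ := by rw [mul_pow (2 * (k : ℝ)) b]; ring
  have h4 : (1 - δ) * (1 + δ₁) ^ 3 ≤ (1 - δ₁) ^ m := by
    have t1 : 1 - δ ≤ (1 - δ₁) ^ (m + 3) := by
      have := one_add_mul_le_pow (a := -δ₁) (by linarith) (m + 3)
      push_cast at this
      calc 1 - δ = 1 + ((m : ℝ) + 3) * -δ₁ := by rw [hδδ₁]; ring
        _ ≤ (1 + -δ₁) ^ (m + 3) := this
        _ = (1 - δ₁) ^ (m + 3) := by ring
    calc (1 - δ) * (1 + δ₁) ^ 3 ≤ (1 - δ₁) ^ (m + 3) * (1 + δ₁) ^ 3 :=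
          mul_le_mul_of_nonneg_right t1 (by positivity)
      _ = (1 - δ₁) ^ m * ((1 - δ₁) * (1 + δ₁)) ^ 3 := by rw [pow_add, mul_pow]; ring
      _ ≤ (1 - δ₁) ^ m * 1 := by
          refine mul_le_mul_of_nonneg_left ?_ (by
            have : 0 ≤ 1 - δ₁ := by linarith
            positivity)
          exact pow_le_one₀ (mul_nonneg (by linarith) (by linarith)) (by nlinarith)
      _ = _ := mul_one _
  have hX : 0 ≤ (2 * (k : ℝ) * b) ^ m * (kappa m * r₀ ^ m) := by positivity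
  calc (1 - δ) * (2 * n) ≤ (1 - δ) * ((1 + δ₁) ^ 3 * ((2 * k * b) ^ m * (kappa m * r₀ ^ m))) :=
        mul_le_mul_of_nonneg_left h3 (by linarith)
    _ = ((1 - δ) * (1 + δ₁) ^ 3) * ((2 * k * b) ^ m * (kappa m * r₀ ^ m)) := by ring
    _ ≤ (1 - δ₁) ^ m * ((2 * k * b) ^ m * (kappa m * r₀ ^ m)) :=
        mul_le_mul_of_nonneg_right h4 hX
    _ = kappa m * (2 * k * b * ((1 - δ₁) * r₀)) ^ m := by
        rw [mul_pow (2 * (k : ℝ) * b), mul_pow (1 - δ₁)]; ring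
    _ ≤ kappa m * S ^ m := mul_le_mul_of_nonneg_left h2 hκ.le

end Pool.Agent.SBhAs
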