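import Mathlib
import Pool.Agent.SignedBh.Basic
import Pool.Agent.SBhAs.Main

/-!
# Sharp thresholds (MP_f688e9_co, Thresholds)

From `mainB` with `δ = ε/(2(1+ε))`: `(1-δ)(1+ε) = 1 + ε/2 > 1`.
-/

namespace Pool.Agent.SBhAs

open Pool.Agent.SignedBh

theorem even_abs {m : ℕ} (d : Fin m → ℤ) (h : Even (∑ i, |d i|)) : Even (∑ i, d i) := by
  have h1 : Even (∑ i, |d i| - ∑ i, d i) := by
    rw [← Finset.sum_sub_distrib]
    refine Finset.even_sum _ (fun i _ => ?_)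
    rcases abs_choice (d i) with h1 | h1 <;> rw [h1]
    · simp
    · exact ⟨-d i, by ring⟩
  have := h.sub h1
  rwa [sub_sub_cancel] at this

theorem sharp {m : ℕ} (hm : 2 ≤ m) (ε : ℝ) (hε : 0 < ε) :
    ∃ H : ℕ, ∀ h n : ℕ, H ≤ h → (1 + ε) * (2 ^ (m - 1) * kappa m * (h : ℝ) ^ m) ≤ n →
      m ≤ sigmaPM n h := by
  obtain ⟨μ, rfl⟩ : ∃ μ, m = μ + 2 := ⟨m - 2, by omega⟩
  have hκ : 0 < kappa (μ + 2) := kappa_pos (by omega)
  set δ : ℝ := ε / (2 * (1 + ε)) with hδdef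
  have hδ : 0 < δ := by positivity
  have hδε : (1 - δ) * (1 + ε) = 1 + ε / 2 := by
    rw [hδdef]; field_simp; ring
  obtain ⟨N₀, hN₀⟩ := mainB μ δ hδ
  obtain ⟨H, hH⟩ := exists_nat_ge ((N₀ : ℝ) / kappa (μ + 2))
  refine ⟨H + 1, fun h n hh hn => ?_⟩
  have h1 : (1 : ℝ) ≤ h := by exact_mod_cast (by omega : 1 ≤ h)
  have hpow : (h : ℝ) ≤ (h : ℝ) ^ (μ + 2) := by
    calc (h : ℝ) = (h : ℝ) ^ 1 := (pow_one _).symm
      _ ≤ (h : ℝ) ^ (μ + 2) := pow_le_pow_right₀ h1 (by omega)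
  have h2 : (1 : ℝ) ≤ 2 ^ (μ + 2 - 1) := one_le_pow₀ (by norm_num)
  have hNn : N₀ ≤ n := by
    have h3 : (N₀ : ℝ) ≤ kappa (μ + 2) * h := by
      rw [div_le_iff₀ hκ] at hH
      have : (H : ℝ) ≤ h := by exact_mod_cast (by omega : H ≤ h)
      nlinarith
    have h4 : kappa (μ + 2) * h ≤ (1 + ε) * (2 ^ (μ + 2 - 1) * kappa (μ + 2) * (h : ℝ) ^ (μ + 2)) := by
      have h5 : kappa (μ + 2) * h ≤ kappa (μ + 2) * (h : ℝ) ^ (μ + 2) :=
        mul_le_mul_of_nonneg_left hpow hκ.le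
      have h6 : kappa (μ + 2) * (h : ℝ) ^ (μ + 2) ≤
          2 ^ (μ + 2 - 1) * (kappa (μ + 2) * (h : ℝ) ^ (μ + 2)) := by
        refine le_mul_of_one_le_left (by positivity) h2
      have h7 : 2 ^ (μ + 2 - 1) * (kappa (μ + 2) * (h : ℝ) ^ (μ + 2)) ≤
          (1 + ε) * (2 ^ (μ + 2 - 1) * (kappa (μ + 2) * (h : ℝ) ^ (μ + 2))) := by
        refine le_mul_of_one_le_left (by positivity) (by linarith)
      calc _ ≤ _ := h5
        _ ≤ _ := h6
        _ ≤ _ := h7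
        _ = _ := by ring
    exact_mod_cast (h3.trans h4).trans hn
  have hn0 : 0 < n := by
    have : (0 : ℝ) < n := by
      refine lt_of_lt_of_le ?_ hn
      have : (0 : ℝ) < (h : ℝ) ^ (μ + 2) := by positivity
      positivity
    exact_mod_cast this
  obtain ⟨a, ha⟩ := hN₀ n hNn
  have hLat : Lat n h (fun i => ((a i : ℤ) : ZMod n)) := by
    intro d hd1 hd2 hd3
    by_contra hd0
    have h3 : (n : ℤ) ∣ ∑ j, d j * a j := by
      rw [← ZMod.intCast_zmod_eq_zero_iff_dvd]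
      push_cast
      exact hd3
    have h4 := ha d hd0 (even_abs d hd1) h3
    have h5 : ((∑ j, |d j| : ℤ) : ℝ) ≤ 2 * h := by exact_mod_cast hd2
    have h50 : (0 : ℝ) ≤ ((∑ j, |d j| : ℤ) : ℝ) := by
      have : (0 : ℤ) ≤ ∑ j, |d j| := Finset.sum_nonneg (fun i _ => abs_nonneg _)
      exact_mod_cast this
    have h6 : kappa (μ + 2) * ((∑ j, |d j| : ℤ) : ℝ) ^ (μ + 2) ≤
        kappa (μ + 2) * (2 * h) ^ (μ + 2) :=
      mul_le_mul_of_nonneg_left (pow_le_pow_left₀ h50 h5 _) hκ.le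
    have hδ1 : 0 < 1 - δ := by
      have : 0 < (1 - δ) * (1 + ε) := by rw [hδε]; positivity
      exact (pos_iff_pos_of_mul_pos this).mpr (by positivity)
    have h7 : (1 + ε / 2) * (kappa (μ + 2) * (2 * h) ^ (μ + 2)) ≤ (1 - δ) * (2 * n) := by
      have h8 : (1 - δ) * (2 * ((1 + ε) * (2 ^ (μ + 2 - 1) * kappa (μ + 2) * (h : ℝ) ^ (μ + 2)))) ≤
          (1 - δ) * (2 * n) := by
        refine mul_le_mul_of_nonneg_left ?_ hδ1.le
        linarith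
      have h9 : (1 - δ) * (2 * ((1 + ε) * (2 ^ (μ + 2 - 1) * kappa (μ + 2) * (h : ℝ) ^ (μ + 2)))) =
          ((1 - δ) * (1 + ε)) * (kappa (μ + 2) * (2 * h) ^ (μ + 2)) := by
        rw [show μ + 2 - 1 = μ + 1 by omega, mul_pow, pow_succ (2 : ℝ) (μ + 1)]
        ring
      rw [h9, hδε] at h8
      exact h8
    have h8 : 0 < kappa (μ + 2) * (2 * (h : ℝ)) ^ (μ + 2) := by positivity
    nlinarith
  have := hLat.le_sigmaPM (by omega) hn0
  simpa using this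

end Pool.Agent.SBhAs
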